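import Mathlib
import Pool.Graph.R_seed8.H96R3.BC.Fix3

/-!
# Interpolation theorem: definitions

A base is an arbitrary real function on a sparse set of primes; it generalises the bases of the library project
BIGCOEF (`Pool.Agent.H96R3.BC`, windows in a tower).
-/

set_option autoImplicit false

open Finset

namespace Pool.Agent.H483.IP

open Pool.Agent.H469R10.HO (Hoheisel TaskF)
open Pool.Agent.H96R3.BC (vv UU CC gg cf KK TaskKer1 TaskKer2 Wts TaskLagA TaskSmo TaskDef TaskSum)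

/-- size functions -/
structure Ell (l : ℕ → ℝ) : Prop where
  lo : ∀ n : ℕ, Real.log n ≤ l n
  mono : Monotone l
  dbl : ∀ n : ℕ, 2 ≤ n → l (2 * n) ≤ 4 * l n
  hi : ∀ ε : ℝ, 0 < ε → ∃ N : ℕ, ∀ n : ℕ, N ≤ n → l n ≤ (n : ℝ) ^ ε

/-- A base above `N0`: real values `a0 p`, `|a0 p| ≤ (l p)^12`, at primes with gaps at least `(l p)^22`. -/
structure LB (l : ℕ → ℝ) (N0 : ℕ) (a0 : ℕ → ℝ) : Prop where
  mem : ∀ p, a0 p ≠ 0 → p.Prime ∧ N0 < p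
  size : ∀ p, a0 p ≠ 0 → |a0 p| ≤ (l p) ^ 12
  sep : ∀ p q, a0 p ≠ 0 → a0 q ≠ 0 → p < q → (l q) ^ 22 ≤ (q : ℝ) - p

/-- primes with gaps at least `(log p)^22` -/
structure Sp (N0 : ℕ) (a0 : ℕ → ℝ) : Prop where
  mem : ∀ p, a0 p ≠ 0 → p.Prime ∧ N0 < p
  sep : ∀ p q, a0 p ≠ 0 → a0 q ≠ 0 → p < q → (Real.log q) ^ 22 ≤ (q : ℝ) - p

lemma LB.sp {l : ℕ → ℝ} (hl : Ell l) {N0 : ℕ} {a0 : ℕ → ℝ} (h : LB l N0 a0) : Sp N0 a0 :=
  ⟨h.mem, fun p q hp hq hpq => (pow_le_pow_left₀ (Real.log_nonneg (by exact_mod_cast (h.mem q hq).1.one_lt.le))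
    (hl.lo q) 22).trans (h.sep p q hp hq hpq)⟩

/-- majorant of the base -/
noncomputable def ab (a0 : ℕ → ℝ) (p : ℕ) : ℝ := |a0 p|

/-- mass of a part of the cell -/
def MassBd (good : ℕ → ℕ → ℕ → Prop) : Prop := ∃ Q₀ : ℕ, ∀ Q : ℕ, Q₀ ≤ Q → ∀ l : ℕ → ℝ, Ell l → ∀ s : ℝ, 0 < s →
  ∃ J₀ : ℕ, ∀ j₀ : ℕ, J₀ ≤ j₀ → ∀ a0 : ℕ → ℝ, LB l (j₀ ^ (2 * Q)) a0 →
  ∀ j : ℕ, j₀ ≤ j → ∀ T : Finset ℕ, T ⊆ CC Q j → (∀ n ∈ T, Squarefree n ∧ ¬ (n.Prime ∧ a0 n = 0) ∧ good Q j n) →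
    ∑ n ∈ T, ∏ p ∈ n.primeFactors, gg Q j₀ (ab a0) p ≤ s * (CC Q j).card / (Real.log j) ^ 3

/-- first moment -/
def G1 : Prop := ∀ Q : ℕ, 1 ≤ Q → ∀ l : ℕ → ℝ, Ell l → ∀ s : ℝ, 0 < s → ∃ J₀ : ℕ, ∀ j₀ : ℕ, J₀ ≤ j₀ →
  ∀ a0 : ℕ → ℝ, LB l (j₀ ^ (2 * Q)) a0 →
  ∀ T : Finset ℕ, ∑ m ∈ T.filter (fun m => Squarefree m ∧ 1 < m), (∏ p ∈ m.primeFactors, gg Q j₀ (ab a0) p) / m ≤ s

lemma ab_ne {a0 : ℕ → ℝ} {p : ℕ} : ab a0 p ≠ 0 ↔ a0 p ≠ 0 := by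
  unfold ab; exact abs_ne_zero

lemma ab_nonneg (a0 : ℕ → ℝ) (p : ℕ) : 0 ≤ ab a0 p := abs_nonneg _

lemma gg_nonneg (a0 : ℕ → ℝ) (Q j₀ p : ℕ) : 0 ≤ gg Q j₀ (ab a0) p := by
  unfold gg
  split_ifs
  · exact ab_nonneg _ _
  · positivity
  · exact le_rfl

/-- the number of base points in an interval -/
lemma count_gen {ll : ℕ → ℝ} {a0 : ℕ → ℝ} (hsep : ∀ p q, a0 p ≠ 0 → a0 q ≠ 0 → p < q → (ll q) ^ 22 ≤ (q : ℝ) - p)
    {l : ℝ} (hl : 0 < l) (S : Finset ℕ) (A B : ℝ) (hAB : A ≤ B)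
    (hS : ∀ p ∈ S, a0 p ≠ 0 ∧ A < p ∧ (p : ℝ) ≤ B ∧ l ≤ ll p) :
    (S.card : ℝ) ≤ (B - A) / l ^ 22 + 1 := by
  classical
  have hl22 : 0 < l ^ 22 := by positivity
  -- by strong induction on the cardinality, via the maximum
  have key : ∀ n : ℕ, ∀ S : Finset ℕ, S.card = n → ∀ B : ℝ, A ≤ B →
      (∀ p ∈ S, a0 p ≠ 0 ∧ A < p ∧ (p : ℝ) ≤ B ∧ l ≤ ll p) → (n : ℝ) ≤ (B - A) / l ^ 22 + 1 := by
    intro n
    induction n with
    | zero =>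
      intro S _ B hB _
      have : 0 ≤ (B - A) / l ^ 22 := div_nonneg (by linarith) hl22.le
      push_cast; linarith
    | succ n ih =>
      intro S hc B hB hS
      rcases Nat.eq_zero_or_pos n with h0 | h0
      · subst h0
        have : 0 ≤ (B - A) / l ^ 22 := div_nonneg (by linarith) hl22.le
        push_cast; linarith
      have hne : S.Nonempty := by rw [← Finset.card_pos, hc]; omega
      set q := S.max' hne with hq
      have hqS : q ∈ S := S.max'_mem hne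
      have hq' := hS q hqS
      have hc' : (S.erase q).card = n := by rw [Finset.card_erase_of_mem hqS, hc]; rfl
      have hlt : ∀ p ∈ S.erase q, p < q := by
        intro p hp
        rw [Finset.mem_erase] at hp
        exact lt_of_le_of_ne (S.le_max' p hp.2) hp.1
      have hgap : ∀ p ∈ S.erase q, (p : ℝ) ≤ q - l ^ 22 := by
        intro p hp
        have h1 := hsep p q (hS p (Finset.mem_of_mem_erase hp)).1 hq'.1 (hlt p hp)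
        have h2 : l ^ 22 ≤ (ll q) ^ 22 := pow_le_pow_left₀ hl.le hq'.2.2.2 22
        linarith
      have hne' : (S.erase q).Nonempty := by rw [← Finset.card_pos, hc']; exact h0
      obtain ⟨p₁, hp₁⟩ := hne'
      have hA' : A ≤ (q : ℝ) - l ^ 22 := by
        have := hgap p₁ hp₁
        have := (hS p₁ (Finset.mem_of_mem_erase hp₁)).2.1
        linarith
      have := ih (S.erase q) hc' ((q : ℝ) - l ^ 22) hA' (fun p hp =>
        ⟨(hS p (Finset.mem_of_mem_erase hp)).1, (hS p (Finset.mem_of_mem_erase hp)).2.1, hgap p hp,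
          (hS p (Finset.mem_of_mem_erase hp)).2.2.2⟩)
      have h3 : ((q : ℝ) - l ^ 22 - A) / l ^ 22 + 1 ≤ (B - A) / l ^ 22 := by
        rw [div_add_one hl22.ne']
        apply div_le_div_of_nonneg_right _ hl22.le
        linarith [hq'.2.2.1]
      push_cast
      linarith
  exact key S.card S rfl B hAB hS

lemma Sp.count {N0 : ℕ} {a0 : ℕ → ℝ} (h : Sp N0 a0) {l : ℝ} (hl : 0 < l) (S : Finset ℕ) (A B : ℝ) (hAB : A ≤ B)
    (hS : ∀ p ∈ S, a0 p ≠ 0 ∧ A < p ∧ (p : ℝ) ≤ B ∧ l ≤ Real.log p) :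
    (S.card : ℝ) ≤ (B - A) / l ^ 22 + 1 :=
  count_gen (ll := fun n => Real.log n) h.sep hl S A B hAB hS

end Pool.Agent.H483.IP
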