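import Pool.Agent.H483.IP.SM
import Pool.Graph.R_seed8.H96R3.BC.Asm

/-! # The element of the Selberg class with prescribed coefficients on a base -/

set_option autoImplicit false

open Finset

namespace Pool.Agent.H483.IP

open Pool.Agent.H469R10.HO (TaskF uu Hoheisel)
open Pool.Agent.H96R3.BC (cf vv Sol TaskKer1 TaskKer2)
open Pool.Agent.H878.BCSel

/-- an entire element of the Selberg class with the functional equation given by `N^s Γ(lam s + 2) F(s)` -/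
structure Elt (a : ℕ → ℂ) (N lam : ℝ) : Prop where
  one : a 1 = 1
  conv : ∀ s : ℂ, 1 < s.re → LSeriesSummable a s
  cont : ∃ G : ℂ → ℂ, Differentiable ℂ G ∧ (∃ A B : ℝ, ∀ z : ℂ, ‖G z‖ ≤ A * Real.exp (‖z‖ ^ B)) ∧
    (∀ s : ℂ, 1 < s.re → G s = LSeries a s) ∧
    ∀ s : ℂ, (∀ t : ℕ, (lam : ℂ) * s + 2 ≠ -(t : ℂ)) →
      (∀ t : ℕ, (lam : ℂ) * (1 - starRingEnd ℂ s) + 2 ≠ -(t : ℂ)) →
      (N : ℂ) ^ s * Complex.Gamma ((lam : ℂ) * s + 2) * G s =
        starRingEnd ℂ ((N : ℂ) ^ (1 - starRingEnd ℂ s) * Complex.Gamma ((lam : ℂ) * (1 - starRingEnd ℂ s) + 2) *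
          G (1 - starRingEnd ℂ s))
  ram : ∀ ε : ℝ, 0 < ε → ∃ C : ℝ, ∀ n : ℕ, 1 ≤ n → ‖a n‖ ≤ C * (n : ℝ) ^ ε
  euler : ∃ (b : ℕ → ℂ) (θ C : ℝ), θ < 1 / 2 ∧
    (∀ p l : ℕ, p.Prime → 1 ≤ l → ‖b (p ^ l)‖ ≤ C * ((p ^ l : ℕ) : ℝ) ^ θ) ∧
    ∀ s : ℂ, 1 < s.re → HasProd (fun p : Nat.Primes =>
      Complex.exp (∑' l : ℕ, b ((p : ℕ) ^ (l + 1)) * ((p : ℕ) : ℂ) ^ (-(((l + 1 : ℕ) : ℂ) * s))))
      (LSeries a s)

/-- growth from bounds at the primes -/
lemma grow {l : ℕ → ℝ} (hl : Ell l) {y : ℕ → ℝ} (h : ∀ p : ℕ, p.Prime → |y p| ≤ max 1 ((l p) ^ 12))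
    (hq : ∀ p : ℕ, p.Prime → |y p| ≤ (p : ℝ) ^ (1 / 4 : ℝ)) (ε : ℝ) (hε : 0 < ε) :
    ∃ C : ℝ, ∀ n : ℕ, 1 ≤ n → |cf y n| ≤ C * (n : ℝ) ^ ε := by
  obtain ⟨N, hN⟩ : ∃ N : ℕ, ∀ p : ℕ, N < p → (l p) ^ 12 ≤ (p : ℝ) ^ ε := by
    obtain ⟨N, hN⟩ := hl.hi (ε / 12) (by positivity)
    refine ⟨N, fun p hp => ?_⟩
    have h1 : 0 ≤ l p := (Real.log_natCast_nonneg p).trans (hl.lo p)
    calc (l p) ^ 12 ≤ ((p : ℝ) ^ (ε / 12)) ^ 12 := pow_le_pow_left₀ h1 (hN p hp.le) 12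
      _ = (p : ℝ) ^ ε := by
          rw [← Real.rpow_natCast, ← Real.rpow_mul (Nat.cast_nonneg _)]
          congr 1
          push_cast
          ring
  set M : ℝ := 1 + (N : ℝ) ^ (1 / 4 : ℝ) with hM
  have hM1 : 1 ≤ M := by
    have : (0 : ℝ) ≤ (N : ℝ) ^ (1 / 4 : ℝ) := by positivity
    linarith
  -- bound for one prime
  have hone : ∀ p : ℕ, p.Prime → |y p| ≤ (if p ≤ N then M else 1) * (p : ℝ) ^ ε := by
    intro p hp
    have hp1 : (1 : ℝ) ≤ p := by exact_mod_cast hp.one_lt.le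
    have hpe : (1 : ℝ) ≤ (p : ℝ) ^ ε := Real.one_le_rpow hp1 hε.le
    by_cases hpN : p ≤ N
    · rw [if_pos hpN]
      have h1 : |y p| ≤ M := by
        refine (hq p hp).trans ?_
        have h2 : (p : ℝ) ^ (1 / 4 : ℝ) ≤ (N : ℝ) ^ (1 / 4 : ℝ) := by
          apply Real.rpow_le_rpow (by positivity) _ (by norm_num)
          exact_mod_cast hpN
        linarith
      calc |y p| ≤ M := h1
        _ = M * 1 := (mul_one M).symm
        _ ≤ M * (p : ℝ) ^ ε := mul_le_mul_of_nonneg_left hpe (by linarith)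
    · rw [if_neg hpN, one_mul]
      rw [not_le] at hpN
      exact (h p hp).trans (max_le hpe (hN p hpN))
  refine ⟨M ^ (N + 1), ?_⟩
  intro n hn
  have hnr : (1 : ℝ) ≤ n := by exact_mod_cast hn
  have hrhs : 0 ≤ M ^ (N + 1) * (n : ℝ) ^ ε := by positivity
  rw [cf]
  by_cases hsq : Squarefree n
  · rw [if_pos hsq, Finset.abs_prod]
    have h1 : ∏ p ∈ n.primeFactors, |y p| ≤
        ∏ p ∈ n.primeFactors, ((if p ≤ N then M else 1) * (p : ℝ) ^ ε) := by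
      apply Finset.prod_le_prod
      · intro p _
        exact abs_nonneg _
      · intro p hp
        exact hone p (Nat.prime_of_mem_primeFactors hp)
    refine h1.trans ?_
    rw [Finset.prod_mul_distrib]
    have h2 : ∏ p ∈ n.primeFactors, (if p ≤ N then M else 1) ≤ M ^ (N + 1) := by
      rw [Finset.prod_ite, Finset.prod_const_one, mul_one, Finset.prod_const]
      apply pow_le_pow_right₀ hM1
      have h3 : (n.primeFactors.filter (fun p => p ≤ N)) ⊆ Finset.range (N + 1) := by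
        intro p hp
        rw [Finset.mem_filter] at hp
        rw [Finset.mem_range]
        omega
      calc (n.primeFactors.filter (fun p => p ≤ N)).card ≤ (Finset.range (N + 1)).card :=
            Finset.card_le_card h3
        _ = N + 1 := Finset.card_range _
    have h4 : ∏ p ∈ n.primeFactors, (p : ℝ) ^ ε ≤ (n : ℝ) ^ ε := by
      rw [Real.finset_prod_rpow _ _ (fun p _ => Nat.cast_nonneg p)]
      apply Real.rpow_le_rpow _ _ hε.le
      · exact Finset.prod_nonneg (fun p _ => Nat.cast_nonneg p)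
      · have h5 : ∏ p ∈ n.primeFactors, p ≤ n :=
          Nat.le_of_dvd (by omega) (Nat.prod_primeFactors_dvd n)
        have h6 : ((∏ p ∈ n.primeFactors, p : ℕ) : ℝ) ≤ (n : ℝ) := Nat.cast_le.2 h5
        rw [Nat.cast_prod] at h6
        exact h6
    exact mul_le_mul h2 h4 (Finset.prod_nonneg (fun p _ => by positivity)) (by positivity)
  · rw [if_neg hsq, abs_zero]
    exact hrhs

/-- the wrapper to the Selberg class with the explicit functional equation (adapted from `H878.BCSel.taskSel`) -/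
theorem selE (hF : TaskF) (Q j₀ : ℕ) (y : ℕ → ℝ) (hQ : 1 ≤ Q) (hj : 2 ≤ j₀)
    (hR : ∀ ε : ℝ, 0 < ε → ∃ C : ℝ, ∀ n : ℕ, 1 ≤ n → |cf y n| ≤ C * (n : ℝ) ^ ε)
    (hy : ∀ p : ℕ, p.Prime → |y p| ≤ (p : ℝ) ^ (1 / 4 : ℝ))
    (hrel : ∀ t : ℝ, 0 < t → ∑' n : ℕ, cf y n * (vv Q j₀ n) ^ 2 * Real.exp (-(vv Q j₀ n / t)) =
      t ^ (4 * Q + 4) * ∑' n : ℕ, cf y n * (vv Q j₀ n) ^ 2 * Real.exp (-(vv Q j₀ n * t))) :
    Elt (ff y) ((j₀ : ℝ) ^ (2 * Q)) (4 * (Q : ℝ)) := by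
  obtain ⟨c, hcdef⟩ : ∃ c : ℝ, c = ((j₀ : ℝ) ^ (2 * Q)) ^ (-(1 / (4 * (Q : ℝ)))) := ⟨_, rfl⟩
  obtain ⟨lam, hlam⟩ : ∃ lam : ℝ, lam = 4 * (Q : ℝ) := ⟨_, rfl⟩
  have hvv : ∀ n, vv Q j₀ n = uu c lam n := by
    intro n
    rw [vv_eq Q j₀ hj n, hcdef, hlam]
  have hj0 : (0 : ℝ) < (j₀ : ℝ) := by
    have : (2 : ℝ) ≤ j₀ := by exact_mod_cast hj
    linarith
  have hc : 0 < c := by rw [hcdef]; positivity
  have hQ1 : (1 : ℝ) ≤ Q := by exact_mod_cast hQ
  have hl4 : 4 ≤ lam := by rw [hlam]; linarith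
  have hl : 0 < lam := by linarith
  have hN : Real.exp (-(lam * Real.log c)) = (j₀ : ℝ) ^ (2 * Q) := by
    rw [hcdef, Real.log_rpow (by positivity), hlam]
    have : -(4 * (Q : ℝ) * (-(1 / (4 * (Q : ℝ))) * Real.log ((j₀ : ℝ) ^ (2 * Q)))) =
        Real.log ((j₀ : ℝ) ^ (2 * Q)) := by
      field_simp
    rw [this, Real.exp_log (by positivity)]
  have hu0 : uu c lam 0 = 0 := by
    unfold uu
    rw [Nat.cast_zero, Real.zero_rpow (by positivity), mul_zero]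
  simp only [hvv] at hrel
  obtain ⟨Λ, hΛd, hΛfe, hΛc, hΛs, C, hΛg⟩ := hF c lam (lam + 4) hc (by linarith) (by linarith)
    (fun n => cf y n * uu c lam n ^ 2)
    (by simp [cf_zero])
    (by
      obtain ⟨C, hC⟩ := hR (1 / (2 * lam)) (by positivity)
      have hs : Summable (fun n : ℕ => (C * c ^ (-(lam + 1))) * (n : ℝ) ^ (-(1 + 1 / (2 * lam)))) := by
        apply Summable.mul_left
        rw [Real.summable_nat_rpow]
        have : 0 < 1 / (2 * lam) := by positivity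
        linarith
      refine Summable.of_nonneg_of_le (fun n => ?_) (fun n => ?_) hs
      · apply mul_nonneg (abs_nonneg _)
        apply Real.rpow_nonneg
        rcases Nat.eq_zero_or_pos n with h | h
        · rw [h, hu0]
        · exact (uu_pos hc h).le
      rcases Nat.eq_zero_or_pos n with h | h
      · subst h
        rw [cf_zero, zero_mul, abs_zero, zero_mul, Nat.cast_zero, Real.zero_rpow, mul_zero]
        have : 0 < 1 / (2 * lam) := by positivity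
        linarith
      · have hu := uu_pos (lam := lam) hc h
        have hn : (0 : ℝ) < n := by exact_mod_cast h
        rw [abs_mul, abs_of_pos (pow_pos hu _), mul_assoc, ← Real.rpow_natCast,
          ← Real.rpow_add hu]
        have e1 : ((2 : ℕ) : ℝ) + -((lam + 4) - 1) = -(lam + 1) := by push_cast; ring
        rw [e1]
        have e2 : uu c lam n ^ (-(lam + 1)) = c ^ (-(lam + 1)) * (n : ℝ) ^ (-(1 + 1 / lam)) := by
          unfold uu
          rw [Real.mul_rpow hc.le (by positivity), ← Real.rpow_mul hn.le]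
          congr 2
          field_simp
        rw [e2]
        calc |cf y n| * (c ^ (-(lam + 1)) * (n : ℝ) ^ (-(1 + 1 / lam)))
            ≤ (C * (n : ℝ) ^ (1 / (2 * lam))) * (c ^ (-(lam + 1)) * (n : ℝ) ^ (-(1 + 1 / lam))) := by
              apply mul_le_mul_of_nonneg_right (hC n h) (by positivity)
          _ = (C * c ^ (-(lam + 1))) * ((n : ℝ) ^ (1 / (2 * lam)) * (n : ℝ) ^ (-(1 + 1 / lam))) := by
              ring
          _ = _ := by
              rw [← Real.rpow_add hn]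
              congr 2
              field_simp
              try ring)
    1 (Or.inl rfl)
    (by
      intro t ht
      have h1 := hrel t ht
      have h2 : t ^ (lam + 4) = t ^ (4 * Q + 4) := by
        rw [← Real.rpow_natCast, hlam]
        push_cast
        rfl
      rw [h2, one_mul]
      exact h1)
  have hFser : ∀ s : ℂ, 2 < s.re → FF c lam Λ s = LSeries (ff y) s := by
    intro s hs
    apply FF_series hc hl
    apply hΛs
    have h1 : (((lam : ℝ) : ℂ) * s + 2).re = lam * s.re + 2 := by simp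
    rw [h1]
    nlinarith
  obtain ⟨ρ, C', hgr⟩ := FF_growth (c := c) (lam := lam) (by linarith) hΛg
  rw [← hlam]
  refine ⟨?_, fun s hs => summable_term hR hs, ⟨FF c lam Λ, FF_diff hΛd, ⟨C', ρ, hgr⟩,
    fun s hs => FF_eq hΛd hR hFser hs, ?_⟩, ?_, ⟨bb y, 1 / 4, 1, by norm_num, ?_, fun s hs => euler hR hy hs⟩⟩
  · unfold ff
    rw [cf_one]
    simp
  · intro s hs0 hs1
    have g1 := FF_completed (c := c) (lam := lam) (Λ := Λ) (s := s) hs0
    have g2 := FF_completed (c := c) (lam := lam) (Λ := Λ) (s := 1 - starRingEnd ℂ s) hs1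
    rw [hN] at g1 g2
    rw [g1, g2, ← hΛc]
    have h3 : starRingEnd ℂ (((lam : ℝ) : ℂ) * (1 - starRingEnd ℂ s) + 2) =
        (((lam + 4 : ℝ)) : ℂ) - (((lam : ℝ) : ℂ) * s + 2) := by
      rw [map_add, map_mul, map_sub, map_one, Complex.conj_conj, Complex.conj_ofReal]
      have h4 : starRingEnd ℂ (2 : ℂ) = 2 := Complex.conj_ofNat 2
      rw [h4]
      push_cast
      ring
    rw [h3, hΛfe]
    simp
  · intro e he
    obtain ⟨C, hC⟩ := hR e he
    refine ⟨C, fun n hn => ?_⟩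
    unfold ff
    rw [Complex.norm_real, Real.norm_eq_abs]
    exact hC n hn
  · intro p l hp hl1
    rw [one_mul]
    refine (norm_bb_le hp hl1).trans ?_
    have h1 : |y p| ^ l ≤ ((p : ℝ) ^ (1 / 4 : ℝ)) ^ l :=
      pow_le_pow_left₀ (abs_nonneg _) (hy p hp) l
    refine h1.trans_eq ?_
    rw [Nat.cast_pow, ← Real.rpow_natCast, ← Real.rpow_natCast, ← Real.rpow_mul (by positivity),
      ← Real.rpow_mul (by positivity), mul_comm]

/-- **the interpolation theorem** -/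
theorem exists_elt : ∃ Q : ℕ, 2 ≤ Q ∧ ∀ l : ℕ → ℝ, Ell l → ∃ J₀ : ℕ, ∀ j₀ : ℕ, J₀ ≤ j₀ →
    ∀ a0 : ℕ → ℝ, LB l (j₀ ^ (2 * Q)) a0 →
    ∃ y : ℕ → ℝ, Elt (ff y) ((j₀ : ℝ) ^ (2 * Q)) (4 * (Q : ℝ)) ∧ (∀ p, a0 p ≠ 0 → y p = a0 p) ∧
      (∀ p : ℕ, p.Prime → a0 p = 0 → |y p| ≤ 1 / (Real.log p) ^ 2) ∧ ∀ p : ℕ, p ≤ j₀ ^ (2 * Q) → y p = 0 := by
  have hHo := Pool.Agent.H469R10.HO.hoheisel
  have hK1 : TaskKer1 := Pool.Agent.H589R3.BC.taskKer1
  have hK2 : TaskKer2 := Pool.Agent.H553R3.BC.taskKer2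
  obtain ⟨Q, hQ, hfix⟩ := fixA Pool.Agent.H336R4.BC.taskFixB hK1 hK2 Pool.Agent.H124R3.BC.taskDef
    Pool.Agent.H782R3.BCSum.taskSum Pool.Agent.H195R3.BC.lagA Lag.taskLag NS.taskNS taskSm hHo
  refine ⟨Q, hQ, fun l hl => ?_⟩
  obtain ⟨J₁, hfix⟩ := hfix l hl
  -- base primes are large
  obtain ⟨x₁, hx₁⟩ := hl.hi (1 / 48) (by norm_num)
  refine ⟨max J₁ (max x₁ 3), fun j₀ hj₀ a0 hB => ?_⟩
  have hj1 : J₁ ≤ j₀ := (le_max_left _ _).trans hj₀
  have hj2 : x₁ ≤ j₀ := ((le_max_left _ _).trans (le_max_right _ _)).trans hj₀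
  have hj3 : 3 ≤ j₀ := ((le_max_right _ _).trans (le_max_right _ _)).trans hj₀
  have hjN : j₀ ≤ j₀ ^ (2 * Q) := Nat.le_self_pow (by omega) j₀
  obtain ⟨y, f, hS, hsm⟩ := hfix j₀ hj1 a0 hB
  have hlarge : ∀ p, a0 p ≠ 0 → |y p| ≤ (l p) ^ 12 ∧ x₁ ≤ p := by
    intro p hp
    have := (hB.mem p hp).2
    rw [hS.big p hp]
    exact ⟨hB.size p hp, by omega⟩
  have hq : ∀ p : ℕ, p.Prime → |y p| ≤ (p : ℝ) ^ (1 / 4 : ℝ) := by
    intro p hp
    by_cases h0 : a0 p = 0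
    · have hp1 : (1 : ℝ) ≤ p := by exact_mod_cast hp.one_lt.le
      exact (hS.small p hp h0).trans (Real.one_le_rpow hp1 (by norm_num))
    · refine (hlarge p h0).1.trans ?_
      have h1 : 0 ≤ l p := (Real.log_natCast_nonneg p).trans (hl.lo p)
      calc (l p) ^ 12 ≤ ((p : ℝ) ^ (1 / 48 : ℝ)) ^ 12 := pow_le_pow_left₀ h1 (hx₁ p (hlarge p h0).2) 12
        _ = (p : ℝ) ^ (1 / 4 : ℝ) := by
            rw [← Real.rpow_natCast, ← Real.rpow_mul (Nat.cast_nonneg _)]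
            norm_num
  have hm : ∀ p : ℕ, p.Prime → |y p| ≤ max 1 ((l p) ^ 12) := by
    intro p hp
    by_cases h0 : a0 p = 0
    · exact (hS.small p hp h0).trans (le_max_left _ _)
    · exact (hlarge p h0).1.trans (le_max_right _ _)
  have hg : ∀ ε : ℝ, 0 < ε → ∃ C : ℝ, ∀ n : ℕ, 1 ≤ n → |cf y n| ≤ C * (n : ℝ) ^ ε := grow hl hm hq
  have hlin : ∃ C : ℝ, ∀ n : ℕ, 1 ≤ n → |cf y n| ≤ C * n := by
    obtain ⟨C, hC⟩ := hg 1 one_pos
    refine ⟨C, fun n hn => ?_⟩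
    have := hC n hn
    rwa [Real.rpow_one] at this
  have hth := Pool.Agent.H993R3.BC.taskTheta hK1 hK2 Q j₀ a0 y f (by omega) (by omega) hS hlin
  refine ⟨y, selE Pool.Agent.H144R3.T469F.taskF Q j₀ y (by omega) (by omega) hg hq hth, hS.big, ?_, hS.low⟩
  intro p hp h0
  by_cases hpN : j₀ ^ (2 * Q) < p
  · exact hsm p hp h0 hpN
  · rw [hS.low p (by omega), abs_zero]
    positivity

end Pool.Agent.H483.IP
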