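import Pool.Agent.H483.IP.Win

/-! # Classes of sparse primes with prescribed second moments -/

set_option autoImplicit false

open Finset Filter

namespace Pool.Agent.H483.IP

open Pool.Agent.H469R10.HO (Hoheisel)

/-- hypotheses on the growth functions -/
structure Gro (R : ℕ → ℝ → ℝ) (C : ℕ → ℝ) : Prop where
  mono : ∀ k x y, 1 ≤ x → x ≤ y → R k x ≤ R k y
  dbl : ∀ k x, 1 ≤ x → R k (2 * x) ≤ R k x + C k

lemma Gro.nonneg {R : ℕ → ℝ → ℝ} {C : ℕ → ℝ} (h : Gro R C) (k : ℕ) : 0 ≤ C k := by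
  have h1 := h.mono k 1 (2 * 1) le_rfl (by norm_num)
  have h2 := h.dbl k 1 le_rfl
  linarith

/-- the increments -/
lemma Gro.inc {R : ℕ → ℝ → ℝ} {C : ℕ → ℝ} (h : Gro R C) (k i : ℕ) :
    0 ≤ R k (2 ^ (i + 1)) - R k (2 ^ i) ∧ R k (2 ^ (i + 1)) - R k (2 ^ i) ≤ C k := by
  have h0 : (1 : ℝ) ≤ 2 ^ i := one_le_pow₀ (by norm_num)
  have h1 := h.mono k (2 ^ i) (2 ^ (i + 1)) h0 (by rw [pow_succ]; linarith)
  have h2 := h.dbl k (2 ^ i) h0
  have h3 : (2 : ℝ) ^ (i + 1) = 2 * 2 ^ i := by ring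
  rw [h3] at h1 ⊢
  constructor <;> linarith

/-- the array of sets of primes -/
structure Arr (R : ℕ → ℝ → ℝ) (B : ℕ → ℕ → Finset ℕ) : Prop where
  mem : ∀ i k, ∀ p ∈ B i k, p.Prime ∧ p ≤ 2 ^ (i + 1) ∧ 2 ^ i < p ∧ (2 : ℝ) ^ i + (Real.log (2 ^ (i + 1))) ^ 22 ≤ p
  sep : ∀ i k l, ∀ p ∈ B i k, ∀ q ∈ B i l, p < q → (Real.log (2 ^ (i + 1))) ^ 22 ≤ (q : ℝ) - p
  disj : ∀ i k l, k ≠ l → Disjoint (B i k) (B i l)
  sum : ∀ k, ∃ M : ℕ, 1 ≤ M ∧ ∀ i, M ≤ i → R k (2 ^ (i + 1)) - R k (2 ^ i) ≤ ∑ p ∈ B i k, E2 i / p ∧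
    ∑ p ∈ B i k, E2 i / p ≤ R k (2 ^ (i + 1)) - R k (2 ^ i) + (i : ℝ) ^ 24 / 2 ^ i

theorem exists_arr (hHo : Hoheisel) {R : ℕ → ℝ → ℝ} {C : ℕ → ℝ} (hR : Gro R C) : ∃ B : ℕ → ℕ → Finset ℕ, Arr R B := by
  classical
  obtain ⟨c, hc, i₀, hi₀, hW⟩ := window hHo
  -- activation times
  set Cs : ℕ → ℝ := fun k => ∑ l ∈ range (k + 1), C l with hCs
  have hCs0 : ∀ k, 0 ≤ Cs k := fun k => sum_nonneg fun l _ => hR.nonneg l
  set M : ℕ → ℕ := fun k => ⌈((Cs k + 1) / c) ^ 2⌉₊ + k + 1 with hM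
  have hMi : ∀ k i, M k ≤ i → Cs k + 1 ≤ c * Real.sqrt i := by
    intro k i hi
    have h1 : ((Cs k + 1) / c) ^ 2 ≤ i := by
      refine (Nat.le_ceil _).trans ?_
      have e : M k = ⌈((Cs k + 1) / c) ^ 2⌉₊ + k + 1 := rfl
      have : ⌈((Cs k + 1) / c) ^ 2⌉₊ ≤ i := by omega
      exact_mod_cast this
    have h2 : (Cs k + 1) / c ≤ Real.sqrt i := Real.le_sqrt_of_sq_le h1
    rw [div_le_iff₀ hc] at h2
    linarith
  set ρ : ℕ → ℕ → ℝ := fun i k => if M k ≤ i then R k (2 ^ (i + 1)) - R k (2 ^ i) else 0 with hρ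
  have hρ0 : ∀ i k, 0 ≤ ρ i k := by
    intro i k
    show 0 ≤ if M k ≤ i then R k (2 ^ (i + 1)) - R k (2 ^ i) else 0
    split_ifs
    · exact (hR.inc k i).1
    · exact le_rfl
  obtain ⟨i₁, hi₁⟩ := eventually_atTop.1 (ev_pow 25 1 1 one_pos)
  set i₂ : ℕ := max (max i₀ i₁) (⌈(1 / c) ^ 2⌉₊ + 1) with hi₂
  have hρs : ∀ i, i₂ ≤ i → ∑ k ∈ range i, (ρ i k + E2 i / 2 ^ i) ≤ c * Real.sqrt i := by
    intro i hi
    have h1 : i₀ ≤ i := ((le_max_left _ _).trans (le_max_left _ _)).trans hi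
    have h2 : i₁ ≤ i := ((le_max_right _ _).trans (le_max_left _ _)).trans hi
    have h3 : ⌈(1 / c) ^ 2⌉₊ + 1 ≤ i := (le_max_right _ _).trans hi
    have hi1 : 1 ≤ i := by omega
    have h4 : 1 ≤ c * Real.sqrt i := by
      have h5 : (1 / c) ^ 2 ≤ i := by
        refine (Nat.le_ceil _).trans ?_
        have : ⌈(1 / c) ^ 2⌉₊ ≤ i := by omega
        exact_mod_cast this
      have h6 : 1 / c ≤ Real.sqrt i := Real.le_sqrt_of_sq_le h5
      rw [div_le_iff₀ hc] at h6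
      linarith
    rw [sum_add_distrib, sum_const, card_range, nsmul_eq_mul]
    have h5 : (i : ℝ) * (E2 i / 2 ^ i) ≤ 1 := by
      have h6 := hi₁ i h2
      have h7 : (0 : ℝ) < 2 ^ i := by positivity
      rw [mul_div_assoc', div_le_one h7]
      calc (i : ℝ) * E2 i ≤ i * (i : ℝ) ^ 24 := mul_le_mul_of_nonneg_left (E2_le hi1) (Nat.cast_nonneg _)
        _ = 1 * (i : ℝ) ^ 25 := by ring
        _ ≤ 1 * 2 ^ i := h6
        _ = 2 ^ i := one_mul _
    have h8 : ∑ k ∈ range i, ρ i k ≤ c * Real.sqrt i - 1 := by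
      have h9 : ∑ k ∈ range i, ρ i k = ∑ k ∈ (range i).filter (fun k => M k ≤ i), (R k (2 ^ (i + 1)) - R k (2 ^ i)) := by
        rw [sum_filter]
      rw [h9]
      rcases ((range i).filter (fun k => M k ≤ i)).eq_empty_or_nonempty with h0 | h0
      · rw [h0, sum_empty]; linarith
      · set A := (range i).filter (fun k => M k ≤ i) with hA
        have hk := A.max'_mem h0
        set k' := A.max' h0 with hk'
        have h10 : M k' ≤ i := (mem_filter.1 hk).2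
        have h11 : ∑ k ∈ A, (R k (2 ^ (i + 1)) - R k (2 ^ i)) ≤ Cs k' := by
          calc ∑ k ∈ A, (R k (2 ^ (i + 1)) - R k (2 ^ i)) ≤ ∑ k ∈ A, C k := sum_le_sum fun k _ => (hR.inc k i).2
            _ ≤ ∑ k ∈ range (k' + 1), C k := by
                apply sum_le_sum_of_subset_of_nonneg
                · intro k hkA
                  rw [mem_range]
                  have := A.le_max' k hkA
                  omega
                · intro k _ _
                  exact hR.nonneg k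
        have h12 := hMi k' i h10
        linarith
    linarith
  -- the choice
  have hex : ∀ i : ℕ, ∃ B : ℕ → Finset ℕ, (∀ k, ∀ p ∈ B k, p.Prime ∧ p ≤ 2 ^ (i + 1) ∧ 2 ^ i < p ∧
      (2 : ℝ) ^ i + (Real.log (2 ^ (i + 1))) ^ 22 ≤ p) ∧
      (∀ k l, ∀ p ∈ B k, ∀ q ∈ B l, p < q → (Real.log (2 ^ (i + 1))) ^ 22 ≤ (q : ℝ) - p) ∧
      (∀ k l, k ≠ l → Disjoint (B k) (B l)) ∧
      (i₂ ≤ i → ∀ k, k < i → ρ i k ≤ ∑ p ∈ B k, E2 i / p ∧ ∑ p ∈ B k, E2 i / p ≤ ρ i k + E2 i / 2 ^ i) := by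
    intro i
    by_cases hi : i₂ ≤ i
    · have h1 : i₀ ≤ i := ((le_max_left _ _).trans (le_max_left _ _)).trans hi
      obtain ⟨W, hW1, hW2, hW3⟩ := hW i h1
      obtain ⟨B, b1, b2, b3, b4⟩ := distribute (fun p => E2 i / p) (E2 i / 2 ^ i)
        (div_nonneg (E2_nonneg i) (by positivity)) (ρ i) (hρ0 i) i W (by
          intro p hp
          refine ⟨div_nonneg (E2_nonneg i) (Nat.cast_nonneg _), ?_⟩
          apply div_le_div_of_nonneg_left (E2_nonneg i) (by positivity)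
          exact_mod_cast (hW1 p hp).2.2.1.le) ((hρs i hi).trans hW3)
      exact ⟨B, fun k p hp => hW1 p (b1 k hp), fun k l p hp q hq => hW2 p (b1 k hp) q (b1 l hq), b3, fun _ => b4⟩
    · exact ⟨fun _ => ∅, fun k p hp => absurd hp (notMem_empty p), fun k l p hp => absurd hp (notMem_empty p),
        fun k l _ => disjoint_empty_left _, fun h => absurd h hi⟩
  choose B hB1 hB2 hB3 hB4 using hex
  refine ⟨B, hB1, hB2, hB3, fun k => ⟨max (max i₂ (M k)) (k + 1), by omega, fun i hi => ?_⟩⟩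
  have h1 : i₂ ≤ i := ((le_max_left _ _).trans (le_max_left _ _)).trans hi
  have h2 : M k ≤ i := ((le_max_right _ _).trans (le_max_left _ _)).trans hi
  have h3 : k + 1 ≤ i := (le_max_right _ _).trans hi
  have h4 := hB4 i h1 k (by omega)
  have h5 : ρ i k = R k (2 ^ (i + 1)) - R k (2 ^ i) := by
    show (if M k ≤ i then R k (2 ^ (i + 1)) - R k (2 ^ i) else 0) = _
    rw [if_pos h2]
  rw [h5] at h4
  refine ⟨h4.1, h4.2.trans ?_⟩
  have h6 : E2 i / 2 ^ i ≤ (i : ℝ) ^ 24 / 2 ^ i := div_le_div_of_nonneg_right (E2_le (by omega)) (by positivity)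
  linarith

lemma win_unique {i j p : ℕ} (h1 : p ≤ 2 ^ (i + 1)) (h2 : 2 ^ i < p) (h3 : p ≤ 2 ^ (j + 1)) (h4 : 2 ^ j < p) : i = j := by
  rcases lt_trichotomy i j with h | h | h
  · have : 2 ^ (i + 1) ≤ 2 ^ j := Nat.pow_le_pow_right (by norm_num) h
    omega
  · exact h
  · have : 2 ^ (j + 1) ≤ 2 ^ i := Nat.pow_le_pow_right (by norm_num) h
    omega

open Classical in
/-- the functions of the classes -/
noncomputable def ee (B : ℕ → ℕ → Finset ℕ) (k p : ℕ) : ℝ := if h : ∃ i, p ∈ B i k then Real.sqrt (E2 h.choose) else 0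

section
variable {R : ℕ → ℝ → ℝ} {B : ℕ → ℕ → Finset ℕ} (hB : Arr R B)
include hB

lemma ee_eq {i k p : ℕ} (hp : p ∈ B i k) : ee B k p = Real.sqrt (E2 i) := by
  unfold ee
  have h : ∃ i, p ∈ B i k := ⟨i, hp⟩
  rw [dif_pos h]
  have h1 := hB.mem _ _ p h.choose_spec
  have h2 := hB.mem _ _ p hp
  rw [win_unique h1.2.1 h1.2.2.1 h2.2.1 h2.2.2.1]

omit hB in
lemma ee_ne {k p : ℕ} (h : ee B k p ≠ 0) : ∃ i, p ∈ B i k := by
  by_contra hcon
  apply h
  unfold ee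
  rw [dif_neg hcon]

omit hB in
lemma ee_nonneg (k p : ℕ) : 0 ≤ ee B k p := by
  unfold ee
  split_ifs
  · exact Real.sqrt_nonneg _
  · exact le_rfl

lemma ee_prime {k p : ℕ} (h : ee B k p ≠ 0) : p.Prime := by
  obtain ⟨i, hi⟩ := ee_ne h
  exact (hB.mem i k p hi).1

lemma ee_disj {k l p : ℕ} (h : ee B k p ≠ 0) (h' : ee B l p ≠ 0) : k = l := by
  obtain ⟨i, hi⟩ := ee_ne h
  obtain ⟨j, hj⟩ := ee_ne h'
  have h1 := hB.mem _ _ p hi
  have h2 := hB.mem _ _ p hj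
  have h3 := win_unique h1.2.1 h1.2.2.1 h2.2.1 h2.2.2.1
  subst h3
  by_contra hkl
  exact (Finset.disjoint_left.1 (hB.disj i k l hkl)) hi hj

lemma ee_sep {k l p q : ℕ} (h : ee B k p ≠ 0) (h' : ee B l q ≠ 0) (hpq : p < q) :
    (Real.log q) ^ 22 ≤ (q : ℝ) - p := by
  obtain ⟨i, hi⟩ := ee_ne h
  obtain ⟨j, hj⟩ := ee_ne h'
  have h1 := hB.mem _ _ p hi
  have h2 := hB.mem _ _ q hj
  have hq1 : (1 : ℝ) ≤ q := by exact_mod_cast h2.1.one_lt.le
  have hlog : (Real.log q) ^ 22 ≤ (Real.log (2 ^ (j + 1))) ^ 22 := by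
    apply pow_le_pow_left₀ (Real.log_nonneg hq1)
    apply Real.log_le_log (by linarith)
    exact_mod_cast h2.2.1
  rcases lt_trichotomy i j with hij | hij | hij
  · have h3 : 2 ^ (i + 1) ≤ 2 ^ j := Nat.pow_le_pow_right (by norm_num) hij
    have h4 : p ≤ 2 ^ j := h1.2.1.trans h3
    have h5 : (p : ℝ) ≤ 2 ^ j := by exact_mod_cast h4
    have h6 := h2.2.2.2
    linarith
  · subst hij
    exact hlog.trans (hB.sep i k l p hi q hj hpq)
  · have h3 : 2 ^ (j + 1) ≤ 2 ^ i := Nat.pow_le_pow_right (by norm_num) hij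
    have := h1.2.2.1
    have := h2.2.1
    omega

lemma ee_small (V : ℝ) : ∃ P : ℕ, ∀ k p : ℕ, P < p → V * ee B k p ≤ (Real.log p) ^ 12 := by
  refine ⟨2 ^ (⌈V ^ 4⌉₊ + 1), fun k p hp => ?_⟩
  by_cases h0 : ee B k p = 0
  · rw [h0, mul_zero]
    exact Even.pow_nonneg (by decide) _
  · obtain ⟨i, hi⟩ := ee_ne h0
    have h1 := hB.mem _ _ p hi
    rw [ee_eq hB hi]
    have h2 : ⌈V ^ 4⌉₊ < i := by
      by_contra hcon
      have h3 : 2 ^ (i + 1) ≤ 2 ^ (⌈V ^ 4⌉₊ + 1) := Nat.pow_le_pow_right (by norm_num) (by omega)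
      have := h1.2.1
      omega
    have h3 : V ^ 4 ≤ i := (Nat.le_ceil _).trans (by exact_mod_cast h2.le)
    have hi0 : (0 : ℝ) < i := by
      have : 0 < i := by omega
      exact_mod_cast this
    have h4 : V ^ 2 ≤ Real.sqrt i := by
      apply Real.le_sqrt_of_sq_le
      have e : (V ^ 2) ^ 2 = V ^ 4 := by ring
      rw [e]
      exact h3
    have hl0 : 0 < Real.log 2 := Real.log_pos (by norm_num)
    have h5 : (i : ℝ) * Real.log 2 ≤ Real.log p := by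
      rw [← Real.log_pow]
      apply Real.log_le_log (by positivity)
      exact_mod_cast h1.2.2.1.le
    have h6 : V ^ 2 * E2 i ≤ (Real.log p) ^ 24 := by
      have hs : 0 < Real.sqrt (i : ℝ) := Real.sqrt_pos.2 hi0
      calc V ^ 2 * E2 i ≤ Real.sqrt i * E2 i := mul_le_mul_of_nonneg_right h4 (E2_nonneg i)
        _ = ((i : ℝ) * Real.log 2) ^ 24 := by unfold E2; field_simp
        _ ≤ (Real.log p) ^ 24 := pow_le_pow_left₀ (by positivity) h5 24
    have h7 : V * Real.sqrt (E2 i) ≤ |V| * Real.sqrt (E2 i) :=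
      mul_le_mul_of_nonneg_right (le_abs_self V) (Real.sqrt_nonneg _)
    refine h7.trans ?_
    have h8 : 0 ≤ Real.log p := le_trans (by positivity) h5
    rw [← Real.sqrt_sq_eq_abs, ← Real.sqrt_mul (sq_nonneg V)]
    apply Real.sqrt_le_iff.2
    refine ⟨by positivity, h6.trans (le_of_eq (by ring))⟩

/-- the sum over a window -/
lemma win_sum (i k : ℕ) : ∑ p ∈ Ioc (2 ^ i) (2 ^ (i + 1)), (ee B k p) ^ 2 / (p : ℝ) = ∑ p ∈ B i k, E2 i / (p : ℝ) := by
  have hsub : B i k ⊆ Ioc (2 ^ i) (2 ^ (i + 1)) := fun p hp => by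
    have := hB.mem i k p hp
    exact mem_Ioc.2 ⟨this.2.2.1, this.2.1⟩
  rw [← sum_subset hsub]
  · apply sum_congr rfl
    intro p hp
    rw [ee_eq hB hp, Real.sq_sqrt (E2_nonneg i)]
  · intro p hp hpB
    rw [mem_Ioc] at hp
    have h0 : ee B k p = 0 := by
      by_contra hne
      obtain ⟨j, hj⟩ := ee_ne hne
      have h1 := hB.mem _ _ p hj
      have h2 := win_unique h1.2.1 h1.2.2.1 hp.2 hp.1
      rw [h2] at hj
      exact hpB hj
    rw [h0]
    simp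

/-- the second moments -/
lemma ee_sum {C : ℕ → ℝ} (hR : Gro R C) (k : ℕ) : ∃ D : ℝ, ∀ x : ℝ, 1 ≤ x →
    |∑ p ∈ Ioc 0 ⌊x⌋₊, (ee B k p) ^ 2 / (p : ℝ) - R k x| ≤ D := by
  set S : ℕ → ℝ := fun n => ∑ p ∈ Ioc 0 n, (ee B k p) ^ 2 / (p : ℝ) with hS
  have hterm : ∀ p : ℕ, 0 ≤ (ee B k p) ^ 2 / (p : ℝ) := fun p => by positivity
  have hSmono : Monotone S := by
    intro m n hmn
    apply sum_le_sum_of_subset_of_nonneg (Ioc_subset_Ioc_right hmn)
    intro p _ _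
    exact hterm p
  have hS0 : ∀ n, 0 ≤ S n := fun n => sum_nonneg fun p _ => hterm p
  have hstep : ∀ i : ℕ, S (2 ^ (i + 1)) = S (2 ^ i) + ∑ p ∈ B i k, E2 i / (p : ℝ) := by
    intro i
    rw [← win_sum hB i k]
    exact (Finset.sum_Ioc_consecutive _ (Nat.zero_le _) (Nat.pow_le_pow_right (by norm_num) (Nat.le_succ i))).symm
  obtain ⟨M, hM1, hM⟩ := hB.sum k
  have hsum : Summable fun n : ℕ => (n : ℝ) ^ 24 / 2 ^ n := by
    have := summable_pow_mul_geometric_of_norm_lt_one (R := ℝ) 24 (r := 1 / 2) (by norm_num)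
    refine this.congr fun n => ?_
    rw [one_div, inv_pow]
    rfl
  set T : ℝ := ∑' n : ℕ, (n : ℝ) ^ 24 / 2 ^ n with hT
  have key : ∀ j : ℕ, M ≤ j → S (2 ^ M) + (R k (2 ^ j) - R k (2 ^ M)) ≤ S (2 ^ j) ∧
      S (2 ^ j) ≤ S (2 ^ M) + (R k (2 ^ j) - R k (2 ^ M)) + ∑ i ∈ Ico M j, (i : ℝ) ^ 24 / 2 ^ i := by
    intro j hj
    induction j, hj using Nat.le_induction with
    | base => simp
    | succ j hj ih =>
      rw [hstep j, sum_Ico_succ_top hj]
      have := hM j hj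
      constructor
      · linarith [ih.1, this.1]
      · linarith [ih.2, this.2]
  have hTle : ∀ j, ∑ i ∈ Ico M j, (i : ℝ) ^ 24 / 2 ^ i ≤ T := fun j =>
    hsum.sum_le_tsum _ fun i _ => by positivity
  have hT0 : 0 ≤ T := tsum_nonneg fun n => by positivity
  set D1 : ℝ := S (2 ^ M) + |R k (2 ^ M)| + |R k 1| + T with hD1
  have hpow : ∀ j : ℕ, |S (2 ^ j) - R k (2 ^ j)| ≤ D1 := by
    intro j
    rw [abs_le]
    rcases le_or_gt M j with h | h
    · have h1 := key j h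
      have h2 := hTle j
      have h3 := abs_le.1 (le_refl |R k (2 ^ M)|)
      have h4 := abs_nonneg (R k 1)
      have h5 := hS0 (2 ^ M)
      constructor <;> linarith [h1.1, h1.2, h3.1, h3.2]
    · have h1 : (1 : ℝ) ≤ 2 ^ j := one_le_pow₀ (by norm_num)
      have h2 : (2 : ℝ) ^ j ≤ 2 ^ M := pow_le_pow_right₀ (by norm_num) h.le
      have h3 := hR.mono k 1 (2 ^ j) le_rfl h1
      have h4 := hR.mono k (2 ^ j) (2 ^ M) h1 h2
      have h5 := hSmono (Nat.pow_le_pow_right (show 0 < 2 by norm_num) h.le)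
      have h6 := hS0 (2 ^ j)
      have h7 := abs_le.1 (le_refl |R k (2 ^ M)|)
      have h8 := abs_le.1 (le_refl |R k 1|)
      have h9 := abs_nonneg (R k 1)
      have h10 := abs_nonneg (R k (2 ^ M))
      constructor
      · linarith [h7.2]
      · linarith [h8.1]
  refine ⟨D1 + C k, fun x hx => ?_⟩
  show |S ⌊x⌋₊ - R k x| ≤ D1 + C k
  set n := ⌊x⌋₊ with hn
  have hn1 : 1 ≤ n := Nat.le_floor (by exact_mod_cast hx)
  set j := Nat.log 2 n with hj
  have hj1 : 2 ^ j ≤ n := Nat.pow_log_le_self 2 (by omega)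
  have hj2 : n < 2 ^ (j + 1) := Nat.lt_pow_succ_log_self (by norm_num) n
  have hx1 : (2 : ℝ) ^ j ≤ x := by
    have h1 : ((2 ^ j : ℕ) : ℝ) ≤ n := by exact_mod_cast hj1
    push_cast at h1
    exact h1.trans (Nat.floor_le (by linarith))
  have hx2 : x ≤ 2 ^ (j + 1) := by
    have h1 : x < n + 1 := Nat.lt_floor_add_one x
    have h2 : ((n + 1 : ℕ) : ℝ) ≤ ((2 ^ (j + 1) : ℕ) : ℝ) := by exact_mod_cast hj2
    push_cast at h2
    linarith
  have h0 : (1 : ℝ) ≤ 2 ^ j := one_le_pow₀ (by norm_num)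
  have r1 := hR.mono k (2 ^ j) x h0 hx1
  have r2 := hR.mono k x (2 ^ (j + 1)) hx hx2
  have r3 := (hR.inc k j).2
  have s1 := hSmono hj1
  have s2 := hSmono hj2.le
  have d1 := abs_le.1 (hpow j)
  have d2 := abs_le.1 (hpow (j + 1))
  rw [abs_le]
  constructor <;> linarith [d1.1, d2.2]

end

end Pool.Agent.H483.IP
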