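import Pool.Agent.H483.IP.Elt
import Pool.Agent.H483.IP.Sys

/-! # Families of elements of the Selberg class with prescribed correlations at the primes -/

set_option autoImplicit false

open Finset Filter

namespace Pool.Agent.H483.IP

open Pool.Agent.H878.BCSel (ff)

lemma log_ell : Ell (fun n : ℕ => Real.log n) := by
  refine ⟨fun n => le_rfl, fun a b hab => ?_, fun n hn => ?_, fun ε hε => ?_⟩
  · show Real.log (a : ℝ) ≤ Real.log b
    rcases Nat.eq_zero_or_pos a with h0 | h0
    · rw [h0]; simpa using Real.log_natCast_nonneg b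
    · exact Real.log_le_log (by exact_mod_cast h0) (by exact_mod_cast hab)
  · show Real.log ((2 * n : ℕ) : ℝ) ≤ 4 * Real.log n
    have hn2 : (2 : ℝ) ≤ n := by exact_mod_cast hn
    push_cast
    rw [Real.log_mul (by norm_num) (by linarith)]
    have h1 : Real.log 2 ≤ Real.log n := Real.log_le_log (by norm_num) hn2
    have h2 := Real.log_pos (show (1:ℝ) < 2 by norm_num)
    linarith
  · have := (isLittleO_log_rpow_atTop hε).bound (c := 1) one_pos
    obtain ⟨x₀, hx₀⟩ := eventually_atTop.1 (this.and (eventually_ge_atTop (1 : ℝ)))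
    refine ⟨⌈x₀⌉₊, fun n hn => ?_⟩
    have h1 := hx₀ n ((Nat.le_ceil _).trans (by exact_mod_cast hn))
    rw [Real.norm_of_nonneg (Real.log_nonneg h1.2), Real.norm_of_nonneg (by positivity), one_mul] at h1
    exact h1.1

/-- bases of logarithmic size -/
def LBl (N0 : ℕ) (a0 : ℕ → ℝ) : Prop := LB (fun n : ℕ => Real.log n) N0 a0

lemma g_sum : ∃ T : ℝ, ∀ S : Finset ℕ, (∀ p ∈ S, 2 < p) → ∑ p ∈ S, 1 / ((p : ℝ) * (Real.log p) ^ 4) ≤ T := by
  have hl0 : 0 < Real.log 2 := Real.log_pos (by norm_num)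
  set c : ℕ → ℝ := fun i => 1 / (((i + 1 : ℕ) : ℝ) ^ 4) * (1 / (Real.log 2) ^ 4) with hc
  have hcs : Summable c := by
    have h1 : Summable fun i : ℕ => 1 / ((i : ℝ) ^ 4) := Real.summable_one_div_nat_pow.2 (by norm_num)
    exact ((summable_nat_add_iff 1).2 h1).mul_right _
  set g : ℕ → ℝ := fun p => 1 / ((p : ℝ) * (Real.log p) ^ 4) with hgd
  have hg : ∀ p : ℕ, 0 ≤ g p := fun p => by
    have : 0 ≤ (Real.log (p : ℝ)) ^ 4 := Even.pow_nonneg (by decide) _
    show 0 ≤ 1 / ((p : ℝ) * (Real.log p) ^ 4)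
    positivity
  have hw : ∀ n : ℕ, ∑ p ∈ Ioc 2 (2 ^ (n + 1)), g p ≤ ∑ i ∈ range n, c i := by
    intro n
    induction n with
    | zero => simp
    | succ n ih =>
      rw [sum_range_succ, ← Finset.sum_Ioc_consecutive _ (show 2 ≤ 2 ^ (n + 1) from Nat.le_self_pow (by omega) 2)
        (show 2 ^ (n + 1) ≤ 2 ^ (n + 1 + 1) from Nat.pow_le_pow_right (by norm_num) (Nat.le_succ _))]
      refine add_le_add ih ?_
      have h1 : ∀ p ∈ Ioc (2 ^ (n + 1)) (2 ^ (n + 1 + 1)), g p ≤
          1 / ((2 : ℝ) ^ (n + 1) * ((((n + 1 : ℕ) : ℝ)) * Real.log 2) ^ 4) := by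
        intro p hp
        rw [mem_Ioc] at hp
        have h2 : (2 : ℝ) ^ (n + 1) ≤ p := by exact_mod_cast hp.1.le
        have h3 : ((n + 1 : ℕ) : ℝ) * Real.log 2 ≤ Real.log p := by
          rw [← Real.log_pow]
          exact Real.log_le_log (by positivity) h2
        have h4 : (0 : ℝ) < ((n + 1 : ℕ) : ℝ) * Real.log 2 := by positivity
        apply one_div_le_one_div_of_le (by positivity)
        exact mul_le_mul h2 (pow_le_pow_left₀ h4.le h3 4) (by positivity) (by positivity)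
      refine (sum_le_sum h1).trans (le_of_eq ?_)
      rw [sum_const, Nat.card_Ioc, nsmul_eq_mul]
      have h5 : 2 ^ (n + 1 + 1) - 2 ^ (n + 1) = 2 ^ (n + 1) := by
        rw [pow_succ 2 (n + 1)]; omega
      rw [h5, hc]
      push_cast
      field_simp
  refine ⟨∑' i, c i, fun S hS => ?_⟩
  obtain ⟨n, hn⟩ : ∃ n : ℕ, ∀ p ∈ S, p ≤ n := ⟨S.sup id, fun p hp => Finset.le_sup (f := id) hp⟩
  have h1 : S ⊆ Ioc 2 (2 ^ (n + 1)) := by
    intro p hp
    rw [mem_Ioc]
    refine ⟨hS p hp, (hn p hp).trans ?_⟩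
    exact (Nat.lt_two_pow_self (n := n)).le.trans (Nat.pow_le_pow_right (by norm_num) (Nat.le_succ _))
  calc ∑ p ∈ S, g p ≤ ∑ p ∈ Ioc 2 (2 ^ (n + 1)), g p :=
        sum_le_sum_of_subset_of_nonneg h1 fun p _ _ => hg p
    _ ≤ ∑ i ∈ range n, c i := hw n
    _ ≤ ∑' i, c i := hcs.sum_le_tsum _ fun i _ => by positivity

section
variable {R : ℕ → ℝ → ℝ} {B : ℕ → ℕ → Finset ℕ} (hB : Arr R B)
include hB

/-- combination of the classes at a prime of the class `k` -/
lemma comb_eq (v : ℕ →₀ ℝ) (f : ℝ → ℝ) (hf : f 0 = 0) (g : ℕ → ℝ) {k p : ℕ} (hk : ee B k p ≠ 0) (hg : k ∉ v.support → g k = 0) :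
    ∑ l ∈ v.support, g l * f (ee B l p) = g k * f (ee B k p) := by
  by_cases h : k ∈ v.support
  · apply Finset.sum_eq_single_of_mem k h
    intro l _ hlk
    have : ee B l p = 0 := by
      by_contra hne
      exact hlk (ee_disj hB hne hk)
    rw [this, hf, mul_zero]
  · rw [hg h, zero_mul]
    apply Finset.sum_eq_zero
    intro l hl
    have : ee B l p = 0 := by
      by_contra hne
      have := ee_disj hB hne hk
      rw [this] at hl
      exact h hl
    rw [this, hf, mul_zero]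

open Classical in
/-- the base attached to a vector -/
noncomputable def av (B : ℕ → ℕ → Finset ℕ) (P : ℕ) (v : ℕ →₀ ℝ) (p : ℕ) : ℝ :=
  if P < p then ∑ k ∈ v.support, v k * ee B k p else 0

omit hB in
lemma av_ne {P : ℕ} {v : ℕ →₀ ℝ} {p : ℕ} (h : av B P v p ≠ 0) : P < p ∧ ∃ k, ee B k p ≠ 0 := by
  unfold av at h
  split_ifs at h with hP
  · refine ⟨hP, ?_⟩
    obtain ⟨k, _, hk⟩ := Finset.exists_ne_zero_of_sum_ne_zero h
    exact ⟨k, fun h0 => hk (by rw [h0, mul_zero])⟩
  · exact absurd rfl h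

lemma av_eq {P : ℕ} {v : ℕ →₀ ℝ} {k p : ℕ} (hP : P < p) (hk : ee B k p ≠ 0) : av B P v p = v k * ee B k p := by
  unfold av
  rw [if_pos hP]
  exact comb_eq hB v id rfl v hk (fun h => Finsupp.notMem_support_iff.1 h)

lemma exists_P (N0 : ℕ) (v : ℕ →₀ ℝ) : ∃ P : ℕ, N0 ≤ P ∧ 2 ≤ P ∧ LBl N0 (av B P v) := by
  obtain ⟨P, hP⟩ := ee_small hB (∑ k ∈ v.support, |v k|)
  refine ⟨max (max P N0) 2, (le_max_right _ _).trans (le_max_left _ _), le_max_right _ _, ⟨?_, ?_, ?_⟩⟩
  · intro p hp
    obtain ⟨h1, k, hk⟩ := av_ne hp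
    exact ⟨ee_prime hB hk, lt_of_le_of_lt ((le_max_right _ _).trans (le_max_left _ _)) h1⟩
  · intro p hp
    obtain ⟨h1, k, hk⟩ := av_ne hp
    rw [av_eq hB h1 hk, abs_mul, abs_of_nonneg (ee_nonneg k p)]
    refine le_trans ?_ (hP k p (lt_of_le_of_lt ((le_max_left _ _).trans (le_max_left _ _)) h1))
    apply mul_le_mul_of_nonneg_right _ (ee_nonneg k p)
    by_cases h : k ∈ v.support
    · exact Finset.single_le_sum (f := fun k => |v k|) (fun i _ => abs_nonneg _) h
    · rw [Finsupp.notMem_support_iff.1 h, abs_zero]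
      exact Finset.sum_nonneg fun i _ => abs_nonneg _
  · intro p q hp hq hpq
    obtain ⟨_, k, hk⟩ := av_ne hp
    obtain ⟨_, l, hl⟩ := av_ne hq
    exact ee_sep hB hk hl hpq

end

/-- **Main theorem**: families of elements of the Selberg class with the same functional equation and with prescribed
correlations at the primes. -/
theorem main {R : ℕ → ℝ → ℝ} {C : ℕ → ℝ} (hR : Gro R C) : ∃ (N lam : ℝ) (y : (ℕ →₀ ℝ) → ℕ → ℝ), 0 < N ∧ 0 < lam ∧
    (∀ v, Elt (ff (y v)) N lam) ∧
    ∀ v w : ℕ →₀ ℝ, ∃ D : ℝ, ∀ x : ℝ, 1 ≤ x →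
      |∑ p ∈ (Ioc 0 ⌊x⌋₊).filter Nat.Prime, y v p * y w p / (p : ℝ) - ∑ k ∈ v.support, v k * w k * R k x| ≤ D := by
  classical
  obtain ⟨Q, hQ, hE0⟩ := exists_elt
  obtain ⟨J₀, hE⟩ := hE0 _ log_ell
  obtain ⟨J₁, hJ₁⟩ := base_small log_ell 1 one_pos
  obtain ⟨B, hB⟩ := exists_arr Pool.Agent.H469R10.HO.hoheisel hR
  set j₀ := max J₀ (max J₁ 3) with hj₀
  have hj1 : J₁ ≤ j₀ := (le_max_left _ _).trans (le_max_right _ _)
  have hj3 : 3 ≤ j₀ := (le_max_right _ _).trans (le_max_right _ _)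
  have hjN : j₀ ≤ j₀ ^ (2 * Q) := Nat.le_self_pow (by omega) j₀
  set N0 := j₀ ^ (2 * Q) with hN0
  have hex : ∀ v : ℕ →₀ ℝ, ∃ (P : ℕ) (y : ℕ → ℝ), N0 ≤ P ∧ 2 ≤ P ∧ LBl N0 (av B P v) ∧
      Elt (ff y) ((j₀ : ℝ) ^ (2 * Q)) (4 * (Q : ℝ)) ∧ (∀ p, av B P v p ≠ 0 → y p = av B P v p) ∧
      (∀ p : ℕ, p.Prime → av B P v p = 0 → |y p| ≤ 1 / (Real.log p) ^ 2) := by
    intro v
    obtain ⟨P, hP1, hP2, hP3⟩ := exists_P hB N0 v
    obtain ⟨y, hy1, hy2, hy3, _⟩ := hE j₀ (le_max_left _ _) (av B P v) hP3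
    exact ⟨P, y, hP1, hP2, hP3, hy1, hy2, hy3⟩
  choose P y hP1 hP2 hLB hy1 hy2 hy3 using hex
  have hj0 : (0 : ℝ) < j₀ := by
    have : 0 < j₀ := by omega
    exact_mod_cast this
  have hQ0 : (0 : ℝ) < Q := by
    have : 0 < Q := by omega
    exact_mod_cast this
  refine ⟨(j₀ : ℝ) ^ (2 * Q), 4 * (Q : ℝ), y, by positivity, by positivity, hy1, fun v w => ?_⟩
  obtain ⟨T, hT⟩ := g_sum
  -- the targets
  set t : ℕ → ℝ := fun p => ∑ k ∈ v.support, v k * w k * (ee B k p) ^ 2 with ht
  set PP := max (P v) (P w) with hPP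
  have hlog1 : ∀ p : ℕ, PP < p → 1 ≤ Real.log p := by
    intro p hp
    have h1 : 3 ≤ p := by
      have := hP2 v
      have : P v ≤ PP := le_max_left _ _
      omega
    have h2 : (3 : ℝ) ≤ p := by exact_mod_cast h1
    rw [Real.le_log_iff_exp_le (by linarith)]
    have := Real.exp_one_lt_d9
    linarith
  have hpt : ∀ p : ℕ, p.Prime → PP < p → |y v p * y w p / (p : ℝ) - t p / p| ≤
      (if av B (P v) v p ≠ 0 then (Real.log p) ^ 20 / p else 0) + (if av B (P w) w p ≠ 0 then (Real.log p) ^ 20 / p else 0) +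
        1 / ((p : ℝ) * (Real.log p) ^ 4) := by
    intro p hp hPp
    have hv : P v < p := lt_of_le_of_lt (le_max_left _ _) hPp
    have hw : P w < p := lt_of_le_of_lt (le_max_right _ _) hPp
    have hl := hlog1 p hPp
    have hp0 : (0 : ℝ) < p := by exact_mod_cast hp.pos
    have hg0 : 0 ≤ 1 / ((p : ℝ) * (Real.log p) ^ 4) := by positivity
    have h20 : 0 ≤ (Real.log p) ^ 20 / (p : ℝ) := by positivity
    have hcross : ∀ a b : ℝ, |a| ≤ (Real.log p) ^ 12 → |b| ≤ 1 / (Real.log p) ^ 2 →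
        |a * b / p| ≤ (Real.log p) ^ 20 / p := by
      intro a b ha hb
      rw [abs_div, abs_mul, abs_of_pos hp0]
      apply div_le_div_of_nonneg_right _ hp0.le
      calc |a| * |b| ≤ (Real.log p) ^ 12 * (1 / (Real.log p) ^ 2) :=
            mul_le_mul ha hb (abs_nonneg _) (by positivity)
        _ ≤ (Real.log p) ^ 12 * 1 := by
            apply mul_le_mul_of_nonneg_left _ (by positivity)
            rw [div_le_one (by positivity)]
            exact one_le_pow₀ hl
        _ ≤ (Real.log p) ^ 20 := by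
            rw [mul_one]
            exact pow_le_pow_right₀ hl (by norm_num)
    have htz : (∀ k, ee B k p ≠ 0 → v k * w k = 0) → t p = 0 := by
      intro h
      show ∑ k ∈ v.support, v k * w k * (ee B k p) ^ 2 = 0
      apply Finset.sum_eq_zero
      intro k _
      by_cases hk : ee B k p = 0
      · rw [hk]; ring
      · rw [h k hk, zero_mul]
    by_cases c1 : av B (P v) v p = 0
    · have htp : t p = 0 := by
        apply htz
        intro k hk
        have h1 := av_eq hB (v := v) hv hk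
        rw [c1] at h1
        have h2 : v k = 0 := by
          rcases mul_eq_zero.1 h1.symm with h | h
          · exact h
          · exact absurd h hk
        rw [h2, zero_mul]
      rw [htp, zero_div, sub_zero, if_neg (not_not.2 c1), zero_add]
      by_cases c2 : av B (P w) w p = 0
      · rw [if_neg (not_not.2 c2), zero_add, abs_div, abs_mul, abs_of_pos hp0]
        have h1 := hy3 v p hp c1
        have h2 := hy3 w p hp c2
        calc |y v p| * |y w p| / (p : ℝ) ≤ (1 / (Real.log p) ^ 2) * (1 / (Real.log p) ^ 2) / p := by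
              apply div_le_div_of_nonneg_right _ hp0.le
              exact mul_le_mul h1 h2 (abs_nonneg _) (by positivity)
          _ = 1 / ((p : ℝ) * (Real.log p) ^ 4) := by
              field_simp
      · rw [if_pos c2]
        have h1 := hy3 v p hp c1
        have h2 := (hLB w).size p c2
        have h3 := hcross (y w p) (y v p) (by rw [hy2 w p c2]; exact h2) h1
        rw [mul_comm (y w p)] at h3
        linarith
    · rw [if_pos c1]
      obtain ⟨_, k, hk⟩ := av_ne c1
      by_cases c2 : av B (P w) w p = 0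
      · have htp : t p = 0 := by
          apply htz
          intro l hl'
          have h1 := av_eq hB (v := w) hw hl'
          rw [c2] at h1
          have h2 : w l = 0 := by
            rcases mul_eq_zero.1 h1.symm with h | h
            · exact h
            · exact absurd h hl'
          rw [h2, mul_zero]
        rw [htp, zero_div, sub_zero, if_neg (not_not.2 c2), add_zero]
        have h1 := hy3 w p hp c2
        have h2 := (hLB v).size p c1
        have h3 := hcross (y v p) (y w p) (by rw [hy2 v p c1]; exact h2) h1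
        linarith
      · rw [if_pos c2, hy2 v p c1, hy2 w p c2, av_eq hB hv hk, av_eq hB hw hk]
        have h1 : t p = v k * w k * (ee B k p) ^ 2 := by
          show ∑ l ∈ v.support, v l * w l * (ee B l p) ^ 2 = _
          refine comb_eq hB v (fun z => z ^ 2) (by norm_num) (fun l => v l * w l) hk ?_
          intro h
          show v k * w k = 0
          rw [Finsupp.notMem_support_iff.1 h, zero_mul]
        rw [h1]
        have h2 : v k * ee B k p * (w k * ee B k p) / (p : ℝ) - v k * w k * (ee B k p) ^ 2 / p = 0 := by ring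
        rw [h2, abs_zero]
        linarith
  -- the finite part
  set K : ℝ := ∑ p ∈ (Ioc 0 PP).filter Nat.Prime, |y v p * y w p / (p : ℝ) - t p / p| with hK
  have hsum : ∀ n : ℕ, |∑ p ∈ (Ioc 0 n).filter Nat.Prime, y v p * y w p / (p : ℝ) -
      ∑ p ∈ (Ioc 0 n).filter Nat.Prime, t p / p| ≤ K + (1 + 1 + T) := by
    intro n
    rw [← Finset.sum_sub_distrib]
    refine (Finset.abs_sum_le_sum_abs _ _).trans ?_
    rw [← Finset.sum_filter_add_sum_filter_not ((Ioc 0 n).filter Nat.Prime) (fun p => p ≤ PP)]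
    apply add_le_add
    · apply Finset.sum_le_sum_of_subset_of_nonneg
      · intro p hp
        rw [mem_filter, mem_filter, mem_Ioc] at hp
        rw [mem_filter, mem_Ioc]
        exact ⟨⟨hp.1.1.1, hp.2⟩, hp.1.2⟩
      · intro p _ _
        exact abs_nonneg _
    · set S := ((Ioc 0 n).filter Nat.Prime).filter (fun p => ¬ p ≤ PP) with hS
      have hSm : ∀ p ∈ S, p.Prime ∧ PP < p := by
        intro p hp
        rw [hS, mem_filter, mem_filter] at hp
        exact ⟨hp.1.2, by omega⟩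
      refine (Finset.sum_le_sum fun p hp => hpt p (hSm p hp).1 (hSm p hp).2).trans ?_
      rw [Finset.sum_add_distrib, Finset.sum_add_distrib]
      have h1 : ∑ p ∈ S, (if av B (P v) v p ≠ 0 then (Real.log p) ^ 20 / (p : ℝ) else 0) ≤ 1 := by
        rw [← Finset.sum_filter]
        exact hJ₁ N0 (hj1.trans hjN) _ (hLB v) S
      have h2 : ∑ p ∈ S, (if av B (P w) w p ≠ 0 then (Real.log p) ^ 20 / (p : ℝ) else 0) ≤ 1 := by
        rw [← Finset.sum_filter]
        exact hJ₁ N0 (hj1.trans hjN) _ (hLB w) S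
      have h3 := hT S (fun p hp => by
        have := (hSm p hp).2
        have := hP2 v
        have : P v ≤ PP := le_max_left _ _
        omega)
      linarith
  -- the targets
  have hD := fun k => ee_sum hB hR k
  choose D hD using hD
  refine ⟨K + (1 + 1 + T) + ∑ k ∈ v.support, |v k * w k| * D k, fun x hx => ?_⟩
  have h1 := hsum ⌊x⌋₊
  have h2 : ∑ p ∈ (Ioc 0 ⌊x⌋₊).filter Nat.Prime, t p / (p : ℝ) =
      ∑ k ∈ v.support, v k * w k * ∑ p ∈ Ioc 0 ⌊x⌋₊, (ee B k p) ^ 2 / (p : ℝ) := by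
    have e1 : ∀ k, ∑ p ∈ Ioc 0 ⌊x⌋₊, (ee B k p) ^ 2 / (p : ℝ) =
        ∑ p ∈ (Ioc 0 ⌊x⌋₊).filter Nat.Prime, (ee B k p) ^ 2 / (p : ℝ) := by
      intro k
      symm
      apply Finset.sum_subset (filter_subset _ _)
      intro p hp hp'
      have h3 : ee B k p = 0 := by
        by_contra hne
        exact hp' (mem_filter.2 ⟨hp, ee_prime hB hne⟩)
      rw [h3]
      simp
    simp_rw [e1, Finset.mul_sum]
    rw [Finset.sum_comm]
    apply Finset.sum_congr rfl
    intro p _
    show (∑ k ∈ v.support, v k * w k * (ee B k p) ^ 2) / (p : ℝ) = _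
    rw [Finset.sum_div]
    apply Finset.sum_congr rfl
    intro k _
    ring
  have h3 : |∑ p ∈ (Ioc 0 ⌊x⌋₊).filter Nat.Prime, t p / (p : ℝ) - ∑ k ∈ v.support, v k * w k * R k x| ≤
      ∑ k ∈ v.support, |v k * w k| * D k := by
    rw [h2, ← Finset.sum_sub_distrib]
    refine (Finset.abs_sum_le_sum_abs _ _).trans (Finset.sum_le_sum fun k _ => ?_)
    rw [← mul_sub, abs_mul]
    exact mul_le_mul_of_nonneg_left (hD k x hx) (abs_nonneg _)
  have h4 := abs_le.1 h1
  have h5 := abs_le.1 h3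
  rw [abs_le]
  constructor <;> linarith [h4.1, h4.2, h5.1, h5.2]

end Pool.Agent.H483.IP
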