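import Pool.Agent.H483.IP.Grow2
import Pool.Agent.H483.IP.Main
import Pool.Agent.H483.UF.Fac

/-! # Growth of the sums over primes in the Selberg class -/

set_option autoImplicit false

open Finset Filter

namespace Pool.Agent.H483.IP

open Pool.Agent.H878.BCSel (ff)
open Pool.Agent.H336R4
open Pool.Agent.H483

/-- coefficients as an arithmetic function -/
noncomputable def toAF (a : ℕ → ℂ) : ArithmeticFunction ℂ := ⟨fun n => if n = 0 then 0 else a n, if_pos rfl⟩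

lemma toAF_apply (a : ℕ → ℂ) {n : ℕ} (hn : n ≠ 0) : toAF a n = a n := if_neg hn

lemma LS_toAF (a : ℕ → ℂ) (s : ℂ) : LSeries (fun n => toAF a n) s = LSeries a s :=
  LSeries_congr (fun hn => toAF_apply a hn) s

lemma Elt.cls {a : ℕ → ℂ} {N lam : ℝ} (h : Elt a N lam) (hN : 0 < N) (hlam : 0 < lam) :
    PF.Cls (fun n => toAF a n) (2 * lam) := by
  obtain ⟨h1, h2, ⟨G, g1, ⟨A, B, g2⟩, g3, g4⟩, h4, h5⟩ := h
  have e1 : (fun n => toAF a n) 1 = 1 := by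
    show toAF a 1 = 1
    rw [toAF_apply a one_ne_zero, h1]
  have e2 : PF.Ram (fun n => toAF a n) := by
    intro ε hε
    obtain ⟨C, hC⟩ := h4 ε hε
    refine ⟨C, fun n hn => ?_⟩
    show ‖toAF a n‖ ≤ _
    rw [toAF_apply a (by omega)]
    exact hC n hn
  have hI : Pool.Agent.H177R3.Lit.InS (fun n => toAF a n) := by
    refine ⟨e1, fun s hs => Pool.Agent.H177R3.PFV.ram_summable e2 hs, ?_, e2, ?_⟩
    · refine ⟨0, G, g1, ⟨A, B, g2⟩, fun s hs => ?_, N, 1, fun _ => lam, fun _ => 2, 1, hN, fun _ => hlam,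
        fun _ => by norm_num, by simp, fun s _ _ hs1 hs2 => ?_⟩
      · rw [g3 s hs, LS_toAF]; simp
      · have := g4 s (fun t => hs1 0 t) (fun t => hs2 0 t)
        unfold Pool.Agent.H177R3.Lit.Phi
        simpa using this
    · obtain ⟨b, θ, C, b1, b2, b3⟩ := h5
      exact ⟨b, θ, C, b1, b2, fun s hs => by rw [LS_toAF]; exact b3 s hs⟩
  have hS := (Pool.Agent.H177R3.Lit.inS_iff _).1 hI
  have heul : PF.Eul (fun n => toAF a n) := (Pool.Agent.H177R3.PFV.ss_cls hS).choose_spec.2.2.2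
  refine ⟨e1, e2, ⟨0, G, ⟨g1, ⟨B, A, g2⟩, fun s hs => ?_⟩, N, 1, fun _ => lam, fun _ => 2, 1, hN,
    ⟨fun _ => hlam, fun _ => by norm_num, by simp, fun s hs0 hs1 => ?_⟩, by simp⟩, heul⟩
  · rw [g3 s hs, LS_toAF]; simp
  · have hpos : ∀ z : ℂ, 0 < z.re → ∀ t : ℕ, (lam : ℂ) * z + 2 ≠ -(t : ℂ) := by
      intro z hz t h
      have h' := congrArg Complex.re h
      simp only [Complex.add_re, Complex.re_ofReal_mul, Complex.neg_re, Complex.natCast_re] at h'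
      have h3 : 0 < lam * z.re := by positivity
      have h4 : (0 : ℝ) ≤ t := Nat.cast_nonneg t
      have h5 : (2 : ℂ).re = 2 := rfl
      rw [h5] at h'
      linarith
    have := g4 s (hpos s hs0) (hpos _ (by
      rw [Complex.sub_re, Complex.one_re, Complex.conj_re]; linarith))
    simpa using this

lemma Elt.toS {a : ℕ → ℂ} {N lam : ℝ} (h : Elt a N lam) (hN : 0 < N) (hlam : 0 < lam) : UF.S (toAF a) :=
  Pool.Agent.H177R3.PFV.cls_ss (h.cls hN hlam)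

/-- the number of factors is at most the degree -/
theorem card_le (M : Multiset (ArithmeticFunction ℂ)) : (∀ p ∈ M, UF.P p) → ∀ d : ℝ, PF.Cls (fun n => M.prod n) d →
    (M.card : ℝ) ≤ d := by
  induction M using Multiset.induction_on with
  | empty =>
    intro _ d hd
    obtain ⟨-, -, ⟨m, G, hG, Q, k, lam, μ, ω, hQ, hFE, hdd⟩, -⟩ := hd
    rw [hdd, Multiset.card_zero, Nat.cast_zero]
    have : 0 ≤ ∑ j, lam j := Finset.sum_nonneg fun j _ => (hFE.1 j).le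
    linarith
  | cons p M ih =>
    intro hM d hd
    have hM' : ∀ q ∈ M, UF.P q := fun q hq => hM q (Multiset.mem_cons_of_mem hq)
    have hp := hM p (Multiset.mem_cons_self p M)
    have hS : UF.S M.prod := UF.S.prod fun q hq => (hM' q hq).1
    obtain ⟨d₁, hd₁⟩ := Pool.Agent.H177R3.PFV.ss_cls hp.1
    obtain ⟨d₂, hd₂⟩ := Pool.Agent.H177R3.PFV.ss_cls hS
    have hadd := PF.degAdd _ _ _ d d₁ d₂ hd hd₁ hd₂ (fun s hs => by
      rw [← UF.LS_mul hp.1 hS hs, Multiset.prod_cons])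
    have h1 := UF.degree_ge hp.1 hp.2.1 hd₁
    have h2 := ih hM' d₂ hd₂
    rw [Multiset.card_cons, hadd]
    push_cast
    linarith

/-- the value at a prime of a product -/
lemma prod_prime {p : ℕ} (hp : p.Prime) (M : Multiset (ArithmeticFunction ℂ)) : (∀ a ∈ M, UF.S a) →
    M.prod p = (M.map fun a => a p).sum := by
  induction M using Multiset.induction_on with
  | empty =>
    intro _
    rw [Multiset.prod_zero, Multiset.map_zero, Multiset.sum_zero, ArithmeticFunction.one_apply_ne hp.one_lt.ne']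
  | cons a M ih =>
    intro hM
    have hM' : ∀ q ∈ M, UF.S q := fun q hq => hM q (Multiset.mem_cons_of_mem hq)
    have ha := hM a (Multiset.mem_cons_self a M)
    have hS : UF.S M.prod := UF.S.prod hM'
    rw [Multiset.prod_cons, Multiset.map_cons, Multiset.sum_cons, ← ih hM', ArithmeticFunction.mul_apply,
      Nat.sum_divisorsAntidiagonal (fun x y => a x * M.prod y), hp.sum_divisors]
    simp only [Nat.div_self hp.pos, Nat.div_one, ha.one', hS.one', one_mul, mul_one]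

/-- Cauchy's inequality -/
lemma cauchy (M : Multiset ℂ) : ‖M.sum‖ ^ 2 ≤ M.card * (M.map fun z => ‖z‖ ^ 2).sum := by
  induction M using Multiset.induction_on with
  | empty => simp
  | cons z M ih =>
    rw [Multiset.sum_cons, Multiset.card_cons, Multiset.map_cons, Multiset.sum_cons]
    set T := (M.map fun z => ‖z‖ ^ 2).sum with hT
    have hT0 : 0 ≤ T := Multiset.sum_nonneg fun x hx => by
      obtain ⟨w, _, rfl⟩ := Multiset.mem_map.1 hx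
      positivity
    have h1 : ‖z + M.sum‖ ≤ ‖z‖ + ‖M.sum‖ := norm_add_le _ _
    have hz := norm_nonneg z
    have hm := norm_nonneg M.sum
    rcases Nat.eq_zero_or_pos M.card with h0 | h0
    · rw [Multiset.card_eq_zero.1 h0] at hT ⊢
      simp only [Multiset.sum_zero, add_zero, Multiset.card_zero, zero_add, Nat.cast_one, one_mul, Multiset.map_zero] at hT ⊢
      rw [hT]
      simp
    · have hn : (1 : ℝ) ≤ M.card := by exact_mod_cast h0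
      have h2 : (‖z‖ + ‖M.sum‖) ^ 2 ≤ ((M.card : ℝ) + 1) * (‖z‖ ^ 2 + T) := by
        have h3 : 2 * (‖z‖ * ‖M.sum‖) ≤ M.card * ‖z‖ ^ 2 + T := by
          have h4 : 0 ≤ (M.card * ‖z‖ - ‖M.sum‖) ^ 2 := sq_nonneg _
          have h5 : M.card * (2 * (‖z‖ * ‖M.sum‖)) ≤ M.card * (M.card * ‖z‖ ^ 2 + T) := by nlinarith
          exact le_of_mul_le_mul_left h5 (by linarith)
        nlinarith
      calc ‖z + M.sum‖ ^ 2 ≤ (‖z‖ + ‖M.sum‖) ^ 2 := pow_le_pow_left₀ (norm_nonneg _) h1 2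
        _ ≤ _ := h2
        _ = ((M.card + 1 : ℕ) : ℝ) * (‖z‖ ^ 2 + T) := by push_cast; ring

/-- `∑_{p ≤ x} |a(p)|² / p` -/
noncomputable def SF (a : ArithmeticFunction ℂ) (x : ℝ) : ℝ :=
  ∑ p ∈ (Finset.Iic ⌊x⌋₊).filter Nat.Prime, ‖a p‖ ^ 2 / (p : ℝ)

lemma SF_nonneg (a : ArithmeticFunction ℂ) (x : ℝ) : 0 ≤ SF a x := Finset.sum_nonneg fun _ _ => by positivity

lemma SF_prod (M : Multiset (ArithmeticFunction ℂ)) (hM : ∀ a ∈ M, UF.S a) (x : ℝ) :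
    SF M.prod x ≤ M.card * (M.map fun a => SF a x).sum := by
  have h1 : (M.map fun a => SF a x).sum =
      ∑ p ∈ (Finset.Iic ⌊x⌋₊).filter Nat.Prime, (M.map fun a => ‖a p‖ ^ 2).sum / (p : ℝ) := by
    unfold SF
    clear hM
    induction M using Multiset.induction_on with
    | empty => simp
    | cons a M ih =>
      rw [Multiset.map_cons, Multiset.sum_cons, ih, ← Finset.sum_add_distrib]
      refine Finset.sum_congr rfl fun p _ => ?_
      rw [Multiset.map_cons, Multiset.sum_cons]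
      ring
  rw [h1, Finset.mul_sum]
  unfold SF
  refine Finset.sum_le_sum fun p hp => ?_
  have hp' := (Finset.mem_filter.1 hp).2
  have hp0 : (0 : ℝ) < p := by exact_mod_cast hp'.pos
  rw [prod_prime hp' M hM, ← mul_div_assoc]
  apply div_le_div_of_nonneg_right _ hp0.le
  have := cauchy (M.map fun a => a p)
  rw [Multiset.card_map, Multiset.map_map] at this
  exact this

/-- **Sufficiency** -/
theorem grow_elt : ∃ Q : ℕ, 2 ≤ Q ∧ ∀ R : ℝ → ℝ, (∀ x y : ℝ, 1 ≤ x → x ≤ y → R x ≤ R y) → Slow R →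
    ∃ (N : ℝ) (y : ℕ → ℝ), 0 < N ∧ Elt (ff y) N (4 * (Q : ℝ)) ∧ ∃ D : ℝ, ∀ x : ℝ, 1 ≤ x →
      |SF (toAF (ff y)) x - R x| ≤ D := by
  classical
  obtain ⟨Q, hQ, hE0⟩ := exists_elt
  refine ⟨Q, hQ, fun R hR hs => ?_⟩
  obtain ⟨Ψ, hΨ, hbase⟩ := exists_base Pool.Agent.H469R10.HO.hoheisel hR hs
  have hl := lp_ell hΨ
  obtain ⟨J₀, hE⟩ := hE0 _ hl
  set j₀ := max J₀ 2 with hj₀
  obtain ⟨a0, hLB, D, hD⟩ := hbase (j₀ ^ (2 * Q))
  obtain ⟨y, hy1, hy2, hy3, hy4⟩ := hE j₀ (le_max_left _ _) a0 hLB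
  have hj0 : (0 : ℝ) < j₀ := by
    have : 0 < j₀ := lt_of_lt_of_le (by norm_num) (le_max_right J₀ 2)
    exact_mod_cast this
  refine ⟨(j₀ : ℝ) ^ (2 * Q), y, by positivity, hy1, ?_⟩
  obtain ⟨T, hT⟩ := g_sum
  refine ⟨D + T, fun x hx => ?_⟩
  have hDx := hD x hx
  -- comparison of the two sums
  have e1 : SF (toAF (ff y)) x = ∑ p ∈ (Ioc 0 ⌊x⌋₊).filter Nat.Prime, (y p) ^ 2 / (p : ℝ) := by
    unfold SF
    apply Finset.sum_congr
    · ext p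
      rw [mem_filter, mem_filter, mem_Iic, mem_Ioc]
      exact ⟨fun h => ⟨⟨h.2.pos, h.1⟩, h.2⟩, fun h => ⟨h.1.2, h.2⟩⟩
    · intro p hp
      have hp' := (mem_filter.1 hp).2
      rw [toAF_apply _ hp'.ne_zero]
      show ‖((Pool.Agent.H96R3.BC.cf y p : ℝ) : ℂ)‖ ^ 2 / (p : ℝ) = _
      rw [Pool.Agent.H96R3.BC.cf_prime y hp', Complex.norm_real, Real.norm_eq_abs, sq_abs]
  have e2 : ∑ p ∈ Ioc 0 ⌊x⌋₊, (a0 p) ^ 2 / (p : ℝ) = ∑ p ∈ (Ioc 0 ⌊x⌋₊).filter Nat.Prime, (a0 p) ^ 2 / (p : ℝ) := by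
    symm
    apply Finset.sum_subset (filter_subset _ _)
    intro p hp hp'
    have h3 : a0 p = 0 := by
      by_contra hne
      exact hp' (mem_filter.2 ⟨hp, (hLB.mem p hne).1⟩)
    rw [h3]
    simp
  have e3 : ∑ p ∈ (Ioc 0 ⌊x⌋₊).filter Nat.Prime, (y p) ^ 2 / (p : ℝ) =
      ∑ p ∈ (Ioc 0 ⌊x⌋₊).filter Nat.Prime, (a0 p) ^ 2 / (p : ℝ) +
      ∑ p ∈ (Ioc 0 ⌊x⌋₊).filter Nat.Prime, ((y p) ^ 2 / (p : ℝ) - (a0 p) ^ 2 / (p : ℝ)) := by
    rw [← Finset.sum_add_distrib]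
    exact Finset.sum_congr rfl fun p _ => by ring
  have e4 : 0 ≤ ∑ p ∈ (Ioc 0 ⌊x⌋₊).filter Nat.Prime, ((y p) ^ 2 / (p : ℝ) - (a0 p) ^ 2 / (p : ℝ)) := by
    apply Finset.sum_nonneg
    intro p _
    by_cases h : a0 p = 0
    · rw [h]
      have : 0 ≤ (y p) ^ 2 / (p : ℝ) := by positivity
      simpa using this
    · rw [hy2 p h, sub_self]
  have e5 : ∑ p ∈ (Ioc 0 ⌊x⌋₊).filter Nat.Prime, ((y p) ^ 2 / (p : ℝ) - (a0 p) ^ 2 / (p : ℝ)) ≤ T := by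
    refine le_trans ?_ (hT (((Ioc 0 ⌊x⌋₊).filter Nat.Prime).filter (fun p => 2 < p)) fun p hp => (mem_filter.1 hp).2)
    rw [Finset.sum_filter (s := (Ioc 0 ⌊x⌋₊).filter Nat.Prime) (fun p => 2 < p)]
    apply Finset.sum_le_sum
    intro p hp
    have hp' := (mem_filter.1 hp).2
    have hp0 : (0 : ℝ) < p := by exact_mod_cast hp'.pos
    by_cases h2 : 2 < p
    · rw [if_pos h2]
      by_cases h : a0 p = 0
      · have h5 := hy3 p hp' h
        have hlog : 0 < Real.log p := Real.log_pos (by exact_mod_cast hp'.one_lt)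
        have h6 : (y p) ^ 2 ≤ (1 / (Real.log p) ^ 2) ^ 2 := by
          rw [← sq_abs]
          exact pow_le_pow_left₀ (abs_nonneg _) h5 2
        rw [h]
        have h7 : (0 : ℝ) ^ 2 / (p : ℝ) = 0 := by simp
        rw [h7, sub_zero]
        calc (y p) ^ 2 / (p : ℝ) ≤ (1 / (Real.log p) ^ 2) ^ 2 / p := div_le_div_of_nonneg_right h6 hp0.le
          _ = 1 / ((p : ℝ) * (Real.log p) ^ 4) := by field_simp
      · rw [hy2 p h, sub_self]
        have : 0 ≤ (Real.log (p : ℝ)) ^ 4 := Even.pow_nonneg (by decide) _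
        positivity
    · rw [if_neg h2]
      have h3 : p ≤ j₀ ^ (2 * Q) := by
        have h4 : 2 ≤ j₀ := le_max_right _ _
        have h5 : j₀ ≤ j₀ ^ (2 * Q) := Nat.le_self_pow (by omega) j₀
        omega
      have h4 : a0 p = 0 := by
        by_contra hne
        have := (hLB.mem p hne).2
        omega
      rw [hy4 p h3, h4, sub_self]
  rw [e1, e3, ← e2, abs_le]
  rw [abs_le] at hDx
  constructor <;> linarith [hDx.1, hDx.2]

/-- **Necessity** -/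
theorem slow_of {a : ArithmeticFunction ℂ} (ha : PF.Ram (fun n => a n)) {R : ℝ → ℝ} {D : ℝ}
    (h : ∀ x : ℝ, 1 ≤ x → |SF a x - R x| ≤ D) : Slow R := by
  obtain ⟨C₁, hC₁⟩ := ha (1 / 2) (by norm_num)
  refine ⟨2 * D + C₁ ^ 2, fun ε hε => ?_⟩
  obtain ⟨C₂, hC₂⟩ := ha (ε / 2) (by positivity)
  refine ⟨C₂ ^ 2 * 2 ^ ε * 2, fun x y hx hy hyx => ?_⟩
  have hx0 : 0 < x := by linarith
  have h1 := abs_le.1 (h x hx)
  have h2 := abs_le.1 (h (x + y) (by linarith))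
  -- the increment
  have hle : ⌊x⌋₊ ≤ ⌊x + y⌋₊ := Nat.floor_mono (by linarith)
  have h3 : SF a (x + y) = SF a x + ∑ p ∈ (Ioc ⌊x⌋₊ ⌊x + y⌋₊).filter Nat.Prime, ‖a p‖ ^ 2 / (p : ℝ) := by
    unfold SF
    rw [← Finset.sum_union]
    · apply Finset.sum_congr _ fun _ _ => rfl
      ext p
      simp only [mem_filter, mem_Iic, mem_union, mem_Ioc]
      constructor
      · rintro ⟨h4, h5⟩
        by_cases h6 : p ≤ ⌊x⌋₊
        · exact Or.inl ⟨h6, h5⟩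
        · exact Or.inr ⟨⟨by omega, h4⟩, h5⟩
      · rintro (⟨h4, h5⟩ | ⟨⟨_, h4⟩, h5⟩)
        · exact ⟨by omega, h5⟩
        · exact ⟨h4, h5⟩
    · rw [Finset.disjoint_left]
      intro p hp hp'
      simp only [mem_filter, mem_Iic, mem_Ioc] at hp hp'
      omega
  have hterm : ∀ p ∈ (Ioc ⌊x⌋₊ ⌊x + y⌋₊).filter Nat.Prime, ‖a p‖ ^ 2 / (p : ℝ) ≤ C₁ ^ 2 ∧
      ‖a p‖ ^ 2 / (p : ℝ) ≤ C₂ ^ 2 * 2 ^ ε * (x ^ ε / x) := by
    intro p hp
    rw [mem_filter, mem_Ioc] at hp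
    have hp1 : 1 ≤ p := hp.2.one_lt.le
    have hp0 : (0 : ℝ) < p := by exact_mod_cast hp.2.pos
    have hxp : x ≤ p := by
      have h4 : (⌊x⌋₊ : ℝ) + 1 ≤ p := by exact_mod_cast hp.1.1
      linarith [(Nat.lt_floor_add_one x).le]
    have hp2 : (p : ℝ) ≤ 2 * x := by
      have h4 : (p : ℝ) ≤ x + y := (Nat.cast_le.2 hp.1.2).trans (Nat.floor_le (by linarith))
      linarith
    constructor
    · rw [div_le_iff₀ hp0]
      have h4 := hC₁ p hp1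
      calc ‖a p‖ ^ 2 ≤ (C₁ * (p : ℝ) ^ (1 / 2 : ℝ)) ^ 2 := pow_le_pow_left₀ (norm_nonneg _) h4 2
        _ = C₁ ^ 2 * p := by
          rw [mul_pow, ← Real.rpow_natCast ((p : ℝ) ^ (1 / 2 : ℝ)), ← Real.rpow_mul hp0.le]
          norm_num
    · have h4 := hC₂ p hp1
      have h5 : ‖a p‖ ^ 2 ≤ C₂ ^ 2 * (p : ℝ) ^ ε := by
        calc ‖a p‖ ^ 2 ≤ (C₂ * (p : ℝ) ^ (ε / 2)) ^ 2 := pow_le_pow_left₀ (norm_nonneg _) h4 2
          _ = C₂ ^ 2 * (p : ℝ) ^ ε := by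
            rw [mul_pow, ← Real.rpow_natCast ((p : ℝ) ^ (ε / 2)), ← Real.rpow_mul hp0.le]
            congr 2
            push_cast
            ring
      have h6 : (p : ℝ) ^ ε ≤ 2 ^ ε * x ^ ε := by
        rw [← Real.mul_rpow (by norm_num) hx0.le]
        exact Real.rpow_le_rpow hp0.le hp2 hε.le
      calc ‖a p‖ ^ 2 / (p : ℝ) ≤ (C₂ ^ 2 * (2 ^ ε * x ^ ε)) / x := by
            apply div_le_div₀ (by positivity) _ hx0 hxp
            exact h5.trans (mul_le_mul_of_nonneg_left h6 (by positivity))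
        _ = C₂ ^ 2 * 2 ^ ε * (x ^ ε / x) := by ring
  have hcard : (((Ioc ⌊x⌋₊ ⌊x + y⌋₊).filter Nat.Prime).card : ℝ) ≤ y + 1 := by
    have h4 : ((Ioc ⌊x⌋₊ ⌊x + y⌋₊).filter Nat.Prime).card ≤ ⌊x + y⌋₊ - ⌊x⌋₊ := by
      refine (card_filter_le _ _).trans ?_
      rw [Nat.card_Ioc]
    have h5 : ((⌊x + y⌋₊ - ⌊x⌋₊ : ℕ) : ℝ) = ⌊x + y⌋₊ - ⌊x⌋₊ := Nat.cast_sub hle
    have h6 : (⌊x + y⌋₊ : ℝ) ≤ x + y := Nat.floor_le (by linarith)
    have h7 := Nat.lt_floor_add_one x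
    have h8 : (((Ioc ⌊x⌋₊ ⌊x + y⌋₊).filter Nat.Prime).card : ℝ) ≤ ((⌊x + y⌋₊ - ⌊x⌋₊ : ℕ) : ℝ) := by
      exact_mod_cast h4
    linarith
  have hK : 0 ≤ C₂ ^ 2 * 2 ^ ε := by positivity
  have hKx : 0 ≤ C₂ ^ 2 * 2 ^ ε * (x ^ ε / x) := by positivity
  have hinc : ∑ p ∈ (Ioc ⌊x⌋₊ ⌊x + y⌋₊).filter Nat.Prime, ‖a p‖ ^ 2 / (p : ℝ) ≤
      C₁ ^ 2 + C₂ ^ 2 * 2 ^ ε * 2 * x ^ ε * (y / x) := by
    by_cases hy1 : y < 1
    · have hc : (((Ioc ⌊x⌋₊ ⌊x + y⌋₊).filter Nat.Prime).card : ℝ) ≤ 1 := by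
        have h4 : (((Ioc ⌊x⌋₊ ⌊x + y⌋₊).filter Nat.Prime).card : ℝ) < 2 := by linarith
        have h5 : ((Ioc ⌊x⌋₊ ⌊x + y⌋₊).filter Nat.Prime).card < 2 := by exact_mod_cast h4
        have h6 : ((Ioc ⌊x⌋₊ ⌊x + y⌋₊).filter Nat.Prime).card ≤ 1 := by omega
        exact_mod_cast h6
      have h4 : ∑ p ∈ (Ioc ⌊x⌋₊ ⌊x + y⌋₊).filter Nat.Prime, ‖a p‖ ^ 2 / (p : ℝ) ≤
          (((Ioc ⌊x⌋₊ ⌊x + y⌋₊).filter Nat.Prime).card : ℝ) * C₁ ^ 2 := by
        rw [← nsmul_eq_mul]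
        exact Finset.sum_le_card_nsmul _ _ _ fun p hp => (hterm p hp).1
      have h5 : 0 ≤ C₂ ^ 2 * 2 ^ ε * 2 * x ^ ε * (y / x) := by positivity
      have h6 : (((Ioc ⌊x⌋₊ ⌊x + y⌋₊).filter Nat.Prime).card : ℝ) * C₁ ^ 2 ≤ 1 * C₁ ^ 2 :=
        mul_le_mul_of_nonneg_right hc (sq_nonneg _)
      linarith
    · push Not at hy1
      have h4 : ∑ p ∈ (Ioc ⌊x⌋₊ ⌊x + y⌋₊).filter Nat.Prime, ‖a p‖ ^ 2 / (p : ℝ) ≤
          (((Ioc ⌊x⌋₊ ⌊x + y⌋₊).filter Nat.Prime).card : ℝ) * (C₂ ^ 2 * 2 ^ ε * (x ^ ε / x)) := by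
        rw [← nsmul_eq_mul]
        exact Finset.sum_le_card_nsmul _ _ _ fun p hp => (hterm p hp).2
      have h5 : (((Ioc ⌊x⌋₊ ⌊x + y⌋₊).filter Nat.Prime).card : ℝ) * (C₂ ^ 2 * 2 ^ ε * (x ^ ε / x)) ≤
          (2 * y) * (C₂ ^ 2 * 2 ^ ε * (x ^ ε / x)) := mul_le_mul_of_nonneg_right (by linarith) hKx
      have h6 : (2 * y) * (C₂ ^ 2 * 2 ^ ε * (x ^ ε / x)) = C₂ ^ 2 * 2 ^ ε * 2 * x ^ ε * (y / x) := by ring
      have h7 := sq_nonneg C₁
      linarith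
  linarith [h1.1, h1.2, h2.1, h2.2]

end Pool.Agent.H483.IP
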