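import Pool.Agent.H483.IP.Defs
import Pool.Graph.R_seed8.Y627.BC.G1

/-! First moments over a base (separated primes). -/

set_option autoImplicit false

open Finset

namespace Pool.Agent.H483.IP

open Pool.Agent.H96R3.BC (gg)
open Pool.Agent.Y627.BC.G1 (sum_sqfree_le sum_log_le)

/-- the integers attached to the base point `q` -/
noncomputable def Iq (l : ℕ → ℝ) (q : ℕ) : Finset ℕ := Ioc (q - ⌊(l q) ^ 22⌋₊) q

/-- sums over base points with `h q ≤ (log q)^20`, compared with the series of `1 / (n (log n)^2)` -/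
lemma LB.sum_le {l : ℕ → ℝ} (hl : Ell l) {N0 : ℕ} {a0 : ℕ → ℝ} (h : LB l N0 a0) (M : ℕ) (hM : 2 ≤ M) (S : Finset ℕ)
    (hS : ∀ q ∈ S, a0 q ≠ 0 ∧ 1 ≤ Real.log q ∧ (M : ℝ) + (l q) ^ 22 ≤ q) :
    ∑ q ∈ S, (l q) ^ 20 / q ≤ 2 / Real.log M := by
  classical
  have hfl : ∀ q ∈ S, (l q) ^ 22 / 2 ≤ (⌊(l q) ^ 22⌋₊ : ℝ) := by
    intro q hq
    have h1 : 1 ≤ (l q) ^ 22 := one_le_pow₀ ((hS q hq).2.1.trans (hl.lo q))
    have h2 := Nat.lt_floor_add_one ((l q) ^ 22)
    have h3 : (1 : ℝ) ≤ (⌊(l q) ^ 22⌋₊ : ℝ) := by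
      exact_mod_cast (Nat.le_floor (by exact_mod_cast h1) : 1 ≤ ⌊(l q) ^ 22⌋₊)
    linarith
  have hfl' : ∀ q ∈ S, (⌊(l q) ^ 22⌋₊ : ℝ) ≤ (l q) ^ 22 := by
    intro q hq
    exact Nat.floor_le (Even.pow_nonneg (by decide) _)
  have hlt : ∀ q ∈ S, M + ⌊(l q) ^ 22⌋₊ ≤ q := by
    intro q hq
    have h1 := (hS q hq).2.2
    have h2 := hfl' q hq
    have : ((M + ⌊(l q) ^ 22⌋₊ : ℕ) : ℝ) ≤ q := by push_cast; linarith
    exact_mod_cast this
  have hcard : ∀ q ∈ S, (Iq l q).card = ⌊(l q) ^ 22⌋₊ := by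
    intro q hq
    unfold Iq
    rw [Nat.card_Ioc]
    have := hlt q hq
    omega
  have h1 : ∀ q ∈ S, (l q) ^ 20 / q ≤ ∑ n ∈ Iq l q, 2 / ((n : ℝ) * (Real.log n) ^ 2) := by
    intro q hq
    have hlog := (hS q hq).2.1
    have hq0 : (0:ℝ) < q := by
      rcases Nat.eq_zero_or_pos q with h0 | h0
      · rw [h0] at hlog; simp at hlog; norm_num at hlog
      · exact_mod_cast h0
    have h2 : ∀ n ∈ Iq l q, 2 / ((q : ℝ) * (Real.log q) ^ 2) ≤ 2 / ((n : ℝ) * (Real.log n) ^ 2) := by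
      intro n hn
      unfold Iq at hn
      rw [mem_Ioc] at hn
      have hn2 : M < n := by
        have := hlt q hq
        omega
      have hn0 : (2:ℝ) < n := by
        have : 2 < n := by omega
        exact_mod_cast this
      have hnq : (n : ℝ) ≤ q := by exact_mod_cast hn.2
      have hln : 0 < Real.log n := Real.log_pos (by linarith)
      have hl2 : Real.log n ≤ Real.log q := Real.log_le_log (by linarith) hnq
      gcongr
    have h3 := Finset.card_nsmul_le_sum (Iq l q) _ _ h2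
    rw [hcard q hq, nsmul_eq_mul] at h3
    refine le_trans ?_ h3
    have h4 := hfl q hq
    have hlq : 0 < Real.log q := by linarith
    have hlq' : Real.log q ≤ l q := hl.lo q
    have h5 : (l q) ^ 20 / q ≤ (l q) ^ 22 / 2 * (2 / ((q : ℝ) * (Real.log q) ^ 2)) := by
      have h6 : (l q) ^ 22 / 2 * (2 / ((q : ℝ) * (Real.log q) ^ 2)) = (l q) ^ 20 / q * ((l q) ^ 2 / (Real.log q) ^ 2) := by
        field_simp
      rw [h6]
      apply le_mul_of_one_le_right (by positivity)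
      rw [one_le_div (by positivity)]
      exact pow_le_pow_left₀ hlq.le hlq' 2
    exact h5.trans (mul_le_mul_of_nonneg_right h4 (by positivity))
  have hdis : ∀ q ∈ S, ∀ q' ∈ S, q ≠ q' → Disjoint (Iq l q) (Iq l q') := by
    have aux : ∀ q ∈ S, ∀ q' ∈ S, q < q' → Disjoint (Iq l q) (Iq l q') := by
      intro q hq q' hq' hqq
      rw [Finset.disjoint_left]
      intro n hn hn'
      unfold Iq at hn hn'
      rw [mem_Ioc] at hn hn'
      have h2 := h.sep q q' (hS q hq).1 (hS q' hq').1 hqq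
      have h3 := hfl' q' hq'
      have h4 : ((q + ⌊(l q') ^ 22⌋₊ : ℕ) : ℝ) ≤ q' := by push_cast; linarith
      have h5 : q + ⌊(l q') ^ 22⌋₊ ≤ q' := by exact_mod_cast h4
      omega
    intro q hq q' hq' hne
    rcases lt_or_gt_of_ne hne with h2 | h2
    · exact aux q hq q' hq' h2
    · exact (aux q' hq' q hq h2).symm
  calc ∑ q ∈ S, (l q) ^ 20 / q ≤ ∑ q ∈ S, ∑ n ∈ Iq l q, 2 / ((n : ℝ) * (Real.log n) ^ 2) :=
        Finset.sum_le_sum h1
    _ = ∑ n ∈ S.biUnion (Iq l), 2 / ((n : ℝ) * (Real.log n) ^ 2) := by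
        rw [Finset.sum_biUnion]
        intro q hq q' hq' hne
        exact hdis q hq q' hq' hne
    _ ≤ ∑ n ∈ (S.biUnion (Iq l)).filter (fun n => M < n), 2 / ((n : ℝ) * (Real.log n) ^ 2) := by
        apply le_of_eq
        rw [Finset.filter_true_of_mem]
        intro n hn
        rw [Finset.mem_biUnion] at hn
        obtain ⟨q, hq, hn⟩ := hn
        unfold Iq at hn
        rw [mem_Ioc] at hn
        have := hlt q hq
        omega
    _ ≤ 2 / Real.log M := sum_log_le M hM _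

/-- `(l x)^22 ≤ x / 2` for large `x` -/
lemma log22 {l : ℕ → ℝ} (hl : Ell l) : ∃ x₀ : ℕ, ∀ q : ℕ, x₀ ≤ q → 1 ≤ Real.log q ∧ (l q) ^ 22 ≤ q / 2 := by
  obtain ⟨N, hN⟩ := hl.hi (1 / 44) (by norm_num)
  obtain ⟨N₁, hN₁⟩ := exists_nat_ge (Real.exp 1)
  refine ⟨max (max N N₁) 4, fun q hq => ?_⟩
  have h1 : N ≤ q := ((le_max_left _ _).trans (le_max_left _ _)).trans hq
  have h2 : N₁ ≤ q := ((le_max_right _ _).trans (le_max_left _ _)).trans hq
  have h3 : (4 : ℝ) ≤ q := by exact_mod_cast (le_max_right _ _).trans hq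
  have h4 : Real.exp 1 ≤ q := hN₁.trans (by exact_mod_cast h2)
  have h5 : 1 ≤ Real.log q := by
    rw [Real.le_log_iff_exp_le (by linarith)]
    exact h4
  refine ⟨h5, ?_⟩
  have h6 : (l q) ^ 22 ≤ ((q : ℝ) ^ (1 / 44 : ℝ)) ^ 22 :=
    pow_le_pow_left₀ (by linarith [hl.lo q]) (hN q h1) 22
  have h7 : ((q : ℝ) ^ (1 / 44 : ℝ)) ^ 22 = Real.sqrt q := by
    rw [← Real.rpow_natCast, ← Real.rpow_mul (by linarith), Real.sqrt_eq_rpow]
    norm_num
  rw [h7] at h6
  refine h6.trans ?_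
  rw [Real.sqrt_le_left (by linarith)]
  nlinarith

/-- base points above `N`: the sum of `(log q)^20 / q` is small -/
lemma base_small {l : ℕ → ℝ} (hl : Ell l) (s : ℝ) (hs : 0 < s) : ∃ J₀ : ℕ, ∀ N0 : ℕ, J₀ ≤ N0 → ∀ a0 : ℕ → ℝ, LB l N0 a0 →
    ∀ S : Finset ℕ, ∑ q ∈ S.filter (fun q => a0 q ≠ 0), (l q) ^ 20 / q ≤ s := by
  obtain ⟨x₀, hx₀⟩ := log22 hl
  obtain ⟨J₁, hJ₁⟩ := exists_nat_gt (Real.exp (2 / s))
  refine ⟨2 * (max J₁ x₀) + 8, fun N0 hN0 a0 h S => ?_⟩
  have hM : 2 ≤ N0 / 2 := by omega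
  refine (h.sum_le hl (N0 / 2) hM _ ?_).trans ?_
  · intro q hq
    rw [mem_filter] at hq
    have h1 := h.mem q hq.2
    have h2 : x₀ ≤ q := by
      have : x₀ ≤ max J₁ x₀ := le_max_right _ _
      omega
    obtain ⟨h3, h4⟩ := hx₀ q h2
    refine ⟨hq.2, h3, ?_⟩
    have h5 : ((N0 / 2 : ℕ) : ℝ) ≤ (N0 : ℝ) / 2 := Nat.cast_div_le
    have h6 : (N0 : ℝ) ≤ q := by exact_mod_cast h1.2.le
    linarith
  · have h1 : Real.exp (2 / s) < ((N0 / 2 : ℕ) : ℝ) := by
      refine hJ₁.trans_le ?_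
      have : J₁ ≤ N0 / 2 := by
        have : J₁ ≤ max J₁ x₀ := le_max_left _ _
        omega
      exact_mod_cast this
    have h2 : 2 / s < Real.log ((N0 / 2 : ℕ) : ℝ) := by
      rw [Real.lt_log_iff_exp_lt (lt_trans (Real.exp_pos _) h1)]
      exact h1
    have h3 : 0 < Real.log ((N0 / 2 : ℕ) : ℝ) := lt_trans (by positivity) h2
    rw [div_le_iff₀ h3]
    rw [div_lt_iff₀ hs] at h2
    linarith

theorem g1 : G1 := by
  intro Q hQ l hl s hs
  set σ := Real.log (1 + s) with hσ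
  have hσpos : 0 < σ := Real.log_pos (by linarith)
  obtain ⟨J₁, hJ₁⟩ := base_small hl (σ / 2) (by positivity)
  obtain ⟨J₂, hJ₂⟩ := exists_nat_gt (Real.exp (max 1 (4 / σ)))
  refine ⟨max J₁ (max J₂ 3), fun j₀ hj₀ a0 hB T => ?_⟩
  set N0 := j₀ ^ (2 * Q) with hN0
  have hj1 : 3 ≤ j₀ := ((le_max_right _ _).trans (le_max_right _ _)).trans hj₀
  have hjN : j₀ ≤ N0 := by
    rw [hN0]
    exact Nat.le_self_pow (by omega) j₀
  have hNr : Real.exp (max 1 (4 / σ)) < N0 := by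
    refine hJ₂.trans_le ?_
    exact_mod_cast (((le_max_left _ _).trans (le_max_right _ _)).trans hj₀).trans hjN
  have hlogN : max 1 (4 / σ) ≤ Real.log N0 := by
    rw [← Real.log_exp (max 1 (4 / σ))]
    exact Real.log_le_log (Real.exp_pos _) hNr.le
  have hlog1 : 1 ≤ Real.log N0 := (le_max_left _ _).trans hlogN
  have hlogσ : 4 / σ ≤ Real.log N0 := (le_max_right _ _).trans hlogN
  have hN2 : 2 ≤ N0 := by omega
  set S := (Iic (T.sup id)).filter Nat.Prime with hS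
  have hsum : ∑ p ∈ S, gg Q j₀ (ab a0) p / p ≤ σ := by
    rw [← Finset.sum_filter_add_sum_filter_not S (fun p => a0 p ≠ 0)]
    have e1 : ∑ p ∈ S.filter (fun p => a0 p ≠ 0), gg Q j₀ (ab a0) p / p ≤ σ / 2 := by
      refine le_trans (Finset.sum_le_sum fun p hp => ?_)
        (hJ₁ N0 (((le_max_left _ _).trans hj₀).trans hjN) a0 hB S)
      have hp2 := (Finset.mem_filter.1 hp).2
      have h1 : 1 ≤ Real.log p := by
        refine hlog1.trans ?_
        apply Real.log_le_log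
        · have : 0 < N0 := by omega
          exact_mod_cast this
        · exact_mod_cast (hB.mem p hp2).2.le
      rw [gg, if_pos (ab_ne.2 hp2)]
      apply div_le_div_of_nonneg_right _ (Nat.cast_nonneg p)
      exact (hB.size p hp2).trans (pow_le_pow_right₀ (h1.trans (hl.lo p)) (by norm_num))
    have e2 : ∑ p ∈ S.filter (fun p => ¬ a0 p ≠ 0), gg Q j₀ (ab a0) p / p ≤ 2 / Real.log N0 := by
      have e3 : ∑ p ∈ S.filter (fun p => ¬ a0 p ≠ 0), gg Q j₀ (ab a0) p / p ≤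
          ∑ p ∈ S.filter (fun n => N0 < n), 2 / ((p : ℝ) * (Real.log p) ^ 2) := by
        have e4 : ∑ p ∈ S.filter (fun p => ¬ a0 p ≠ 0), gg Q j₀ (ab a0) p / p =
            ∑ p ∈ (S.filter (fun p => ¬ a0 p ≠ 0)).filter (fun n => N0 < n),
              2 / ((p : ℝ) * (Real.log p) ^ 2) := by
          rw [Finset.sum_filter (s := S.filter (fun p => ¬ a0 p ≠ 0))]
          refine Finset.sum_congr rfl fun p hp => ?_
          have := (Finset.mem_filter.1 hp).2
          rw [gg, if_neg (fun h => this (ab_ne.1 h))]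
          by_cases h : j₀ ^ (2 * Q) < p
          · rw [if_pos h, if_pos h]
            rw [div_div, mul_comm]
          · rw [if_neg h, if_neg h, zero_div]
        rw [e4]
        refine Finset.sum_le_sum_of_subset_of_nonneg ?_ fun p _ _ => by positivity
        intro p hp
        simp only [Finset.mem_filter] at hp ⊢
        exact ⟨hp.1.1, hp.2⟩
      exact e3.trans (sum_log_le N0 hN2 S)
    have e6 : 2 / Real.log N0 ≤ σ / 2 := by
      rw [div_le_iff₀ (by linarith)]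
      rw [div_le_iff₀ hσpos] at hlogσ
      linarith
    linarith
  have h := sum_sqfree_le T (gg Q j₀ (ab a0)) (fun p => gg_nonneg a0 Q j₀ p) σ hsum
  refine h.trans ?_
  rw [hσ, Real.exp_log (by linarith)]
  linarith

end Pool.Agent.H483.IP
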