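import Pool.Agent.H483.IP.Defs
import Pool.Graph.R_seed8.Y627.BC.Lag

/-! Interpolation weights on the free primes of the cells (adapted from the library module `Y627.BC.Lag`). -/

set_option autoImplicit false

open Finset Filter

namespace Pool.Agent.H483.IP.Lag

open Pool.Agent.H96R3.BC hiding Base AA DD TaskLag TaskBase TaskG1 MassBd TaskNS TaskSm TaskFix TaskGrow TaskSec
open Pool.Agent.H469R10.HO (Hoheisel)
open Pool.Agent.Y627.BC.Lag (sepL UU_eq vv_mono UU_vv vv_sep cells cell_unique UU_lt)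
open Pool.Agent.H483.IP

/-- the weights -/
def TaskLag : Prop := TaskLagA → Hoheisel → ∃ Q₀ : ℕ, ∀ Q : ℕ, Q₀ ≤ Q → ∃ C : ℝ, 0 < C ∧
  ∃ J₀ : ℕ, ∀ j₀ : ℕ, J₀ ≤ j₀ → ∀ a0 : ℕ → ℝ, Sp (j₀ ^ (2 * Q)) a0 →
    ∃ w : ℕ → ℝ → ℝ, Wts Q j₀ C a0 w

/-- growth: `K log X ≤ (log X)^22` for large `X` -/
lemma DD_large (K : ℝ) : ∃ X₁ : ℕ, ∀ X : ℕ, X₁ ≤ X → 1 ≤ Real.log X ∧ K * Real.log X ≤ (Real.log X) ^ 22 := by
  have ht : Tendsto (fun X : ℕ => Real.log (X : ℝ)) atTop atTop :=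
    Real.tendsto_log_atTop.comp tendsto_natCast_atTop_atTop
  obtain ⟨X₁, hX₁⟩ := (Filter.eventually_atTop.1 (ht.eventually_ge_atTop (max 1 K)))
  refine ⟨X₁, fun X hX => ?_⟩
  have h := hX₁ X hX
  have h1 : 1 ≤ Real.log X := (le_max_left _ _).trans h
  have h2 : K ≤ Real.log X := (le_max_right _ _).trans h
  refine ⟨h1, ?_⟩
  have h3 : Real.log X ≤ (Real.log X) ^ 21 := by
    calc Real.log X = (Real.log X) ^ 1 := (pow_one _).symm
      _ ≤ (Real.log X) ^ 21 := pow_le_pow_right₀ h1 (by norm_num)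
  calc K * Real.log X ≤ (Real.log X) ^ 21 * Real.log X :=
        mul_le_mul_of_nonneg_right (h2.trans h3) (by linarith)
    _ = (Real.log X) ^ 22 := by ring

lemma base_count {a0 : ℕ → ℝ} {N0 : ℕ} (B : Sp N0 a0)
    {Q j a Y : ℕ} {K1 : ℝ} (hK1 : 0 < K1) (hQ : 1 ≤ Q) (hj : 2 ≤ j)
    (hDD : ∀ x : ℕ, j ≤ x → 1 ≤ Real.log x ∧ K1 * Real.log x ≤ (Real.log x) ^ 22) (ha : j ^ (2 * Q) ≤ a) :
    (((Ioc a (a + Y)).filter (fun p => a0 p ≠ 0)).card : ℝ) ≤ Y / (K1 * Real.log j) + 1 := by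
  have hj' : (2:ℝ) ≤ j := by exact_mod_cast hj
  have hlog : 0 < Real.log j := Real.log_pos (by linarith)
  have h1 := B.count hlog ((Ioc a (a + Y)).filter (fun p => a0 p ≠ 0)) a ((a : ℝ) + Y) (by
    have : (0:ℝ) ≤ Y := Nat.cast_nonneg _
    linarith) (by
    intro p hp
    rw [mem_filter, mem_Ioc] at hp
    have h2 : (a : ℝ) < p := by exact_mod_cast hp.1.1
    refine ⟨hp.2, h2, by exact_mod_cast hp.1.2, ?_⟩
    apply Real.log_le_log (by linarith)
    have h3 : j ≤ j ^ (2 * Q) := Nat.le_self_pow (by omega) j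
    have h4 : j ≤ p := by omega
    exact_mod_cast h4)
  refine h1.trans ?_
  have h5 := (hDD j le_rfl).2
  have h6 : ((a : ℝ) + Y - a) = Y := by ring
  rw [h6]
  have h7 : (Y : ℝ) / (Real.log j) ^ 22 ≤ Y / (K1 * Real.log j) := by
    apply div_le_div_of_nonneg_left (by positivity) (by positivity) h5
  linarith

/-- the groups of primes in a cell -/
lemma groups {δ η : ℝ} (hδ : 0 < δ) (hδ1 : δ < 1) (hη : 0 < η) {X₀ : ℕ} 
    (hH : ∀ X Y : ℕ, X₀ ≤ X → (X : ℝ) ^ (1 - δ) ≤ Y → Y ≤ X →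
      η * Y / Real.log X ≤ (((Ioc X (X + Y)).filter Nat.Prime).card : ℝ))
    {Q : ℕ} (hQ : 1 ≤ Q) (hQδ : 1 ≤ Q * δ)
    {N0 : ℕ} {a0 : ℕ → ℝ} (B : Sp N0 a0)
    {j : ℕ} (hj : 2 ≤ j) (hjX : X₀ ≤ j) 
    (h2 : (j + 1) ^ (2 * Q) ≤ 2 * j ^ (2 * Q)) (h3 : 8 * (4 * Q + 4) ≤ j)
    (h4 : 1 ≤ η * (j / (4 * (4 * Q + 4))) / (16 * Q * Real.log j))
    (hDD : ∀ x : ℕ, j ≤ x → 1 ≤ Real.log x ∧ (16 * Q / η) * Real.log x ≤ (Real.log x) ^ 22) :
    ∃ (Y : ℕ) (G : Fin (4 * Q + 4) → Finset ℕ), 1 ≤ Y ∧ (CC Q j).card ≤ 4 * (4 * Q + 4) * Y ∧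
      (∀ i, G i ⊆ CC Q j) ∧ (∀ i, ∀ p ∈ G i, p.Prime ∧ a0 p = 0) ∧
      (∀ i l, i < l → ∀ p ∈ G i, ∀ q ∈ G l, p + Y ≤ q) ∧
      (∀ i, η * Y / (8 * Q * Real.log j) ≤ (G i).card) := by
  have hj' : (2:ℝ) ≤ j := by exact_mod_cast hj
  have hj0 : (0:ℝ) < j := by linarith
  have hlog : 0 < Real.log j := Real.log_pos (by linarith)
  have hQ' : (0:ℝ) < Q := by exact_mod_cast hQ
  obtain ⟨N, hN⟩ : ∃ N, N = (j + 1) ^ (2 * Q) - j ^ (2 * Q) := ⟨_, rfl⟩
  have hle : j ^ (2 * Q) ≤ (j + 1) ^ (2 * Q) := Nat.pow_le_pow_left (by omega) _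
  have hNcard : (CC Q j).card = N := by unfold CC; rw [Nat.card_Ioc, hN]
  have hNj : j ^ (2 * Q - 1) ≤ N := by
    have e1 : 2 * Q = (2 * Q - 1) + 1 := by omega
    have e2 : (j + 1) ^ (2 * Q) = (j + 1) ^ (2 * Q - 1) * (j + 1) := by
      conv_lhs => rw [e1]
      rw [pow_succ]
    have e3 : j ^ (2 * Q) = j ^ (2 * Q - 1) * j := by
      conv_lhs => rw [e1]
      rw [pow_succ]
    have e4 : j ^ (2 * Q - 1) * (j + 1) ≤ (j + 1) ^ (2 * Q - 1) * (j + 1) :=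
      Nat.mul_le_mul_right _ (Nat.pow_le_pow_left (by omega) _)
    have e5 : j ^ (2 * Q - 1) * (j + 1) = j ^ (2 * Q - 1) * j + j ^ (2 * Q - 1) := by ring
    omega
  have hjN : j ≤ N := by
    refine le_trans ?_ hNj
    calc j = j ^ 1 := (pow_one j).symm
      _ ≤ j ^ (2 * Q - 1) := Nat.pow_le_pow_right (by omega) (by omega)
  obtain ⟨m, hm⟩ : ∃ m, m = 4 * Q + 4 := ⟨_, rfl⟩
  rw [← hm] at h3
  obtain ⟨Y, hY⟩ : ∃ Y, Y = N / (2 * m) := ⟨_, rfl⟩
  have hm0 : 0 < m := by omega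
  have hY1 : 2 * m * Y ≤ N := by rw [hY]; exact Nat.mul_div_le N (2 * m)
  have hY2 : N < 2 * m * (Y + 1) := by rw [hY]; exact Nat.lt_mul_div_succ N (by omega)
  have hYpos : 1 ≤ Y := by
    rw [hY, Nat.one_le_div_iff (by omega)]; omega
  have hY3 : N ≤ 4 * m * Y := by nlinarith
  have hm' : (m : ℝ) = 4 * Q + 4 := by rw [hm]; push_cast; ring
  have hmpos : (0:ℝ) < m := by exact_mod_cast hm0
  have hY3' : (N : ℝ) ≤ 4 * m * Y := by exact_mod_cast hY3
  have hY4 : (j : ℝ) ^ (2 * Q - 1) / (4 * m) ≤ Y := by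
    rw [div_le_iff₀ (by positivity)]
    have : ((j : ℝ) ^ (2 * Q - 1)) ≤ N := by exact_mod_cast hNj
    linarith
  have hY5 : (j : ℝ) / (4 * m) ≤ Y := by
    rw [div_le_iff₀ (by positivity)]
    have : (j : ℝ) ≤ N := by exact_mod_cast hjN
    linarith
  have hYpos' : (0:ℝ) < Y := by exact_mod_cast hYpos
  refine ⟨Y, fun i => (Ioc (j ^ (2 * Q) + 2 * i * Y) (j ^ (2 * Q) + 2 * i * Y + Y)).filter
    (fun p => p.Prime ∧ a0 p = 0), hYpos, ?_, ?_, ?_, ?_, ?_⟩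
  · rw [hNcard, ← hm]; exact hY3
  · intro i p hp
    rw [mem_filter, mem_Ioc] at hp
    unfold CC
    rw [mem_Ioc]
    have hi : (i : ℕ) + 1 ≤ m := by rw [hm]; exact i.2
    have : 2 * (i : ℕ) * Y + Y ≤ N := by nlinarith
    constructor
    · omega
    · omega
  · intro i p hp
    rw [mem_filter] at hp
    exact hp.2
  · intro i l hil p hp q hq
    rw [mem_filter, mem_Ioc] at hp hq
    have h5 : (i : ℕ) + 1 ≤ l := hil
    have : 2 * (i : ℕ) * Y + 2 * Y ≤ 2 * (l : ℕ) * Y := by nlinarith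
    omega
  · intro i
    have hi : (i : ℕ) + 1 ≤ m := by rw [hm]; exact i.2
    have hiN : 2 * (i : ℕ) * Y + Y ≤ N := by nlinarith
    obtain ⟨a, ha⟩ : ∃ a, a = j ^ (2 * Q) + 2 * (i : ℕ) * Y := ⟨_, rfl⟩
    simp only [← ha]
    have ha1 : j ^ (2 * Q) ≤ a := by omega
    have ha2 : a + Y ≤ (j + 1) ^ (2 * Q) := by omega
    have hjpow : j ≤ j ^ (2 * Q) := Nat.le_self_pow (by omega) j
    have haj : j ≤ a := hjpow.trans ha1
    have hlog_a : Real.log a ≤ 4 * Q * Real.log j := by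
      have h5 : a ≤ j ^ (4 * Q) := by
        calc a ≤ 2 * j ^ (2 * Q) := by omega
          _ ≤ j * j ^ (2 * Q) := Nat.mul_le_mul_right _ hj
          _ = j ^ (2 * Q + 1) := by rw [pow_succ]; ring
          _ ≤ j ^ (4 * Q) := Nat.pow_le_pow_right (by omega) (by omega)
      have h6 : Real.log a ≤ Real.log ((j : ℝ) ^ (4 * Q)) := by
        apply Real.log_le_log
        · have : 0 < a := by omega
          exact_mod_cast this
        · exact_mod_cast h5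
      rw [Real.log_pow] at h6
      push_cast at h6
      linarith
    have hlog_a0 : 0 < Real.log a := by
      apply Real.log_pos
      have : 1 < a := by omega
      exact_mod_cast this
    have hprimes := hH a Y (hjX.trans haj) (by
      have h5 : (a : ℝ) ≤ 2 * (j : ℝ) ^ (2 * Q) := by
        have : a ≤ 2 * j ^ (2 * Q) := by omega
        exact_mod_cast this
      have h6 : (a : ℝ) ^ (1 - δ) ≤ (2 * (j : ℝ) ^ (2 * Q)) ^ (1 - δ) :=
        Real.rpow_le_rpow (by positivity) h5 (by linarith)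
      rw [Real.mul_rpow (by norm_num) (by positivity)] at h6
      have h7 : (2:ℝ) ^ (1 - δ) ≤ 2 := by
        calc (2:ℝ) ^ (1 - δ) ≤ (2:ℝ) ^ (1:ℝ) := Real.rpow_le_rpow_of_exponent_le (by norm_num) (by linarith)
          _ = 2 := Real.rpow_one 2
      have h8 : ((j : ℝ) ^ (2 * Q)) ^ (1 - δ) ≤ (j : ℝ) ^ (2 * Q - 2) := by
        rw [← Real.rpow_natCast, ← Real.rpow_mul hj0.le, ← Real.rpow_natCast]
        apply Real.rpow_le_rpow_of_exponent_le (by linarith)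
        rw [Nat.cast_sub (by omega)]
        push_cast
        nlinarith
      have h9 : (j : ℝ) ^ (2 * Q - 1) = (j : ℝ) ^ (2 * Q - 2) * j := by
        have : 2 * Q - 1 = (2 * Q - 2) + 1 := by omega
        rw [this, pow_succ]
      have h10 : (8 * m : ℝ) ≤ j := by exact_mod_cast h3
      calc (a : ℝ) ^ (1 - δ) ≤ (2:ℝ) ^ (1 - δ) * ((j : ℝ) ^ (2 * Q)) ^ (1 - δ) := h6
        _ ≤ 2 * (j : ℝ) ^ (2 * Q - 2) := mul_le_mul h7 h8 (by positivity) (by norm_num)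
        _ ≤ (j : ℝ) ^ (2 * Q - 1) / (4 * m) := by
            rw [h9, le_div_iff₀ (by positivity)]
            have : 0 < (j : ℝ) ^ (2 * Q - 2) := by positivity
            nlinarith
        _ ≤ Y := hY4) (by omega)
    have hbase := base_count B (Q := Q) (a := a) (Y := Y) (K1 := 16 * Q / η) (by positivity) hQ hj hDD ha1
    have hsplit : (((Ioc a (a + Y)).filter Nat.Prime).card : ℝ) ≤
        (((Ioc a (a + Y)).filter (fun p => p.Prime ∧ a0 p = 0)).card : ℝ) +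
        (((Ioc a (a + Y)).filter (fun p => a0 p ≠ 0)).card : ℝ) := by
      have : ((Ioc a (a + Y)).filter Nat.Prime) ⊆ ((Ioc a (a + Y)).filter (fun p => p.Prime ∧ a0 p = 0)) ∪
          ((Ioc a (a + Y)).filter (fun p => a0 p ≠ 0)) := by
        intro p hp
        rw [mem_filter] at hp
        rw [mem_union, mem_filter, mem_filter]
        by_cases h : a0 p = 0
        · exact Or.inl ⟨hp.1, hp.2, h⟩
        · exact Or.inr ⟨hp.1, h⟩
      exact_mod_cast (card_le_card this).trans (card_union_le _ _)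
    have h5 : η * Y / (4 * Q * Real.log j) ≤ η * Y / Real.log a := by
      apply div_le_div_of_nonneg_left (by positivity) hlog_a0 hlog_a
    have h6 : (Y : ℝ) / (16 * Q / η * Real.log j) = η * Y / (16 * Q * Real.log j) := by
      field_simp
    have h7 : 1 ≤ η * Y / (16 * Q * Real.log j) := by
      refine h4.trans ?_
      rw [hm'] at hY5
      gcongr
    have h8 : η * Y / (4 * Q * Real.log j) = η * Y / (8 * Q * Real.log j) + 2 * (η * Y / (16 * Q * Real.log j)) := by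
      field_simp
      ring
    rw [h6] at hbase
    linarith


/-- TASK LAG. -/
theorem taskLag : TaskLag := by
  intro hLA hHo
  obtain ⟨δ, η, hδ, hδ1, hη, X₀, hX₀, hH⟩ := hHo
  obtain ⟨Q₀, hQ₀⟩ := exists_nat_ge (1 / δ)
  refine ⟨Q₀ + 1, fun Q hQQ => ?_⟩
  have hQ : 1 ≤ Q := by omega
  have hQ' : (0:ℝ) < Q := by exact_mod_cast hQ
  have hQδ : 1 ≤ Q * δ := by
    have h1 : (Q₀ : ℝ) ≤ Q := by exact_mod_cast (by omega : Q₀ ≤ Q)
    have h2 : 1 / δ ≤ Q := hQ₀.trans h1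
    rwa [div_le_iff₀ hδ] at h2
  obtain ⟨m, hm⟩ : ∃ m, m = 4 * Q + 4 := ⟨_, rfl⟩
  have hmpos : (0:ℝ) < m := by
    have : 0 < m := by omega
    exact_mod_cast this
  obtain ⟨K, hK⟩ : ∃ K : ℝ, K = 8 * m := ⟨_, rfl⟩
  have hK1 : 1 ≤ K := by
    have : 1 ≤ m := by omega
    have : (1:ℝ) ≤ m := by exact_mod_cast this
    rw [hK]; linarith
  have hKm : 0 < K ^ (m - 1) := by positivity
  obtain ⟨C, hC⟩ : ∃ C : ℝ, C = m * K ^ (m - 1) + K ^ (m - 1) * (32 * m * Q / η) := ⟨_, rfl⟩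
  have hC0 : 0 < C := by rw [hC]; positivity
  have hC1 : m * K ^ (m - 1) ≤ C := by
    have : 0 < K ^ (m - 1) * (32 * m * Q / η) := by positivity
    linarith
  have hC2 : K ^ (m - 1) * (32 * m * Q / η) ≤ C := by
    have : 0 < m * K ^ (m - 1) := by positivity
    linarith
  refine ⟨C, hC0, ?_⟩
  obtain ⟨J₁, hJ₁2, hJ₁⟩ := cells η hη X₀ Q hQ
  obtain ⟨J₂, hJ₂⟩ := DD_large (16 * Q / η)
  refine ⟨J₁ + J₂ + 4, fun j₀ hj₀ a0 B => ?_⟩
  have hj₀1 : 1 ≤ j₀ := by omega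
  have hW : ∀ j : ℕ, j₀ ≤ j → ∃ W : ℕ → ℝ → ℝ, (∀ p, Continuous (W p)) ∧
      (∀ p u, W p u ≠ 0 → p.Prime ∧ a0 p = 0) ∧
      (∀ p u, UU j₀ j ≤ u → u ≤ UU j₀ (j + 1) → |W p u| ≤ C * Real.log j / (CC Q j).card) ∧
      (∀ u, UU j₀ j ≤ u → u ≤ UU j₀ (j + 1) → ∑ p ∈ CC Q j, |W p u| ≤ C) ∧
      (∀ u, ∀ P : Polynomial ℝ, P.natDegree < 4 * Q + 4 →
        ∑ p ∈ CC Q j, W p u * P.eval (vv Q j₀ p) = P.eval u) := by
    intro j hj
    obtain ⟨h1, h2, h3, h4⟩ := hJ₁ j (by omega)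
    have hj2 : 2 ≤ j := by omega
    have hj' : (2:ℝ) ≤ j := by exact_mod_cast hj2
    have hlog : 0 < Real.log j := Real.log_pos (by linarith)
    obtain ⟨Y, G, hY1, hYN, hGsub, hGp, hGsep, hGcard⟩ := groups hδ hδ1 hη hH hQ hQδ B hj2 h1 h2 h3 h4
      (fun x hx => hJ₂ x (by omega))
    have hY0 : (0:ℝ) < Y := by exact_mod_cast hY1
    have hGpos : ∀ i, 0 < ((G i).card : ℝ) := fun i => lt_of_lt_of_le (by positivity) (hGcard i)
    have hNpos : 0 < ((CC Q j).card : ℝ) := by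
      have h5 : (0:ℝ) < (G ⟨0, by omega⟩).card := hGpos _
      have h6 : ((G ⟨0, by omega⟩).card : ℝ) ≤ ((CC Q j).card : ℝ) := by
        exact_mod_cast card_le_card (hGsub _)
      linarith
    have hYN' : ((CC Q j).card : ℝ) ≤ 4 * m * Y := by rw [hm]; exact_mod_cast hYN
    have hcells : ∀ p, p ∈ CC Q j → j ^ (2 * Q) < p ∧ p ≤ (j + 1) ^ (2 * Q) := by
      intro p hp; unfold CC at hp; rwa [mem_Ioc] at hp
    have hcardN : ((CC Q j).card : ℝ) = ((((j + 1) ^ (2 * Q) : ℕ) : ℝ) - ((j ^ (2 * Q) : ℕ) : ℝ)) := by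
      unfold CC
      rw [Nat.card_Ioc, Nat.cast_sub (Nat.pow_le_pow_left (by omega) _)]
    have hsep1 : ∀ i l, i < l → ∀ p ∈ G i, ∀ q ∈ G l,
        (UU j₀ (j + 1) - UU j₀ j) / K ≤ vv Q j₀ q - vv Q j₀ p := by
      intro i l hil p hp q hq
      have h5 := hGsep i l hil p hp q hq
      have h6 := hcells p (hGsub i hp)
      have h7 := hcells q (hGsub l hq)
      have h8 := vv_sep (Q := Q) (j₀ := j₀) (j := j) (p := p) (q := q) hQ hj₀1 (by omega) h6.1.le (by omega) h7.2 h2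
      rw [← hcardN] at h8
      have h9 : (Y : ℝ) ≤ (q : ℝ) - p := by
        have : ((p + Y : ℕ) : ℝ) ≤ q := by exact_mod_cast h5
        push_cast at this; linarith
      have h10 : 0 < UU j₀ (j + 1) - UU j₀ j := by have := UU_lt (j := j) hj₀1; linarith
      have h11 : 0 ≤ vv Q j₀ q - vv Q j₀ p := by
        have := vv_mono (Q := Q) (j₀ := j₀) (p := p) (q := q) (by omega); linarith
      rw [div_le_iff₀ (by linarith), hK]
      have h12 : (Y : ℝ) * (UU j₀ (j + 1) - UU j₀ j) ≤ (Y : ℝ) * ((vv Q j₀ q - vv Q j₀ p) * (8 * m)) := by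
        calc (Y : ℝ) * (UU j₀ (j + 1) - UU j₀ j) ≤ ((q : ℝ) - p) * (UU j₀ (j + 1) - UU j₀ j) :=
              mul_le_mul_of_nonneg_right h9 h10.le
          _ ≤ 2 * (CC Q j).card * (vv Q j₀ q - vv Q j₀ p) := h8
          _ ≤ 2 * (4 * m * Y) * (vv Q j₀ q - vv Q j₀ p) := by gcongr
          _ = (Y : ℝ) * ((vv Q j₀ q - vv Q j₀ p) * (8 * m)) := by ring
      exact le_of_mul_le_mul_left h12 hY0
    obtain ⟨W, hW1, hW2, hW3, hW4⟩ := hLA (4 * Q + 4) (UU j₀ j) (UU j₀ (j + 1)) K (by omega) (UU_lt hj₀1) hK1 G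
      (vv Q j₀) (fun i => by
        rw [← Finset.card_pos]; exact_mod_cast hGpos i)
      (fun i p hp => by
        have h6 := hcells p (hGsub i hp)
        rw [UU_vv j hQ, UU_vv (j + 1) hQ]
        exact ⟨vv_mono h6.1.le, vv_mono h6.2⟩)
      (fun i l hil p hp q hq => by
        rcases lt_or_gt_of_ne hil with h | h
        · have h5 := hsep1 i l h p hp q hq
          rw [abs_sub_comm]
          exact h5.trans (le_abs_self _)
        · have h5 := hsep1 l i h q hq p hp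
          exact h5.trans (le_abs_self _))
    have hmK : K ^ (4 * Q + 4 - 1) = K ^ (m - 1) := by rw [hm]
    have hmc : ((4 * Q + 4 : ℕ) : ℝ) = (m : ℝ) := by rw [hm]
    simp only [hmK] at hW3 hW4
    refine ⟨W, hW1, ?_, ?_, ?_, ?_⟩
    · intro p u hne
      by_contra hcon
      apply hne
      apply hW2 p _ u
      intro i hpi
      exact hcon (hGp i p hpi)
    · intro p u hu1 hu2
      by_cases hex : ∃ i, p ∈ G i
      · obtain ⟨i, hi⟩ := hex
        refine (hW3 i p hi u hu1 hu2).trans ?_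
        rw [div_le_div_iff₀ (hGpos i) hNpos]
        have h5 := hGcard i
        have h6 : K ^ (m - 1) * ((CC Q j).card : ℝ) ≤ K ^ (m - 1) * (4 * m * Y) :=
          mul_le_mul_of_nonneg_left hYN' hKm.le
        have h7 : K ^ (m - 1) * (4 * m * Y) = K ^ (m - 1) * (32 * m * Q / η) * Real.log j *
            (η * Y / (8 * Q * Real.log j)) := by
          field_simp
          ring
        rw [h7] at h6
        refine h6.trans ?_
        apply mul_le_mul _ h5 (by positivity) (by positivity)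
        exact mul_le_mul_of_nonneg_right hC2 hlog.le
      · push Not at hex
        rw [hW2 p hex u, abs_zero]
        positivity
    · intro u hu1 hu2
      have h5 := (hW4 (CC Q j) hGsub).1 u hu1 hu2
      rw [hmc] at h5
      exact h5.trans hC1
    · intro u P hP
      exact (hW4 (CC Q j) hGsub).2 P hP u
  choose! W hW1 hW2 hW3 hW4 hW5 using hW
  classical
  let w : ℕ → ℝ → ℝ := fun p => if h : ∃ j, j₀ ≤ j ∧ p ∈ CC Q j then W h.choose p else fun _ => 0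
  have hw : ∀ j, j₀ ≤ j → ∀ p ∈ CC Q j, w p = W j p := by
    intro j hj p hp
    have h : ∃ j, j₀ ≤ j ∧ p ∈ CC Q j := ⟨j, hj, hp⟩
    have e : h.choose = j := cell_unique h.choose_spec.2 hp
    simp only [w, dif_pos h, e]
  refine ⟨w, ?_, ?_, ?_, ?_, ?_⟩
  · intro p
    by_cases h : ∃ j, j₀ ≤ j ∧ p ∈ CC Q j
    · obtain ⟨j, hj, hp⟩ := h
      rw [hw j hj p hp]; exact hW1 j hj p
    · simp only [w, dif_neg h]; exact continuous_const
  · intro p u hne
    by_cases h : ∃ j, j₀ ≤ j ∧ p ∈ CC Q j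
    · obtain ⟨j, hj, hp⟩ := h
      rw [hw j hj p hp] at hne
      have h1 := hW2 j hj p u hne
      refine ⟨h1.1, h1.2, ?_⟩
      unfold CC at hp
      rw [mem_Ioc] at hp
      exact lt_of_le_of_lt (Nat.pow_le_pow_left hj _) hp.1
    · simp only [w, dif_neg h] at hne
      exact absurd rfl hne
  · intro j hj p hp u hu1 hu2
    rw [hw j hj p hp]; exact hW3 j hj p u hu1 hu2
  · intro j hj u hu1 hu2
    rw [sum_congr rfl (fun p hp => by rw [hw j hj p hp])]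
    exact hW4 j hj u hu1 hu2
  · intro j hj u hu1 hu2 P hP
    rw [sum_congr rfl (fun p hp => by rw [hw j hj p hp])]
    exact hW5 j hj u P hP

end Pool.Agent.H483.IP.Lag
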