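import Pool.Agent.H483.IP.G1
import Pool.Graph.R_seed8.Y627.BC.NS
import Pool.Graph.R_seed8.Y627.BC.SM

set_option autoImplicit false

/-!
# The integers of a cell with a large prime factor (adapted from the library module `Y627.BC.NS`)
-/

set_option exponentiation.threshold 1000

open Finset

namespace Pool.Agent.H483.IP.NS

open Pool.Agent.H96R3.BC hiding Base AA DD TaskLag TaskBase TaskG1 MassBd TaskNS TaskSm TaskFix TaskGrow TaskSec
open Pool.Agent.Y627.BC.NS (prime_count succ_pow_le cell_lower)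
open Pool.Agent.Y627.BC.SM (two_pow)
open Pool.Agent.H483.IP

/-- the primes of the integers of the cell with a given cofactor `m` -/
theorem fiber_bound {C : ℝ} (hC : 1 ≤ C)
    (hBT : ∀ (a q N : ℕ), 2 ≤ N → (q = 1 ∨ q.Prime) →
      (((Finset.range N).filter (fun k => (a + k * q).Prime)).card : ℝ) ≤ C * N / Real.log N)
    {ll : ℕ → ℝ} (hll : Ell ll) {N0 : ℕ} {a0 : ℕ → ℝ} (hB : LB ll N0 a0)
    (Q j₀ j A B m : ℕ) (hA : A = j ^ (2 * Q)) (hBe : B = (j + 1) ^ (2 * Q)) (hQ : 256 ≤ Q)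
    (hj : 4 * (Q : ℝ) ≤ Real.log j) (hj22 : ∀ q : ℕ, q ≤ B → (ll q) ^ 22 ≤ (j : ℝ)) (hm : 0 < m)
    (S : Finset ℕ) (hS : ∀ q ∈ S, q.Prime ∧ A < m * q ∧ m * q ≤ B ∧ A ≤ q ^ 128 ∧ (m = 1 → a0 q ≠ 0)) :
    ∑ q ∈ S, gg Q j₀ (ab a0) q ≤ ((B : ℝ) - A) / m *
      ((if 1 < m then 2 * C / (Real.log j) ^ 3 else 0) + 3 * (4 * (Q : ℝ)) ^ 12 / (Real.log j) ^ 4) := by
  classical
  have hQR : (256 : ℝ) ≤ Q := by exact_mod_cast hQ
  have hl0 : (1024 : ℝ) ≤ Real.log j := by linarith
  obtain ⟨l, hl⟩ : ∃ l : ℝ, l = Real.log j := ⟨_, rfl⟩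
  rw [← hl] at hj hl0 ⊢
  have hlpos : 0 < l := by linarith
  have hjpos : 0 < j := by
    rcases Nat.eq_zero_or_pos j with h | h
    · rw [hl, h] at hlpos; simp at hlpos
    · exact h
  have hjR : (0 : ℝ) < j := by exact_mod_cast hjpos
  have hjl : l + 1 ≤ (j : ℝ) := by
    have := Real.add_one_le_exp l
    rw [hl, Real.exp_log hjR] at this
    rw [hl]; exact this
  have hjR2 : (1025 : ℝ) ≤ (j : ℝ) := by linarith
  have hmR : (0 : ℝ) < m := by exact_mod_cast hm
  have hABlt : A ≤ B := by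
    rw [hA, hBe]; exact Nat.pow_le_pow_left (by omega) _
  have hABR : (A : ℝ) ≤ B := by exact_mod_cast hABlt
  obtain ⟨y, hy⟩ : ∃ y : ℝ, y = ((B : ℝ) - A) / m := ⟨_, rfl⟩
  have hy0 : 0 ≤ y := by rw [hy]; apply div_nonneg (by linarith) hmR.le
  rw [← hy]
  rcases S.eq_empty_or_nonempty with hemp | hne
  · rw [hemp, Finset.sum_empty]
    apply mul_nonneg hy0
    apply add_nonneg
    · split_ifs
      · positivity
      · exact le_rfl
    · positivity
  -- every q in S is at least j^4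
  have hq4 : ∀ q ∈ S, j ^ 4 ≤ q := by
    intro q hq
    have h := (hS q hq).2.2.2.1
    have h1 : (j ^ 4) ^ 128 ≤ q ^ 128 := by
      refine le_trans ?_ h
      rw [hA, ← pow_mul]
      exact Nat.pow_le_pow_right hjpos (by omega)
    exact (Nat.pow_le_pow_iff_left (by norm_num)).mp h1
  have hq4R : ∀ q ∈ S, (j : ℝ) ^ 4 ≤ q := by
    intro q hq
    exact_mod_cast hq4 q hq
  -- y is at least j^2
  have hyj : (j : ℝ) ^ 2 ≤ y := by
    obtain ⟨q, hq⟩ := hne
    exact cell_lower hA hBe hQ hjR2 hm hy (hS q hq).2.2.1 (hq4R q hq)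
  have hy2 : 2 ≤ y := by nlinarith
  have hly : l ≤ Real.log y := by
    have h1 : (j : ℝ) ≤ y := by nlinarith
    rw [hl]
    exact Real.log_le_log hjR h1
  -- split
  rw [← Finset.sum_filter_add_sum_filter_not S (fun q => a0 q = 0)]
  rw [mul_add]
  apply add_le_add
  · -- non-base primes
    split_ifs with hm1
    · have hc := prime_count hC hBT A B m hm (S.filter (fun q => a0 q = 0))
        (by
          intro q hq
          have h := hS q (Finset.mem_filter.mp hq).1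
          exact ⟨h.1, h.2.1, h.2.2.1⟩) l y hy hy2 hlpos hly
      have hb : ∀ q ∈ S.filter (fun q => a0 q = 0), gg Q j₀ (ab a0) q ≤ 1 / l ^ 2 := by
        intro q hq
        rw [Finset.mem_filter] at hq
        unfold gg
        rw [if_neg (fun h => (ab_ne.1 h) hq.2)]
        split_ifs with h1
        · have h2 : 4 * l ≤ Real.log q := by
            have := Real.log_le_log (by positivity) (hq4R q hq.1)
            rw [Real.log_pow] at this
            rw [hl]; exact_mod_cast this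
          rw [div_le_div_iff₀ (by nlinarith [sq_nonneg (Real.log q), mul_pos hlpos hlpos]) (by positivity)]
          nlinarith [mul_pos hlpos hlpos]
        · positivity
      calc ∑ q ∈ S.filter (fun q => a0 q = 0), gg Q j₀ (ab a0) q
          ≤ ∑ q ∈ S.filter (fun q => a0 q = 0), 1 / l ^ 2 := Finset.sum_le_sum hb
        _ = ((S.filter (fun q => a0 q = 0)).card : ℝ) * (1 / l ^ 2) := by
            rw [Finset.sum_const, nsmul_eq_mul]
        _ ≤ (2 * C * y / l) * (1 / l ^ 2) := by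
            apply mul_le_mul_of_nonneg_right hc; positivity
        _ = y * (2 * C / l ^ 3) := by field_simp
    · have hm1' : m = 1 := by omega
      rw [mul_zero]
      apply le_of_eq
      apply Finset.sum_eq_zero
      intro q hq
      rw [Finset.mem_filter] at hq
      exact absurd hq.2 ((hS q hq.1).2.2.2.2 hm1')
  · -- base primes
    rcases (S.filter (fun q => ¬ a0 q = 0)).eq_empty_or_nonempty with hS0 | hS0
    · rw [hS0, Finset.sum_empty]
      positivity
    set SB := S.filter (fun q => ¬ a0 q = 0) with hSB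
    set q₁ := SB.min' hS0 with hq₁
    have hq₁S : q₁ ∈ SB := SB.min'_mem hS0
    have hSBm : ∀ q ∈ SB, q ∈ S ∧ a0 q ≠ 0 := fun q hq => by
      rw [hSB, Finset.mem_filter] at hq; exact hq
    have hloc : ∀ q ∈ SB, (A : ℝ) / m < q ∧ (q : ℝ) ≤ B / m := by
      intro q hq
      have h := hS q (hSBm q hq).1
      have h1 : (A : ℝ) < m * q := by exact_mod_cast h.2.1
      have h2 : (m : ℝ) * q ≤ B := by exact_mod_cast h.2.2.1
      constructor
      · rw [div_lt_iff₀ hmR]; linarith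
      · rw [le_div_iff₀ hmR]; linarith
    have hqB : ∀ q ∈ SB, q ≤ B := fun q hq => le_trans (Nat.le_mul_of_pos_left q hm) (hS q (hSBm q hq).1).2.2.1
    have hqj : ∀ q ∈ SB, l ≤ Real.log q := by
      intro q hq
      have h3 : (j : ℝ) ≤ q := by
        have := hq4R q (hSBm q hq).1
        nlinarith [pow_pos hjR 2, pow_pos hjR 3]
      rw [hl]
      exact Real.log_le_log hjR h3
    obtain ⟨L, hL⟩ : ∃ L : ℝ, L = ll q₁ := ⟨_, rfl⟩
    have hlL : l ≤ L := by rw [hL]; exact (hqj q₁ hq₁S).trans (hll.lo q₁)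
    have hLpos : 0 < L := by linarith
    have hcnt := count_gen hB.sep (l := L) hLpos SB ((A : ℝ) / m) ((B : ℝ) / m)
      (by gcongr) (by
        intro q hq
        refine ⟨(hSBm q hq).2, (hloc q hq).1, (hloc q hq).2, ?_⟩
        rw [hL]
        exact hll.mono (SB.min'_le q hq))
    have hyBA : (B : ℝ) / m - A / m = y := by rw [hy]; ring
    rw [hyBA] at hcnt
    have hL22 : 0 < L ^ 22 := by positivity
    have hyl : 1 ≤ y / L ^ 22 := by
      rw [le_div_iff₀ hL22, one_mul, hL]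
      refine (hj22 q₁ (hqB q₁ hq₁S)).trans ?_
      nlinarith
    have hAB2 : B ≤ 2 * A := by
      rw [hA, hBe]
      apply two_pow
      have h1 := Real.quadratic_le_exp_of_nonneg hlpos.le
      rw [hl, Real.exp_log hjR, ← hl] at h1
      have h2 : (4 * (Q : ℝ) + 2) ≤ j := by nlinarith
      exact_mod_cast h2
    have hval : ∀ q ∈ SB, gg Q j₀ (ab a0) q ≤ (4 * L) ^ 12 := by
      intro q hq
      unfold gg
      rw [if_pos (ab_ne.2 (hSBm q hq).2)]
      refine (hB.size q (hSBm q hq).2).trans ?_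
      have h0 : 0 ≤ ll q := le_trans (le_trans hlpos.le (hqj q hq)) (hll.lo q)
      apply pow_le_pow_left₀ h0
      have h1 : q ≤ 2 * q₁ := by
        have h2 := (hloc q hq).2
        have h3 := (hloc q₁ hq₁S).1
        have h4 : (B : ℝ) ≤ 2 * A := by exact_mod_cast hAB2
        have h5 : (B : ℝ) / m ≤ 2 * (A / m) := by
          rw [← mul_div_assoc]
          exact div_le_div_of_nonneg_right h4 hmR.le
        have h6 : (q : ℝ) ≤ 2 * q₁ := by linarith
        exact_mod_cast h6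
      have h2 : 2 ≤ q₁ := (hS q₁ (hSBm q₁ hq₁S).1).1.two_le
      calc ll q ≤ ll (2 * q₁) := hll.mono h1
        _ ≤ 4 * ll q₁ := hll.dbl q₁ h2
        _ = 4 * L := by rw [hL]
    have hsum : ∑ q ∈ SB, gg Q j₀ (ab a0) q ≤ (SB.card : ℝ) * (4 * L) ^ 12 := by
      rw [← nsmul_eq_mul]
      exact Finset.sum_le_card_nsmul _ _ _ hval
    refine hsum.trans ?_
    calc (SB.card : ℝ) * (4 * L) ^ 12
        ≤ (y / L ^ 22 + y / L ^ 22) * (4 * L) ^ 12 := by
          apply mul_le_mul_of_nonneg_right _ (by positivity)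
          linarith
      _ = y * (2 * 4 ^ 12 / L ^ 10) := by
          field_simp
          ring
      _ ≤ y * (3 * (4 * (Q : ℝ)) ^ 12 / l ^ 4) := by
          apply mul_le_mul_of_nonneg_left _ hy0
          have h7 : l ^ 4 ≤ L ^ 10 := by
            calc l ^ 4 ≤ L ^ 4 := pow_le_pow_left₀ hlpos.le hlL 4
              _ ≤ L ^ 10 := pow_le_pow_right₀ (by linarith) (by norm_num)
          have h8 : (2 : ℝ) * 4 ^ 12 ≤ 3 * (4 * (Q : ℝ)) ^ 12 := by
            have h9 : (4 : ℝ) ^ 12 ≤ (4 * (Q : ℝ)) ^ 12 := pow_le_pow_left₀ (by norm_num) (by linarith) 12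
            have h10 : (0:ℝ) ≤ (4 : ℝ) ^ 12 := by positivity
            linarith
          calc (2 : ℝ) * 4 ^ 12 / L ^ 10 ≤ 3 * (4 * (Q : ℝ)) ^ 12 / L ^ 10 :=
                div_le_div_of_nonneg_right h8 (by positivity)
            _ ≤ 3 * (4 * (Q : ℝ)) ^ 12 / l ^ 4 :=
                div_le_div_of_nonneg_left (by positivity) (by positivity) h7

/-- TASK NS -/
theorem taskNS : MassBd (fun Q j n => ∃ p ∈ n.primeFactors, j ^ (2 * Q) ≤ p ^ 128) := by
  classical
  have hG1 : G1 := g1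
  obtain ⟨C, hC, hBT⟩ := Pool.Agent.Helper923.PPS.brun_titchmarsh
  refine ⟨256, ?_⟩
  intro Q hQ ll hll s hs
  obtain ⟨s', hs'⟩ : ∃ s' : ℝ, s' = min 1 (s / (4 * C)) := ⟨_, rfl⟩
  have hCpos : 0 < C := by linarith
  have hs'0 : 0 < s' := by rw [hs']; positivity
  have hs'1 : s' ≤ 1 := by rw [hs']; exact min_le_left _ _
  have hs'2 : 2 * C * s' ≤ s / 2 := by
    have h1 : s' ≤ s / (4 * C) := by rw [hs']; exact min_le_right _ _
    calc 2 * C * s' ≤ 2 * C * (s / (4 * C)) := by gcongr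
      _ = s / 2 := by field_simp; norm_num
  obtain ⟨J₁, hJ₁⟩ := hG1 Q (by omega) ll hll s' hs'0
  have hev : ∀ᶠ j : ℕ in Filter.atTop, 4 * (Q : ℝ) ≤ Real.log j ∧
      12 * (4 * (Q : ℝ)) ^ 12 / s ≤ Real.log j ∧ ∀ q : ℕ, q ≤ (j + 1) ^ (2 * Q) → (ll q) ^ 22 ≤ (j : ℝ) := by
    have h1 : Filter.Tendsto (fun j : ℕ => Real.log (j : ℝ)) Filter.atTop Filter.atTop :=
      Real.tendsto_log_atTop.comp tendsto_natCast_atTop_atTop
    have hQ0 : (0 : ℝ) < Q := by
      have : 0 < Q := by omega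
      exact_mod_cast this
    obtain ⟨N, hN⟩ := hll.hi (1 / (88 * Q)) (by positivity)
    filter_upwards [h1.eventually_ge_atTop (4 * (Q : ℝ)), h1.eventually_ge_atTop (12 * (4 * (Q : ℝ)) ^ 12 / s),
      Filter.eventually_ge_atTop (max N 2)] with j h2 h3 h4
    refine ⟨h2, h3, fun q hq => ?_⟩
    have hj2 : 2 ≤ j := (le_max_right _ _).trans h4
    have hjN : N ≤ j := (le_max_left _ _).trans h4
    have hj2r : (2 : ℝ) ≤ j := by exact_mod_cast hj2
    have h5 : q ≤ (j ^ 2) ^ (2 * Q) := hq.trans (Nat.pow_le_pow_left (by nlinarith) _)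
    have h6 : N ≤ (j ^ 2) ^ (2 * Q) := by
      refine hjN.trans ?_
      calc j ≤ j ^ 2 := Nat.le_self_pow (by norm_num) j
        _ ≤ (j ^ 2) ^ (2 * Q) := Nat.le_self_pow (by omega) _
    have h7 := hN _ h6
    have h8 := hll.mono h5
    have h9 : (0 : ℝ) ≤ ll q := by
      rcases Nat.eq_zero_or_pos q with h0 | h0
      · have := hll.lo q
        rw [h0] at this ⊢
        simpa using this
      · exact (Real.log_natCast_nonneg q).trans (hll.lo q)
    calc (ll q) ^ 22 ≤ ((((j ^ 2) ^ (2 * Q) : ℕ) : ℝ) ^ (1 / (88 * (Q : ℝ)))) ^ 22 :=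
          pow_le_pow_left₀ h9 (h8.trans h7) 22
      _ = (j : ℝ) := by
          push_cast
          rw [← Real.rpow_natCast, ← Real.rpow_natCast, ← Real.rpow_natCast, ← Real.rpow_mul (by positivity),
            ← Real.rpow_mul (by positivity), ← Real.rpow_mul (by positivity)]
          have e : ((2 : ℕ) : ℝ) * (((2 * Q : ℕ) : ℝ) * (1 / (88 * (Q : ℝ)) * ((22 : ℕ) : ℝ))) = 1 := by
            push_cast
            field_simp
            norm_num
          rw [e, Real.rpow_one]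
  obtain ⟨J₂', hJ₂'⟩ := Filter.eventually_atTop.1 hev
  obtain ⟨J₂, hJ₂d⟩ : ∃ J₂ : ℕ, J₂ = J₂' := ⟨_, rfl⟩
  have hJ₂ : ∀ b : ℕ, J₂ ≤ b → 4 * (Q : ℝ) ≤ Real.log b ∧ 12 * (4 * (Q : ℝ)) ^ 12 / s ≤ Real.log b ∧
      ∀ q : ℕ, q ≤ (b + 1) ^ (2 * Q) → (ll q) ^ 22 ≤ (b : ℝ) := fun b hb => hJ₂' b (hJ₂d ▸ hb)
  refine ⟨max J₁ J₂, ?_⟩
  intro j₀ hj₀ a0 hB j hj T hT hgood
  have hG := hJ₁ j₀ (by omega) a0 hB
  obtain ⟨hj1, hj2, hj22⟩ := hJ₂ j (by omega)
  have hQR : (256 : ℝ) ≤ Q := by exact_mod_cast hQ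
  have hlpos : 0 < Real.log j := by linarith
  obtain ⟨A, hA⟩ : ∃ A : ℕ, A = j ^ (2 * Q) := ⟨_, rfl⟩
  obtain ⟨B, hBe⟩ : ∃ B : ℕ, B = (j + 1) ^ (2 * Q) := ⟨_, rfl⟩
  have hABlt : A ≤ B := by
    rw [hA, hBe]; exact Nat.pow_le_pow_left (by omega) _
  have hABR : (A : ℝ) ≤ B := by exact_mod_cast hABlt
  have hcard : ((CC Q j).card : ℝ) = (B : ℝ) - A := by
    unfold CC
    rw [Nat.card_Ioc, ← hA, ← hBe, Nat.cast_sub hABlt]
  -- choice of the prime
  have hex : ∀ n ∈ T, ∃ p, p ∈ n.primeFactors ∧ A ≤ p ^ 128 := by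
    intro n hn
    obtain ⟨p, hp1, hp2⟩ := (hgood n hn).2.2
    exact ⟨p, hp1, by rw [hA]; exact hp2⟩
  choose! q hq using hex
  have hmem : ∀ n ∈ T, A < n ∧ n ≤ B := by
    intro n hn
    have h := hT hn
    unfold CC at h
    rw [Finset.mem_Ioc, ← hA, ← hBe] at h
    exact h
  have hfac : ∀ n ∈ T, (n / q n) * q n = n := fun n hn =>
    Nat.div_mul_cancel (Nat.dvd_of_mem_primeFactors (hq n hn).1)
  have hprime : ∀ n ∈ T, (q n).Prime := fun n hn => Nat.prime_of_mem_primeFactors (hq n hn).1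
  have hmpos : ∀ n ∈ T, 0 < n / q n := by
    intro n hn
    rcases Nat.eq_zero_or_pos (n / q n) with h | h
    · have h1 := hfac n hn
      rw [h, zero_mul] at h1
      have := (hmem n hn).1
      omega
    · exact h
  have hprod : ∀ n ∈ T, ∏ p ∈ n.primeFactors, gg Q j₀ (ab a0) p =
      (∏ p ∈ (n / q n).primeFactors, gg Q j₀ (ab a0) p) * gg Q j₀ (ab a0) (q n) := by
    intro n hn
    have hsq := (hgood n hn).1
    have hco : Nat.Coprime (n / q n) (q n) := by
      have h1 : Squarefree ((n / q n) * q n) := by rw [hfac n hn]; exact hsq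
      exact Nat.coprime_of_squarefree_mul h1
    conv_lhs => rw [← hfac n hn]
    rw [hco.primeFactors_mul, Finset.prod_union hco.disjoint_primeFactors,
      (hprime n hn).primeFactors, Finset.prod_singleton]
  obtain ⟨W, hW⟩ : ∃ W : ℕ → ℝ, W = fun k : ℕ => (∏ p ∈ k.primeFactors, gg Q j₀ (ab a0) p) / k := ⟨_, rfl⟩
  have hGnn : ∀ k : ℕ, 0 ≤ ∏ p ∈ k.primeFactors, gg Q j₀ (ab a0) p := fun k =>
    Finset.prod_nonneg fun p _ => gg_nonneg a0 Q j₀ p
  have hWnn : ∀ k, 0 ≤ W k := by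
    intro k; rw [hW]; exact div_nonneg (hGnn k) (Nat.cast_nonneg k)
  obtain ⟨I, hI⟩ : ∃ I : Finset ℕ, I = T.image (fun n => n / q n) := ⟨_, rfl⟩
  have hIpos : ∀ k ∈ I, 0 < k := by
    intro k hk
    rw [hI, Finset.mem_image] at hk
    obtain ⟨n, hn, rfl⟩ := hk
    exact hmpos n hn
  have hIsq : ∀ k ∈ I, Squarefree k := by
    intro k hk
    rw [hI, Finset.mem_image] at hk
    obtain ⟨n, hn, rfl⟩ := hk
    exact (hgood n hn).1.squarefree_of_dvd ⟨q n, (hfac n hn).symm⟩
  obtain ⟨E1, hE1⟩ : ∃ E1 : ℝ, E1 = 2 * C / (Real.log j) ^ 3 := ⟨_, rfl⟩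
  obtain ⟨E2, hE2⟩ : ∃ E2 : ℝ, E2 = 3 * (4 * (Q : ℝ)) ^ 12 / (Real.log j) ^ 4 := ⟨_, rfl⟩
  have hE1nn : 0 ≤ E1 := by rw [hE1]; positivity
  have hE2nn : 0 ≤ E2 := by rw [hE2]; positivity
  have hfib : ∀ k ∈ I, ∑ n ∈ T.filter (fun n => n / q n = k), ∏ p ∈ n.primeFactors, gg Q j₀ (ab a0) p ≤
      ((B : ℝ) - A) * (E1 * (if 1 < k then W k else 0) + E2 * W k) := by
    intro k hk
    have hkpos := hIpos k hk
    have hkR : (0 : ℝ) < k := by exact_mod_cast hkpos
    have hinj : Set.InjOn q ((T.filter (fun n => n / q n = k) : Finset ℕ) : Set ℕ) := by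
      intro n hn n' hn' he
      rw [Finset.mem_coe, Finset.mem_filter] at hn hn'
      have h1 := hfac n hn.1
      have h2 := hfac n' hn'.1
      rw [hn.2] at h1
      rw [hn'.2] at h2
      rw [← h1, ← h2, he]
    have h1 : ∑ n ∈ T.filter (fun n => n / q n = k), ∏ p ∈ n.primeFactors, gg Q j₀ (ab a0) p =
        (∏ p ∈ k.primeFactors, gg Q j₀ (ab a0) p) *
          ∑ r ∈ (T.filter (fun n => n / q n = k)).image q, gg Q j₀ (ab a0) r := by
      rw [Finset.sum_image hinj, Finset.mul_sum]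
      apply Finset.sum_congr rfl
      intro n hn
      rw [Finset.mem_filter] at hn
      rw [hprod n hn.1, hn.2]
    have h2 := fiber_bound hC hBT hll hB Q j₀ j A B k hA hBe hQ hj1 (by rw [hBe]; exact hj22) hkpos
      ((T.filter (fun n => n / q n = k)).image q) (by
        intro r hr
        rw [Finset.mem_image] at hr
        obtain ⟨n, hn, rfl⟩ := hr
        rw [Finset.mem_filter] at hn
        have h3 := hfac n hn.1
        rw [hn.2] at h3
        have h4 := hmem n hn.1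
        refine ⟨hprime n hn.1, by rw [h3]; exact h4.1, by rw [h3]; exact h4.2, (hq n hn.1).2, ?_⟩
        intro hk1 ha
        rw [hk1, one_mul] at h3
        apply (hgood n hn.1).2.1
        rw [← h3]
        rw [h3] at ha
        exact ⟨h3 ▸ hprime n hn.1, by rw [h3]; exact ha⟩)
    rw [h1]
    calc (∏ p ∈ k.primeFactors, gg Q j₀ (ab a0) p) *
          ∑ r ∈ (T.filter (fun n => n / q n = k)).image q, gg Q j₀ (ab a0) r
        ≤ (∏ p ∈ k.primeFactors, gg Q j₀ (ab a0) p) * (((B : ℝ) - A) / k *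
      ((if 1 < k then 2 * C / (Real.log j) ^ 3 else 0) + 3 * (4 * (Q : ℝ)) ^ 12 / (Real.log j) ^ 4)) :=
          mul_le_mul_of_nonneg_left h2 (hGnn k)
      _ = ((B : ℝ) - A) * (E1 * (if 1 < k then W k else 0) + E2 * W k) := by
          rw [hW, hE1, hE2]
          split_ifs
          · ring
          · ring
  have hsum : ∑ n ∈ T, ∏ p ∈ n.primeFactors, gg Q j₀ (ab a0) p =
      ∑ k ∈ I, ∑ n ∈ T.filter (fun n => n / q n = k), ∏ p ∈ n.primeFactors, gg Q j₀ (ab a0) p := by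
    symm
    apply Finset.sum_fiberwise_of_maps_to
    intro n hn
    rw [hI]
    exact Finset.mem_image_of_mem _ hn
  have hS1 : ∑ k ∈ I, (if 1 < k then W k else 0) ≤ s' := by
    rw [← Finset.sum_filter]
    have h1 := hG I
    have h2 : I.filter (fun m => Squarefree m ∧ 1 < m) = I.filter (fun k => 1 < k) := by
      apply Finset.filter_congr
      intro k hk
      exact ⟨fun h => h.2, fun h => ⟨hIsq k hk, h⟩⟩
    rw [h2] at h1
    rw [hW]
    exact h1
  have hS2 : ∑ k ∈ I, W k ≤ 1 + s' := by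
    have h1 : ∀ k ∈ I, W k ≤ (if k = 1 then 1 else 0) + (if 1 < k then W k else 0) := by
      intro k hk
      have := hIpos k hk
      by_cases hk1 : k = 1
      · rw [hk1, hW]; simp
      · rw [if_neg hk1, if_pos (by omega)]; linarith
    calc ∑ k ∈ I, W k ≤ ∑ k ∈ I, ((if k = 1 then 1 else 0) + (if 1 < k then W k else 0)) :=
          Finset.sum_le_sum h1
      _ = ∑ k ∈ I, (if k = 1 then (1:ℝ) else 0) + ∑ k ∈ I, (if 1 < k then W k else 0) :=
          Finset.sum_add_distrib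
      _ ≤ 1 + s' := by
          apply add_le_add _ hS1
          rw [Finset.sum_ite_eq' I 1 (fun _ => (1:ℝ))]
          split_ifs <;> norm_num
  rw [hsum, hcard]
  calc ∑ k ∈ I, ∑ n ∈ T.filter (fun n => n / q n = k), ∏ p ∈ n.primeFactors, gg Q j₀ (ab a0) p
      ≤ ∑ k ∈ I, ((B : ℝ) - A) * (E1 * (if 1 < k then W k else 0) + E2 * W k) :=
        Finset.sum_le_sum hfib
    _ = ((B : ℝ) - A) * (E1 * ∑ k ∈ I, (if 1 < k then W k else 0) + E2 * ∑ k ∈ I, W k) := by
        rw [← Finset.mul_sum, Finset.sum_add_distrib, Finset.mul_sum, Finset.mul_sum]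
    _ ≤ ((B : ℝ) - A) * (E1 * s' + E2 * (1 + s')) := by
        apply mul_le_mul_of_nonneg_left _ (by linarith)
        exact add_le_add (mul_le_mul_of_nonneg_left hS1 hE1nn) (mul_le_mul_of_nonneg_left hS2 hE2nn)
    _ ≤ ((B : ℝ) - A) * (s / (Real.log j) ^ 3) := by
        apply mul_le_mul_of_nonneg_left _ (by linarith)
        have h1 : E1 * s' ≤ (s / 2) / (Real.log j) ^ 3 := by
          rw [hE1]
          calc 2 * C / (Real.log j) ^ 3 * s' = 2 * C * s' / (Real.log j) ^ 3 := by ring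
            _ ≤ (s / 2) / (Real.log j) ^ 3 := by gcongr
        have h2 : E2 * (1 + s') ≤ (s / 2) / (Real.log j) ^ 3 := by
          have h3 : E2 * (1 + s') ≤ E2 * 2 := by
            apply mul_le_mul_of_nonneg_left _ hE2nn; linarith
          refine h3.trans ?_
          rw [hE2]
          rw [div_le_iff₀ hs] at hj2
          rw [div_mul_eq_mul_div, div_le_div_iff₀ (by positivity) (by positivity)]
          have h4 : 3 * (4 * (Q : ℝ)) ^ 12 * 2 ≤ s / 2 * Real.log j := by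
            clear hE2 h3 hev hJ₂ hJ₂'
            generalize (4 * (Q : ℝ)) ^ 12 = F at hj2 ⊢
            linarith
          calc 3 * (4 * (Q : ℝ)) ^ 12 * 2 * (Real.log j) ^ 3
              ≤ s / 2 * Real.log j * (Real.log j) ^ 3 := by
                apply mul_le_mul_of_nonneg_right h4; positivity
            _ = s / 2 * (Real.log j) ^ 4 := by ring
        calc E1 * s' + E2 * (1 + s') ≤ (s / 2) / (Real.log j) ^ 3 + (s / 2) / (Real.log j) ^ 3 :=
              add_le_add h1 h2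
          _ = s / (Real.log j) ^ 3 := by ring
    _ = s * ((B : ℝ) - A) / (Real.log j) ^ 3 := by ring

end Pool.Agent.H483.IP.NS
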