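import Mathlib
import Pool.Agent.H483.IP.Defs
import Pool.Agent.H483.IP.Lag
import Pool.Agent.H483.IP.G1
import Pool.Agent.H483.IP.NS

/-! # The fixed point (adapted from the library module `Y627.BC.Fix`) -/

set_option autoImplicit false

open Finset

namespace Pool.Agent.H483.IP

open Pool.Agent.H469R10.HO (Hoheisel TaskF)
open Pool.Agent.H96R3.BC hiding Base AA DD TaskLag TaskBase TaskG1 MassBd TaskNS TaskSm TaskFix TaskGrow TaskSec mass_comb mass_all AA_pos fixA cf_diff mass_cf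
open Pool.Agent.H483.IP.Lag (TaskLag)

/-- smooth part -/
def TaskSm : Prop := MassBd (fun Q j n => ∀ p ∈ n.primeFactors, p ^ 128 < j ^ (2 * Q))

/-- large prime factor part -/
def TaskNS : Prop := MassBd (fun Q j n => ∃ p ∈ n.primeFactors, j ^ (2 * Q) ≤ p ^ 128)

/-- the solution of the fixed point equation -/
def TaskFix : Prop := ∃ Q : ℕ, 2 ≤ Q ∧ ∀ l : ℕ → ℝ, Ell l → ∃ J₀ : ℕ, ∀ j₀ : ℕ, J₀ ≤ j₀ →
  ∀ a0 : ℕ → ℝ, LB l (j₀ ^ (2 * Q)) a0 →
    ∃ (y : ℕ → ℝ) (f : ℝ → ℝ), Sol Q j₀ a0 y f ∧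
      ∀ p : ℕ, p.Prime → a0 p = 0 → j₀ ^ (2 * Q) < p → |y p| ≤ 1 / (Real.log p) ^ 2

/-- total mass of the cell -/
lemma mass_comb {g₁ g₂ : ℕ → ℕ → ℕ → Prop} (hg : ∀ Q j n, g₁ Q j n ∨ g₂ Q j n) (h₁ : MassBd g₁) (h₂ : MassBd g₂) :
    MassBd (fun _ _ _ => True) := by
  obtain ⟨Q₁, h₁⟩ := h₁
  obtain ⟨Q₂, h₂⟩ := h₂
  refine ⟨max Q₁ Q₂, fun Q hQ l hl s hs => ?_⟩
  obtain ⟨J₁, h₁⟩ := h₁ Q ((le_max_left _ _).trans hQ) l hl (s / 2) (by positivity)
  obtain ⟨J₂, h₂⟩ := h₂ Q ((le_max_right _ _).trans hQ) l hl (s / 2) (by positivity)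
  refine ⟨max J₁ J₂, fun j₀ hj₀ a0 hB j hj T hT hT2 => ?_⟩
  have a₁ := h₁ j₀ ((le_max_left _ _).trans hj₀) a0 hB j hj
  have a₂ := h₂ j₀ ((le_max_right _ _).trans hj₀) a0 hB j hj
  classical
  have b₁ := a₁ (T.filter (fun n => g₁ Q j n)) ((filter_subset _ _).trans hT)
    (fun n hn => by
      rw [mem_filter] at hn
      exact ⟨(hT2 n hn.1).1, (hT2 n hn.1).2.1, hn.2⟩)
  have b₂ := a₂ (T.filter (fun n => ¬ g₁ Q j n)) ((filter_subset _ _).trans hT)
    (fun n hn => by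
      rw [mem_filter] at hn
      exact ⟨(hT2 n hn.1).1, (hT2 n hn.1).2.1, (hg Q j n).resolve_left hn.2⟩)
  rw [← sum_filter_add_sum_filter_not T (fun n => g₁ Q j n)]
  refine (add_le_add b₁ b₂).trans (le_of_eq ?_)
  ring

lemma mass_all (hNS : TaskNS) (hSm : TaskSm) : MassBd (fun _ _ _ => True) := by
  refine mass_comb (fun Q j n => ?_) hNS hSm
  by_cases h : ∃ p ∈ n.primeFactors, j ^ (2 * Q) ≤ p ^ 128
  · exact Or.inl h
  · right
    push Not at h
    exact h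

lemma gg_ab {Q j₀ : ℕ} {a0 : ℕ → ℝ} (p : ℕ) : gg Q j₀ (ab a0) p =
    if a0 p ≠ 0 then |a0 p| else if j₀ ^ (2 * Q) < p then 2 / (Real.log p) ^ 2 else 0 := by
  unfold gg ab
  simp only [ne_eq, abs_eq_zero]

/-- majorants for `cf` and differences -/
lemma cf_diff {Q j₀ : ℕ} {a0 x x' : ℕ → ℝ} (hx : ∀ p, |x p| ≤ W1 Q j₀ a0 p) (hx' : ∀ p, |x' p| ≤ W1 Q j₀ a0 p)
    {D : ℝ} (hD : 0 ≤ D) (hd : ∀ p, |x p - x' p| ≤ D * W1 Q j₀ a0 p) (n : ℕ) :
    |cf (Yy a0 x) n - cf (Yy a0 x') n| ≤ D * (if Squarefree n then ∏ p ∈ n.primeFactors, gg Q j₀ (ab a0) p else 0) ∧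
    |cf (Yy a0 x) n| ≤ (if Squarefree n then ∏ p ∈ n.primeFactors, gg Q j₀ (ab a0) p else 0) := by
  unfold cf
  split_ifs with hs
  · refine prod_diff n.primeFactors (Yy a0 x) (Yy a0 x') (fun p => if a0 p ≠ 0 then |a0 p| else W1 Q j₀ a0 p)
      (fun p => if a0 p ≠ 0 then 0 else W1 Q j₀ a0 p) (gg Q j₀ (ab a0)) hD ?_ ?_ ?_ ?_ ?_
    · intro p _
      unfold Yy
      split_ifs with h
      · exact le_rfl
      · exact hx p
    · intro p _
      unfold Yy
      split_ifs with h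
      · exact le_rfl
      · exact hx' p
    · intro p _
      show (0:ℝ) ≤ if a0 p ≠ 0 then 0 else W1 Q j₀ a0 p
      split_ifs
      · exact le_rfl
      · exact W1_nonneg _ _ _ _
    · intro p _
      unfold Yy
      show |(if a0 p ≠ 0 then a0 p else x p) - if a0 p ≠ 0 then a0 p else x' p| ≤ D * if a0 p ≠ 0 then 0 else W1 Q j₀ a0 p
      split_ifs with h
      · simp
      · exact hd p
    · intro p hp
      show (if a0 p ≠ 0 then |a0 p| else W1 Q j₀ a0 p) + (if a0 p ≠ 0 then 0 else W1 Q j₀ a0 p) ≤ gg Q j₀ (ab a0) p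
      rw [gg_ab]
      split_ifs with h h2
      · simp
      · unfold W1
        split_ifs with h3
        · apply le_of_eq; ring
        · simp; positivity
      · unfold W1
        rw [if_neg (fun h3 => h2 h3.2.2)]
        simp
  · simp

/-- mass of the nonlinear terms -/
lemma mass_cf {Q j₀ : ℕ} {s : ℝ} {a0 : ℕ → ℝ} {j : ℕ}
    (hm : ∀ T : Finset ℕ, T ⊆ CC Q j → (∀ n ∈ T, Squarefree n ∧ ¬ (n.Prime ∧ a0 n = 0) ∧ True) →
      ∑ n ∈ T, ∏ p ∈ n.primeFactors, gg Q j₀ (ab a0) p ≤ s * (CC Q j).card / (Real.log j) ^ 3)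
    {x x' : ℕ → ℝ} (hx : ∀ p, |x p| ≤ W1 Q j₀ a0 p) (hx' : ∀ p, |x' p| ≤ W1 Q j₀ a0 p)
    {D : ℝ} (hD : 0 ≤ D) (hd : ∀ p, |x p - x' p| ≤ D * W1 Q j₀ a0 p) :
    ∑ n ∈ NB Q a0 j, |cf (Yy a0 x) n - cf (Yy a0 x') n| ≤ D * (s * (CC Q j).card / (Real.log j) ^ 3) ∧
    ∑ n ∈ NB Q a0 j, |cf (Yy a0 x) n| ≤ s * (CC Q j).card / (Real.log j) ^ 3 := by
  classical
  have key : ∑ n ∈ NB Q a0 j, (if Squarefree n then ∏ p ∈ n.primeFactors, gg Q j₀ (ab a0) p else 0) ≤
      s * (CC Q j).card / (Real.log j) ^ 3 := by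
    rw [← sum_filter]
    apply hm
    · intro n hn
      rw [mem_filter] at hn
      unfold NB at hn
      exact (mem_filter.1 hn.1).1
    · intro n hn
      rw [mem_filter] at hn
      unfold NB at hn
      exact ⟨hn.2, (mem_filter.1 hn.1).2, trivial⟩
  constructor
  · calc _ ≤ ∑ n ∈ NB Q a0 j, D * (if Squarefree n then ∏ p ∈ n.primeFactors, gg Q j₀ (ab a0) p else 0) :=
          sum_le_sum fun n _ => (cf_diff hx hx' hD hd n).1
      _ = D * ∑ n ∈ NB Q a0 j, (if Squarefree n then ∏ p ∈ n.primeFactors, gg Q j₀ (ab a0) p else 0) := by rw [mul_sum]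
      _ ≤ _ := mul_le_mul_of_nonneg_left key hD
  · exact (sum_le_sum fun n _ => (cf_diff hx hx' hD hd n).2).trans key

theorem fixA (hB : TaskFixB) (hK1 : TaskKer1) (hK2 : TaskKer2) (hDef : TaskDef) (hSum : TaskSum) (hLA : TaskLagA)
    (hLag : TaskLag) (hNS : TaskNS) (hSm : TaskSm) (hHo : Hoheisel) : TaskFix := by
  obtain ⟨Q1, hB⟩ := hB hK1 hK2 hDef hSum
  obtain ⟨Q2, hLag⟩ := hLag hLA hHo
  obtain ⟨Q3, hM⟩ := mass_all hNS hSm
  set Q := max (max Q1 Q2) (max Q3 2) with hQdef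
  have hQ1 : Q1 ≤ Q := (le_max_left _ _).trans (le_max_left _ _)
  have hQ2 : Q2 ≤ Q := (le_max_right _ _).trans (le_max_left _ _)
  have hQ3 : Q3 ≤ Q := (le_max_left _ _).trans (le_max_right _ _)
  have hQ4 : 2 ≤ Q := (le_max_right _ _).trans (le_max_right _ _)
  clear_value Q
  obtain ⟨C, hC, JL, hLag⟩ := hLag Q hQ2
  obtain ⟨s, hs, JB, hB⟩ := hB Q hQ1 C hC
  refine ⟨Q, hQ4, fun l hl => ?_⟩
  obtain ⟨JM, hM⟩ := hM Q hQ3 l hl s hs
  refine ⟨max (max JL JB) (max JM 3), fun j₀ hj₀ a0 hBase => ?_⟩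
  have hj1 : JL ≤ j₀ := ((le_max_left _ _).trans (le_max_left _ _)).trans hj₀
  have hj2 : JB ≤ j₀ := ((le_max_right _ _).trans (le_max_left _ _)).trans hj₀
  have hj3 : JM ≤ j₀ := ((le_max_left _ _).trans (le_max_right _ _)).trans hj₀
  have hj4 : 3 ≤ j₀ := ((le_max_right _ _).trans (le_max_right _ _)).trans hj₀
  obtain ⟨κ, hκ, hsrc, hB⟩ := hB j₀ hj2
  obtain ⟨w, hw⟩ := hLag j₀ hj1 a0 (hBase.sp hl)
  have hB := hB a0 w hw
  have hM := hM j₀ hj3 a0 hBase
  have hQp : 1 ≤ Q := by omega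
  -- facts in the ball
  have ball : ∀ g : ℕ ⊕ ℝ → ℝ, (Continuous fun v => g (Sum.inr v)) → (∀ i, |g i| ≤ WW2 Q j₀ a0 κ i) →
      (∀ j, j₀ ≤ j → ∀ p ∈ CC Q j, p.Prime →
        |XL Q j₀ a0 w (cf (Yy a0 (fun q => g (Sum.inl q)))) (fun u => g (Sum.inr u)) j p| ≤ 1 / 2 * (1 / (Real.log p) ^ 2)) ∧
      (∀ v : ℝ, 0 ≤ v → |FL Q j₀ a0 w (cf (Yy a0 (fun q => g (Sum.inl q)))) (fun u => g (Sum.inr u)) v| ≤ 1 / 2 * (κ * NN Q v)) ∧
      (Continuous fun v : ℝ => FL Q j₀ a0 w (cf (Yy a0 (fun q => g (Sum.inl q)))) (fun u => g (Sum.inr u)) (max v 0)) ∧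
      (∃ M : ℕ → ℝ, Summable M ∧ ∀ (i : ℕ) (v : ℝ), 0 ≤ v →
        |BL Q j₀ a0 w (cf (Yy a0 (fun q => g (Sum.inl q)))) (fun u => g (Sum.inr u)) (j₀ + i) v| ≤ M i * v ^ (8 * Q + 7)) := by
    intro g hgc hg
    have hx : ∀ p, |g (Sum.inl p)| ≤ W1 Q j₀ a0 p := fun p => hg (Sum.inl p)
    refine hB (cf (Yy a0 (fun q => g (Sum.inl q)))) (fun u => g (Sum.inr u)) 1 zero_le_one hgc ?_ ?_
    · intro j hj
      rw [one_mul]
      exact (mass_cf (hM j hj) hx hx le_rfl (fun p => by simp)).2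
    · intro v hv
      rw [one_mul]
      have := hg (Sum.inr v)
      simp only [WW2, max_eq_left hv] at this
      exact this
  have diff : ∀ g g' : ℕ ⊕ ℝ → ℝ, (Continuous fun v => g (Sum.inr v)) → (Continuous fun v => g' (Sum.inr v)) →
      (∀ i, |g i| ≤ WW2 Q j₀ a0 κ i) → (∀ i, |g' i| ≤ WW2 Q j₀ a0 κ i) → ∀ D : ℝ, 0 ≤ D →
      (∀ i, |g i - g' i| ≤ D * WW2 Q j₀ a0 κ i) →
      (∀ j, j₀ ≤ j → ∀ p ∈ CC Q j, p.Prime →
        |XL Q j₀ a0 w (fun n => cf (Yy a0 (fun q => g (Sum.inl q))) n - cf (Yy a0 (fun q => g' (Sum.inl q))) n)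
          (fun u => g (Sum.inr u) - g' (Sum.inr u)) j p| ≤ D / 2 * (1 / (Real.log p) ^ 2)) ∧
      (∀ v : ℝ, 0 ≤ v → |FL Q j₀ a0 w (fun n => cf (Yy a0 (fun q => g (Sum.inl q))) n - cf (Yy a0 (fun q => g' (Sum.inl q))) n)
          (fun u => g (Sum.inr u) - g' (Sum.inr u)) v| ≤ D / 2 * (κ * NN Q v)) := by
    intro g g' hgc hgc' hg hg' D hD hd
    have hx : ∀ p, |g (Sum.inl p)| ≤ W1 Q j₀ a0 p := fun p => hg (Sum.inl p)
    have hx' : ∀ p, |g' (Sum.inl p)| ≤ W1 Q j₀ a0 p := fun p => hg' (Sum.inl p)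
    have hxx : ∀ p, |g (Sum.inl p) - g' (Sum.inl p)| ≤ D * W1 Q j₀ a0 p := fun p => hd (Sum.inl p)
    have h := hB (fun n => cf (Yy a0 (fun q => g (Sum.inl q))) n - cf (Yy a0 (fun q => g' (Sum.inl q))) n)
      (fun u => g (Sum.inr u) - g' (Sum.inr u)) D hD (hgc.sub hgc') ?_ ?_
    · exact ⟨h.1, h.2.1⟩
    · intro j hj
      exact (mass_cf (hM j hj) hx hx' hD hxx).1
    · intro v hv
      have := hd (Sum.inr v)
      simp only [WW2, max_eq_left hv] at this
      exact this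
  have sumBL : ∀ g : ℕ ⊕ ℝ → ℝ, (Continuous fun v => g (Sum.inr v)) → (∀ i, |g i| ≤ WW2 Q j₀ a0 κ i) → ∀ v : ℝ, 0 ≤ v →
      Summable fun i : ℕ => BL Q j₀ a0 w (cf (Yy a0 (fun q => g (Sum.inl q)))) (fun u => g (Sum.inr u)) (j₀ + i) v := by
    intro g hgc hg v hv
    obtain ⟨M, hMs, hMb⟩ := (ball g hgc hg).2.2.2
    exact Summable.of_norm_bounded (hMs.mul_right (v ^ (8 * Q + 7))) (fun i => by rw [Real.norm_eq_abs]; exact hMb i v hv)
  -- Picard
  obtain ⟨g, hgC, hgW, hgfix⟩ := picard (WW2 Q j₀ a0 κ) (fun i => by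
      cases i with
      | inl p => exact W1_nonneg _ _ _ _
      | inr v => exact mul_nonneg hκ.le (NN_nonneg _ (le_max_right _ _)))
    {g | Continuous fun v => g (Sum.inr v)} (by
      intro g l hg hgl
      show Continuous fun v => l (Sum.inr v)
      have htl : TendstoLocallyUniformly (fun n v => g n (Sum.inr v)) (fun v => l (Sum.inr v)) Filter.atTop := by
        rw [Metric.tendstoLocallyUniformly_iff]
        intro ε hε v₀
        refine ⟨Metric.ball v₀ 1, Metric.ball_mem_nhds _ one_pos, ?_⟩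
        set B : ℝ := κ * (2 + |v₀|) ^ (4 * Q + 3) with hBd
        have hB0 : 0 ≤ B := by positivity
        have ht : Filter.Tendsto (fun n : ℕ => 2 * (1 / 2 : ℝ) ^ n * B) Filter.atTop (nhds 0) := by
          have := ((tendsto_pow_atTop_nhds_zero_of_lt_one (r := (1/2:ℝ)) (by norm_num) (by norm_num)).const_mul 2).mul_const B
          simpa using this
        filter_upwards [ht.eventually (gt_mem_nhds hε)] with n hn v hv
        rw [Metric.mem_ball, Real.dist_eq] at hv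
        rw [dist_comm, Real.dist_eq]
        refine lt_of_le_of_lt ((hgl n (Sum.inr v)).trans ?_) hn
        apply mul_le_mul_of_nonneg_left _ (by positivity)
        show κ * NN Q (max v 0) ≤ B
        apply mul_le_mul_of_nonneg_left _ hκ.le
        refine (NN_le Q (le_max_right _ _)).trans (pow_le_pow_left₀ (by positivity) ?_ _)
        have h1 : max v 0 ≤ |v| := max_le (le_abs_self _) (abs_nonneg _)
        have h2 : |v| ≤ |v₀| + 1 := by
          have := abs_sub_abs_le_abs_sub v v₀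
          linarith
        linarith
      exact htl.continuous (Filter.Frequently.of_forall fun n => hg n))
    (Ph Q j₀ a0 w) continuous_const
    (by
      intro g hg hgW
      show Continuous fun v => Ph Q j₀ a0 w g (Sum.inr v)
      have h := (ball g hg hgW).2.2.1
      refine Continuous.add ?_ h
      exact continuous_const.mul ((KK_cont_right hK1 (by omega) _).comp (continuous_id.max continuous_const)))
    (by
      intro g hg hgW i
      have h := ball g hg hgW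
      cases i with
      | inl p =>
        show |if _ then _ else _| ≤ W1 Q j₀ a0 p
        unfold W1
        split_ifs with hp
        · obtain ⟨hj, hpc⟩ := jc_spec hQp hp.2.2
          refine (h.1 _ hj p hpc hp.1).trans ?_
          have : 0 ≤ 1 / (Real.log p) ^ 2 := by positivity
          linarith
        · simp
      | inr v =>
        show |_ + _| ≤ κ * NN Q (max v 0)
        have h1 := hsrc (max v 0) (le_max_right _ _)
        have h2 := h.2.1 (max v 0) (le_max_right _ _)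
        have h3 : 0 ≤ κ * NN Q (max v 0) := mul_nonneg hκ.le (NN_nonneg _ (le_max_right _ _))
        refine (abs_add_le _ _).trans ?_
        have h4 : κ / 4 * NN Q (max v 0) = 1 / 4 * (κ * NN Q (max v 0)) := by ring
        rw [h4] at h1
        linarith)
    (by
      intro g hg g' hg' hgW hgW' D hD hd i
      have h := diff g g' hg hg' hgW hgW' D hD hd
      cases i with
      | inl p =>
        show |(if _ then _ else _) - (if _ then _ else _)| ≤ D / 2 * W1 Q j₀ a0 p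
        unfold W1
        split_ifs with hp
        · obtain ⟨hj, hpc⟩ := jc_spec hQp hp.2.2
          rw [← XL_sub hw hg hg']
          exact h.1 _ hj p hpc hp.1
        · simp
      | inr v =>
        have hv : (0:ℝ) ≤ max v 0 := le_max_right _ _
        show |(_ + _) - (_ + _)| ≤ D / 2 * (κ * NN Q (max v 0))
        rw [add_sub_add_left_eq_sub, ← FL_sub hK1 hw hg hg' _ (sumBL g hg hgW _ hv) (sumBL g' hg' hgW' _ hv)]
        exact h.2 (max v 0) hv)
  have hgC' : Continuous fun v => g (Sum.inr v) := hgC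
  have hb := ball g hgC' hgW
  set x : ℕ → ℝ := fun q => g (Sum.inl q) with hx
  set f : ℝ → ℝ := fun u => g (Sum.inr u) with hf
  have hxW : ∀ p, |x p| ≤ W1 Q j₀ a0 p := fun p => hgW (Sum.inl p)
  have hBf : ∀ j, j₀ ≤ j → ∀ v, Bf Q j₀ (Yy a0 x) f j v = BL Q j₀ a0 w (cf (Yy a0 x)) f j v := by
    intro j hj v
    refine Bf_eq_BL hK1 hw hgC' hQp (by omega) hj (fun p hp hpp hap => ?_) v
    have hpj : j₀ ^ (2 * Q) < p := by
      rw [mem_CC] at hp
      exact lt_of_le_of_lt (Nat.pow_le_pow_left hj _) hp.1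
    have h1 := hgfix (Sum.inl p)
    have h2 : Ph Q j₀ a0 w g (Sum.inl p) = XL Q j₀ a0 w (cf (Yy a0 x)) f (jc Q j₀ p) p := by
      show (if _ then _ else _) = _
      rw [if_pos ⟨hpp, hap, hpj⟩]
    have h3 : jc Q j₀ p = j := CC_unique (jc_spec hQp hpj).2 hp
    rw [h3] at h2
    unfold Yy
    rw [if_neg (by simpa using hap)]
    show g (Sum.inl p) = _
    rw [← h1, h2]
    rfl
  refine ⟨Yy a0 x, f, ?_, ?_⟩
  swap
  · intro p hp hap hpj
    unfold Yy
    rw [if_neg (by simpa using hap)]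
    refine (hxW p).trans ?_
    unfold W1
    rw [if_pos ⟨hp, hap, hpj⟩]
  refine
    { small := ?_
      big := ?_
      low := ?_
      cont := hgC'
      bd := ?_
      sumb := ?_
      eq := ?_ }
  · intro p hp hap
    unfold Yy
    rw [if_neg (by simpa using hap)]
    refine (hxW p).trans ?_
    unfold W1
    split_ifs with h
    · have h1 : (3:ℝ) ≤ p := by
        have : 3 ≤ j₀ ^ (2 * Q) := hj4.trans (Nat.le_self_pow (by omega) _)
        exact_mod_cast (this.trans h.2.2.le)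
      have h2 : 1 ≤ Real.log p := by
        rw [Real.le_log_iff_exp_le (by linarith)]
        have := Real.exp_one_lt_d9
        linarith
      rw [div_le_one (by positivity)]
      nlinarith
    · exact zero_le_one
  · intro p hap
    unfold Yy
    rw [if_pos hap]
  · intro p hp
    have hap : a0 p = 0 := by
      by_contra h
      have := (hBase.mem p h).2
      omega
    unfold Yy
    rw [if_neg (by simpa using hap)]
    have h1 := hxW p
    unfold W1 at h1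
    rw [if_neg (by omega)] at h1
    exact abs_nonpos_iff.1 h1
  · refine ⟨κ, fun v hv => ?_⟩
    have h1 := hgW (Sum.inr v)
    simp only [WW2, max_eq_left hv] at h1
    exact h1.trans (mul_le_mul_of_nonneg_left (NN_le Q hv) hκ.le)
  · obtain ⟨M, hMs, hMb⟩ := hb.2.2.2
    refine ⟨M, hMs, fun i v hv => ?_⟩
    rw [hBf (j₀ + i) (by omega) v]
    exact hMb i v hv
  · intro v hv
    have h1 := hgfix (Sum.inr v)
    have h2 : Ph Q j₀ a0 w g (Sum.inr v) = (vv Q j₀ 1) ^ 2 * KK (4 * Q + 4) (vv Q j₀ 1) (max v 0) +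
      FL Q j₀ a0 w (cf (Yy a0 x)) f (max v 0) := rfl
    rw [max_eq_left hv] at h2
    show g (Sum.inr v) = _
    rw [← h1, h2]
    unfold FL
    have h3 : ∀ i : ℕ, BL Q j₀ a0 w (cf (Yy a0 x)) f (j₀ + i) v = Bf Q j₀ (Yy a0 x) f (j₀ + i) v :=
      fun i => (hBf (j₀ + i) (by omega) v).symm
    simp_rw [h3]
    ring

end Pool.Agent.H483.IP
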