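import Pool.Agent.H483.IP.Mat
import Pool.Agent.H483.IP.Fin

/-! # Elements of the Selberg class with prescribed correlation matrices -/

set_option autoImplicit false

open Finset Filter

namespace Pool.Agent.H483.IP

open Pool.Agent.H878.BCSel (ff)
open Pool.Agent.H336R4
open Pool.Agent.H483

/-- **Sufficiency**, matrices -/
theorem gram_elt : ∃ Q : ℕ, 2 ≤ Q ∧ ∀ (n : ℕ) (C : ℝ → Matrix (Fin n) (Fin n) ℝ), (C 1).IsHermitian →
    (∀ x y : ℝ, 1 ≤ x → x ≤ y → (C y - C x).PosSemidef) → Slow (fun x => (C x).trace) →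
    ∃ (N : ℝ) (y : Fin n → ℕ → ℝ), 0 < N ∧ (∀ i, Elt (ff (y i)) N (4 * (Q : ℝ))) ∧ ∀ i j, ∃ D : ℝ, ∀ x : ℝ, 1 ≤ x →
      |∑ p ∈ (Ioc 0 ⌊x⌋₊).filter Nat.Prime, y i p * y j p / (p : ℝ) - C x i j| ≤ D := by
  classical
  obtain ⟨Q, hQ, hE0⟩ := exists_elt
  refine ⟨Q, hQ, fun n C hC1 hC hs => ?_⟩
  obtain ⟨Ψ, hΨ, hbase⟩ := exists_mat Pool.Agent.H469R10.HO.hoheisel hC1 hC hs
  have hl := lp_ell hΨ
  obtain ⟨J₀, hE⟩ := hE0 _ hl
  obtain ⟨J₁, hJ₁⟩ := base_small hl 1 one_pos
  set j₀ := max J₀ (max J₁ 3) with hj₀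
  have hj1 : J₁ ≤ j₀ := (le_max_left _ _).trans (le_max_right _ _)
  have hj3 : 3 ≤ j₀ := (le_max_right _ _).trans (le_max_right _ _)
  have hjN : j₀ ≤ j₀ ^ (2 * Q) := Nat.le_self_pow (by omega) j₀
  obtain ⟨a0, u, hLB, hu, hD⟩ := hbase (j₀ ^ (2 * Q))
  set N0 := j₀ ^ (2 * Q) with hN0
  set A : Fin n → ℕ → ℝ := fun i p => a0 p * u p i with hA
  have hAne : ∀ i p, A i p ≠ 0 → a0 p ≠ 0 := fun i p h h0 => h (by
    show a0 p * u p i = 0
    rw [h0, zero_mul])
  have hAB : ∀ i, LB (lp Ψ) N0 (A i) := by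
    intro i
    refine ⟨fun p hp => hLB.mem p (hAne i p hp), fun p hp => ?_, fun p q hp hq hpq =>
      hLB.sep p q (hAne i p hp) (hAne i q hq) hpq⟩
    refine le_trans ?_ (hLB.size p (hAne i p hp))
    show |a0 p * u p i| ≤ |a0 p|
    rw [abs_mul]
    exact mul_le_of_le_one_right (abs_nonneg _) (hu p i)
  have hex := fun i => hE j₀ (le_max_left _ _) (A i) (hAB i)
  choose y hy1 hy2 hy3 hy4 using hex
  have hj0 : (0 : ℝ) < j₀ := by
    have : 0 < j₀ := by omega
    exact_mod_cast this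
  refine ⟨(j₀ : ℝ) ^ (2 * Q), y, by positivity, hy1, fun i j => ?_⟩
  obtain ⟨T, hT⟩ := g_sum
  obtain ⟨D, hDij⟩ := hD i j
  refine ⟨D + (1 + 1 + T), fun x hx => ?_⟩
  have hDx := hDij x hx
  -- sum over primes
  have e2 : ∑ p ∈ Ioc 0 ⌊x⌋₊, (a0 p * u p i) * (a0 p * u p j) / (p : ℝ) =
      ∑ p ∈ (Ioc 0 ⌊x⌋₊).filter Nat.Prime, A i p * A j p / (p : ℝ) := by
    symm
    apply Finset.sum_subset (filter_subset _ _)
    intro p hp hp'
    have h3 : a0 p = 0 := by
      by_contra hne
      exact hp' (mem_filter.2 ⟨hp, (hLB.mem p hne).1⟩)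
    show a0 p * u p i * (a0 p * u p j) / (p : ℝ) = 0
    rw [h3]
    simp
  rw [e2] at hDx
  set S := (Ioc 0 ⌊x⌋₊).filter Nat.Prime with hS
  -- pointwise comparison
  have hpt : ∀ p ∈ S, |y i p * y j p / (p : ℝ) - A i p * A j p / p| ≤
      (if A i p ≠ 0 then (lp Ψ p) ^ 20 / (p : ℝ) else 0) + (if A j p ≠ 0 then (lp Ψ p) ^ 20 / (p : ℝ) else 0) +
        (if 2 < p then 1 / ((p : ℝ) * (Real.log p) ^ 4) else 0) := by
    intro p hp
    have hpp : p.Prime := (mem_filter.1 hp).2
    have hp0 : (0 : ℝ) < p := by exact_mod_cast hpp.pos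
    by_cases hpN : p ≤ N0
    · have hai : ∀ k, A k p = 0 := by
        intro k
        by_contra hne
        have := ((hAB k).mem p hne).2
        omega
      rw [hai i, hai j, hy4 i p hpN, if_neg (not_not.2 rfl), zero_mul, zero_mul, sub_self, abs_zero]
      have : 0 ≤ (Real.log (p : ℝ)) ^ 4 := Even.pow_nonneg (by decide) _
      split_ifs
      · positivity
      · linarith
    · have hp2 : 2 < p := by omega
      rw [if_pos hp2]
      have hlog : 1 ≤ Real.log p := by
        have h2 : (3 : ℝ) ≤ p := by exact_mod_cast hp2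
        rw [Real.le_log_iff_exp_le hp0]
        have := Real.exp_one_lt_d9
        linarith
      have hll : 1 ≤ lp Ψ p := (lp_ge hΨ p).1
      have hg0 : 0 ≤ 1 / ((p : ℝ) * (Real.log p) ^ 4) := by positivity
      have h20 : 0 ≤ (lp Ψ p) ^ 20 / (p : ℝ) := by positivity
      have hcross : ∀ a b : ℝ, |a| ≤ (lp Ψ p) ^ 12 → |b| ≤ 1 / (Real.log p) ^ 2 →
          |a * b / p| ≤ (lp Ψ p) ^ 20 / p := by
        intro a b ha hb
        rw [abs_div, abs_mul, abs_of_pos hp0]
        apply div_le_div_of_nonneg_right _ hp0.le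
        calc |a| * |b| ≤ (lp Ψ p) ^ 12 * (1 / (Real.log p) ^ 2) :=
              mul_le_mul ha hb (abs_nonneg _) (by positivity)
          _ ≤ (lp Ψ p) ^ 12 * 1 := by
              apply mul_le_mul_of_nonneg_left _ (by positivity)
              rw [div_le_one (by positivity)]
              exact one_le_pow₀ hlog
          _ ≤ (lp Ψ p) ^ 20 := by
              rw [mul_one]
              exact pow_le_pow_right₀ hll (by norm_num)
      by_cases c1 : A i p = 0
      · rw [c1, if_neg (not_not.2 rfl), zero_mul, zero_div, sub_zero, zero_add]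
        have h1 := hy3 i p hpp c1
        by_cases c2 : A j p = 0
        · rw [c2, if_neg (not_not.2 rfl), zero_add, abs_div, abs_mul, abs_of_pos hp0]
          have h2 := hy3 j p hpp c2
          calc |y i p| * |y j p| / (p : ℝ) ≤ (1 / (Real.log p) ^ 2) * (1 / (Real.log p) ^ 2) / p := by
                apply div_le_div_of_nonneg_right _ hp0.le
                exact mul_le_mul h1 h2 (abs_nonneg _) (by positivity)
            _ = 1 / ((p : ℝ) * (Real.log p) ^ 4) := by
                field_simp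
        · rw [if_pos c2]
          have h2 := (hAB j).size p c2
          have h3 := hcross (y j p) (y i p) (by rw [hy2 j p c2]; exact h2) h1
          rw [mul_comm (y j p)] at h3
          linarith
      · rw [if_pos c1]
        by_cases c2 : A j p = 0
        · rw [c2, if_neg (not_not.2 rfl), mul_zero, zero_div, sub_zero, add_zero]
          have h1 := hy3 j p hpp c2
          have h2 := (hAB i).size p c1
          have h3 := hcross (y i p) (y j p) (by rw [hy2 i p c1]; exact h2) h1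
          linarith
        · rw [if_pos c2, hy2 i p c1, hy2 j p c2, sub_self, abs_zero]
          linarith
  have hsum : |∑ p ∈ S, y i p * y j p / (p : ℝ) - ∑ p ∈ S, A i p * A j p / (p : ℝ)| ≤ 1 + 1 + T := by
    rw [← Finset.sum_sub_distrib]
    refine (Finset.abs_sum_le_sum_abs _ _).trans ((Finset.sum_le_sum hpt).trans ?_)
    rw [Finset.sum_add_distrib, Finset.sum_add_distrib]
    have h1 : ∑ p ∈ S, (if A i p ≠ 0 then (lp Ψ p) ^ 20 / (p : ℝ) else 0) ≤ 1 := by
      rw [← Finset.sum_filter]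
      exact hJ₁ N0 (hj1.trans hjN) _ (hAB i) S
    have h2 : ∑ p ∈ S, (if A j p ≠ 0 then (lp Ψ p) ^ 20 / (p : ℝ) else 0) ≤ 1 := by
      rw [← Finset.sum_filter]
      exact hJ₁ N0 (hj1.trans hjN) _ (hAB j) S
    have h3 : ∑ p ∈ S, (if 2 < p then 1 / ((p : ℝ) * (Real.log p) ^ 4) else 0) ≤ T := by
      rw [← Finset.sum_filter]
      exact hT _ fun p hp => (mem_filter.1 hp).2
    linarith
  rw [abs_le] at hsum hDx ⊢
  constructor <;> linarith [hsum.1, hsum.2, hDx.1, hDx.2]

/-- `∑_{p ≤ x} a(p) conj(b(p)) / p` -/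
noncomputable def CR (a b : ArithmeticFunction ℂ) (x : ℝ) : ℂ :=
  ∑ p ∈ (Finset.Iic ⌊x⌋₊).filter Nat.Prime, a p * starRingEnd ℂ (b p) / (p : ℂ)

lemma CR_self (a : ArithmeticFunction ℂ) (x : ℝ) : CR a a x = (SF a x : ℂ) := by
  unfold CR SF
  push_cast
  apply Finset.sum_congr rfl
  intro p _
  rw [Complex.mul_conj, Complex.normSq_eq_norm_sq]
  push_cast
  rfl

lemma CR_real (y z : ℕ → ℝ) (x : ℝ) : CR (toAF (ff y)) (toAF (ff z)) x =
    ((∑ p ∈ (Ioc 0 ⌊x⌋₊).filter Nat.Prime, y p * z p / (p : ℝ) : ℝ) : ℂ) := by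
  unfold CR
  rw [Complex.ofReal_sum]
  apply Finset.sum_congr
  · ext p
    rw [mem_filter, mem_filter, mem_Iic, mem_Ioc]
    exact ⟨fun h => ⟨⟨h.2.pos, h.1⟩, h.2⟩, fun h => ⟨h.1.2, h.2⟩⟩
  · intro p hp
    have hp' := (mem_filter.1 hp).2
    rw [toAF_apply _ hp'.ne_zero, toAF_apply _ hp'.ne_zero]
    show ((Pool.Agent.H96R3.BC.cf y p : ℝ) : ℂ) * starRingEnd ℂ ((Pool.Agent.H96R3.BC.cf z p : ℝ) : ℂ) / (p : ℂ) = _
    rw [Pool.Agent.H96R3.BC.cf_prime y hp', Pool.Agent.H96R3.BC.cf_prime z hp', Complex.conj_ofReal]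
    push_cast
    rfl

lemma CR_mul_left {a b : ArithmeticFunction ℂ} (ha : UF.S a) (hb : UF.S b) (c : ArithmeticFunction ℂ) (x : ℝ) :
    CR (a * b) c x = CR a c x + CR b c x := by
  unfold CR
  rw [← Finset.sum_add_distrib]
  refine Finset.sum_congr rfl fun p hp => ?_
  have hp' := (Finset.mem_filter.1 hp).2
  rw [ArithmeticFunction.mul_apply, Nat.sum_divisorsAntidiagonal (fun x y => a x * b y), hp'.sum_divisors]
  simp only [Nat.div_self hp'.pos, Nat.div_one, ha.one', hb.one', one_mul, mul_one]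
  ring

lemma CR_mul_right {a b : ArithmeticFunction ℂ} (ha : UF.S a) (hb : UF.S b) (c : ArithmeticFunction ℂ) (x : ℝ) :
    CR c (a * b) x = CR c a x + CR c b x := by
  unfold CR
  rw [← Finset.sum_add_distrib]
  refine Finset.sum_congr rfl fun p hp => ?_
  have hp' := (Finset.mem_filter.1 hp).2
  rw [ArithmeticFunction.mul_apply, Nat.sum_divisorsAntidiagonal (fun x y => a x * b y), hp'.sum_divisors]
  simp only [Nat.div_self hp'.pos, Nat.div_one, ha.one', hb.one', one_mul, mul_one, map_add]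
  ring

lemma CR_one_left (c : ArithmeticFunction ℂ) (x : ℝ) : CR 1 c x = 0 := by
  unfold CR
  refine Finset.sum_eq_zero fun p hp => ?_
  have hp' := (Finset.mem_filter.1 hp).2
  rw [ArithmeticFunction.one_apply_ne hp'.one_lt.ne', zero_mul, zero_div]

lemma CR_one_right (c : ArithmeticFunction ℂ) (x : ℝ) : CR c 1 x = 0 := by
  unfold CR
  refine Finset.sum_eq_zero fun p hp => ?_
  have hp' := (Finset.mem_filter.1 hp).2
  rw [ArithmeticFunction.one_apply_ne hp'.one_lt.ne', map_zero, mul_zero, zero_div]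

lemma CR_prod_right (a : ArithmeticFunction ℂ) (M : Multiset (ArithmeticFunction ℂ)) (x : ℝ) : (∀ b ∈ M, UF.S b) →
    CR a M.prod x = (M.map fun b => CR a b x).sum := by
  induction M using Multiset.induction_on with
  | empty => intro _; simp [CR_one_right]
  | cons b M ih =>
    intro hM
    have hM' : ∀ q ∈ M, UF.S q := fun q hq => hM q (Multiset.mem_cons_of_mem hq)
    rw [Multiset.prod_cons, Multiset.map_cons, Multiset.sum_cons, ← ih hM',
      CR_mul_right (hM b (Multiset.mem_cons_self b M)) (UF.S.prod hM')]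

lemma CR_prod (M M' : Multiset (ArithmeticFunction ℂ)) (hM' : ∀ a ∈ M', UF.S a) (x : ℝ) : (∀ a ∈ M, UF.S a) →
    CR M.prod M'.prod x = (M.map fun a => (M'.map fun b => CR a b x).sum).sum := by
  induction M using Multiset.induction_on with
  | empty => intro _; simp [CR_one_left]
  | cons b M ih =>
    intro hM
    have hM'' : ∀ q ∈ M, UF.S q := fun q hq => hM q (Multiset.mem_cons_of_mem hq)
    rw [Multiset.prod_cons, Multiset.map_cons, Multiset.sum_cons, ← ih hM'',
      CR_mul_left (hM b (Multiset.mem_cons_self b M)) (UF.S.prod hM''), CR_prod_right b M' x hM']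

/-- some term is at least the average -/
lemma avg {α : Type*} (M : Multiset α) (f : α → ℝ) (T : ℝ) (hT : 0 < T)
    (h : T ≤ (M.map f).sum) : ∃ P ∈ M, T ≤ M.card * f P := by
  have hM : M ≠ 0 := by
    rintro rfl
    simp at h
    linarith
  by_contra hc
  push Not at hc
  have h0 : 0 < (M.card : ℝ) := by
    have : 0 < M.card := Multiset.card_pos.2 hM
    exact_mod_cast this
  have h1 : (M.map f).sum < (M.map fun _ => T / M.card).sum := by
    apply Multiset.sum_lt_sum_of_nonempty hM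
    intro a ha
    rw [lt_div_iff₀ h0]
    linarith [hc a ha]
  rw [Multiset.map_const', Multiset.sum_replicate, nsmul_eq_mul] at h1
  have h2 : (M.card : ℝ) * (T / M.card) = T := by field_simp
  linarith

/-- some pair is very negative -/
lemma avg2 {α : Type*} (M M' : Multiset α) (f : α → α → ℝ) (T K : ℝ) (hT : 0 < T) (hK : (M.card : ℝ) ≤ K)
    (hK' : (M'.card : ℝ) ≤ K) (h : (M.map fun a => (M'.map fun b => f a b).sum).sum ≤ -T) :
    ∃ a ∈ M, ∃ b ∈ M', f a b ≤ -(T / K ^ 2) := by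
  have hneg : ∀ (M : Multiset α) (g : α → ℝ), (M.map fun a => -g a).sum = -(M.map g).sum := by
    intro M g
    induction M using Multiset.induction_on with
    | empty => simp
    | cons b M ih => rw [Multiset.map_cons, Multiset.sum_cons, ih, Multiset.map_cons, Multiset.sum_cons]; ring
  obtain ⟨a, ha, h1⟩ := avg M (fun a => -(M'.map fun b => f a b).sum) T hT (by rw [hneg]; linarith)
  have hc0 : (0 : ℝ) ≤ M.card := Nat.cast_nonneg _
  have hpos : 0 < -(M'.map fun b => f a b).sum := by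
    by_contra hcon
    push Not at hcon
    have := mul_nonpos_of_nonneg_of_nonpos hc0 hcon
    linarith
  obtain ⟨b, hb, h2⟩ := avg M' (fun b => -f a b) _ hpos (by rw [hneg])
  have hc0' : (0 : ℝ) ≤ M'.card := Nat.cast_nonneg _
  have hf : 0 < -f a b := by
    by_contra hcon
    push Not at hcon
    have := mul_nonpos_of_nonneg_of_nonpos hc0' hcon
    linarith
  have hK0 : 0 < K := by
    by_contra hcon
    push Not at hcon
    have : (M.card : ℝ) = 0 := le_antisymm (hK.trans hcon) hc0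
    rw [this, zero_mul] at h1
    linarith
  refine ⟨a, ha, b, hb, ?_⟩
  have h3 : T ≤ K ^ 2 * (-f a b) := by
    calc T ≤ M.card * (-(M'.map fun b => f a b).sum) := h1
      _ ≤ K * (M'.card * (-f a b)) := mul_le_mul hK h2 hpos.le hK0.le
      _ ≤ K * (K * (-f a b)) := mul_le_mul_of_nonneg_left (mul_le_mul_of_nonneg_right hK' hf.le) hK0.le
      _ = K ^ 2 * (-f a b) := by ring
  have h4 : T / K ^ 2 ≤ -f a b := by
    rw [div_le_iff₀ (by positivity)]
    linarith
  linarith

end Pool.Agent.H483.IP
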