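import Pool.Agent.H483.IP.SM

/-! # Sparse sets of primes in dyadic windows -/

set_option autoImplicit false

open Finset Filter

namespace Pool.Agent.H483.IP

open Pool.Agent.H469R10.HO (Hoheisel)

/-- the square of the values in the window `i` -/
noncomputable def E2 (i : ℕ) : ℝ := ((i : ℝ) * Real.log 2) ^ 24 / Real.sqrt i

lemma E2_nonneg (i : ℕ) : 0 ≤ E2 i := by
  unfold E2
  have : 0 < Real.log 2 := Real.log_pos (by norm_num)
  positivity

lemma E2_le {i : ℕ} (hi : 1 ≤ i) : E2 i ≤ (i : ℝ) ^ 24 := by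
  unfold E2
  have h0 : 0 < Real.log 2 := Real.log_pos (by norm_num)
  have h1 : Real.log 2 ≤ 1 := by linarith [Real.log_two_lt_d9]
  have hi' : (1 : ℝ) ≤ i := by exact_mod_cast hi
  have h2 : 1 ≤ Real.sqrt i := Real.one_le_sqrt.2 hi'
  calc ((i : ℝ) * Real.log 2) ^ 24 / Real.sqrt i ≤ ((i : ℝ) * Real.log 2) ^ 24 := div_le_self (by positivity) h2
    _ ≤ (i : ℝ) ^ 24 := pow_le_pow_left₀ (by positivity) (by nlinarith) 24

lemma ev_pow (k : ℕ) (a b : ℝ) (hb : 0 < b) : ∀ᶠ i : ℕ in atTop, a * (i : ℝ) ^ k ≤ b * 2 ^ i := by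
  have h := (tendsto_pow_const_div_const_pow_of_one_lt k (show (1:ℝ) < 2 by norm_num)).const_mul a
  rw [mul_zero] at h
  filter_upwards [h.eventually (gt_mem_nhds hb)] with i hi
  have h2 : (0 : ℝ) < 2 ^ i := by positivity
  have h3 : a * (i : ℝ) ^ k = (a * ((i : ℝ) ^ k / 2 ^ i)) * 2 ^ i := by field_simp
  rw [h3]
  exact mul_le_mul_of_nonneg_right hi.le h2.le

/-- one window -/
lemma window (hHo : Hoheisel) : ∃ c : ℝ, 0 < c ∧ ∃ i₀ : ℕ, 2 ≤ i₀ ∧ ∀ i : ℕ, i₀ ≤ i → ∃ W : Finset ℕ,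
    (∀ p ∈ W, p.Prime ∧ p ≤ 2 ^ (i + 1) ∧ 2 ^ i < p ∧ (2 : ℝ) ^ i + (Real.log (2 ^ (i + 1))) ^ 22 ≤ p) ∧
    (∀ p ∈ W, ∀ q ∈ W, p < q → (Real.log (2 ^ (i + 1))) ^ 22 ≤ (q : ℝ) - p) ∧
    c * Real.sqrt i ≤ ∑ p ∈ W, E2 i / p := by
  classical
  obtain ⟨δ, η, hδ, hδ1, hη, X₀, hX₀, hH⟩ := hHo
  have hl0 : 0 < Real.log 2 := Real.log_pos (by norm_num)
  have hl1 : Real.log 2 < 0.6931471808 := Real.log_two_lt_d9
  refine ⟨η * (Real.log 2) ^ 24 / 8, by positivity, ?_⟩
  obtain ⟨i₁, hi₁⟩ := eventually_atTop.1 (ev_pow 23 4 η hη)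
  refine ⟨max (max i₁ X₀) 4, le_trans (by norm_num) (le_max_right _ _), fun i hi => ?_⟩
  have h1 : i₁ ≤ i := ((le_max_left _ _).trans (le_max_left _ _)).trans hi
  have h2 : X₀ ≤ i := ((le_max_right _ _).trans (le_max_left _ _)).trans hi
  have h3 : 4 ≤ i := (le_max_right _ _).trans hi
  have hi4 : (4 : ℝ) ≤ i := by exact_mod_cast h3
  have hi0 : (0 : ℝ) < i := by linarith
  have hpow := hi₁ i h1
  have hX : X₀ ≤ 2 ^ i := h2.trans Nat.lt_two_pow_self.le
  have hcnt := hH (2 ^ i) (2 ^ i) hX (by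
    have h5 : (1 : ℝ) ≤ ((2 ^ i : ℕ) : ℝ) := by exact_mod_cast Nat.one_le_two_pow
    calc (((2 ^ i : ℕ) : ℝ)) ^ (1 - δ) ≤ (((2 ^ i : ℕ) : ℝ)) ^ (1 : ℝ) :=
          Real.rpow_le_rpow_of_exponent_le h5 (by linarith)
      _ = _ := Real.rpow_one _) le_rfl
  -- the block length
  set L : ℝ := (Real.log (2 ^ (i + 1))) ^ 22 with hL
  have hlog : Real.log ((2 : ℝ) ^ (i + 1)) = (i + 1) * Real.log 2 := by
    rw [Real.log_pow]; push_cast; ring
  have hL0 : 0 < L := by rw [hL, hlog]; positivity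
  have hLi : L ≤ (i : ℝ) ^ 22 := by
    rw [hL, hlog]
    apply pow_le_pow_left₀ (by positivity)
    nlinarith
  set B : ℕ := ⌈L⌉₊ with hB
  have hBL : L ≤ B := Nat.le_ceil _
  have hB0 : 0 < B := Nat.ceil_pos.2 hL0
  have hB2 : (B : ℝ) ≤ 2 * (i : ℝ) ^ 22 := by
    have h5 := Nat.ceil_lt_add_one hL0.le
    have h6 : (1 : ℝ) ≤ (i : ℝ) ^ 22 := one_le_pow₀ (by linarith)
    rw [← hB] at h5
    linarith
  set S := (Ioc (2 ^ i + B) (2 ^ (i + 1))).filter Nat.Prime with hS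
  -- the number of elements of S
  have hScard : η * 2 ^ i / (2 * i) ≤ (S.card : ℝ) := by
    have h5 : ((Ioc (2 ^ i) (2 ^ i + 2 ^ i)).filter Nat.Prime).card ≤ B + S.card := by
      have h6 : (Ioc (2 ^ i) (2 ^ i + 2 ^ i)).filter Nat.Prime ⊆ Ioc (2 ^ i) (2 ^ i + B) ∪ S := by
        intro p hp
        rw [mem_filter, mem_Ioc] at hp
        rw [mem_union, hS, mem_filter, mem_Ioc, mem_Ioc]
        have h7 : 2 ^ (i + 1) = 2 ^ i + 2 ^ i := by ring
        by_cases h8 : p ≤ 2 ^ i + B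
        · left; exact ⟨hp.1.1, h8⟩
        · right; exact ⟨⟨by omega, by omega⟩, hp.2⟩
      refine (card_le_card h6).trans ((card_union_le _ _).trans ?_)
      rw [Nat.card_Ioc]
      omega
    have h5' : (((Ioc (2 ^ i) (2 ^ i + 2 ^ i)).filter Nat.Prime).card : ℝ) ≤ B + S.card := by
      exact_mod_cast h5
    have h6 : Real.log ((2 ^ i : ℕ) : ℝ) = i * Real.log 2 := by
      push_cast; rw [Real.log_pow]
    rw [h6] at hcnt
    have h7 : η * 2 ^ i / i ≤ η * ((2 ^ i : ℕ) : ℝ) / (i * Real.log 2) := by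
      push_cast
      apply div_le_div_of_nonneg_left (by positivity) (by positivity)
      nlinarith
    have h8 : (B : ℝ) ≤ η * 2 ^ i / (2 * i) := by
      rw [le_div_iff₀ (by positivity)]
      calc (B : ℝ) * (2 * i) ≤ (2 * (i : ℝ) ^ 22) * (2 * i) := mul_le_mul_of_nonneg_right hB2 (by positivity)
        _ = 4 * (i : ℝ) ^ 23 := by ring
        _ ≤ η * 2 ^ i := hpow
    have h9 : η * 2 ^ i / i = η * 2 ^ i / (2 * i) + η * 2 ^ i / (2 * i) := by field_simp; ring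
    linarith
  -- pigeonhole on the residues modulo B
  obtain ⟨r, hr, hrc⟩ := Finset.exists_le_card_fiber_of_nsmul_le_card_of_maps_to (s := S) (t := range B)
    (f := fun p => p % B) (b := (S.card : ℝ) / B) (fun p _ => mem_range.2 (Nat.mod_lt _ hB0))
    ⟨0, mem_range.2 hB0⟩ (by
      rw [card_range, nsmul_eq_mul]
      have : (B : ℝ) ≠ 0 := by exact_mod_cast hB0.ne'
      field_simp
      exact le_rfl)
  refine ⟨S.filter (fun p => p % B = r), ?_, ?_, ?_⟩
  · intro p hp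
    rw [mem_filter, hS, mem_filter, mem_Ioc] at hp
    refine ⟨hp.1.2, hp.1.1.2, by omega, ?_⟩
    have h5 : ((2 ^ i + B : ℕ) : ℝ) ≤ p := by exact_mod_cast hp.1.1.1.le
    push_cast at h5
    linarith
  · intro p hp q hq hpq
    rw [mem_filter] at hp hq
    have h5 : B ∣ q - p := (Nat.modEq_iff_dvd' hpq.le).1 (by
      show p % B = q % B
      rw [hp.2, hq.2])
    have h6 : B ≤ q - p := Nat.le_of_dvd (by omega) h5
    have h7 : (B : ℝ) ≤ (q : ℝ) - p := by
      have h8 : p + B ≤ q := by omega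
      have h9 : (p : ℝ) + B ≤ q := by exact_mod_cast h8
      linarith
    linarith
  · set W := S.filter (fun p => p % B = r) with hW
    have h5 : (W.card : ℝ) * (E2 i / 2 ^ (i + 1)) ≤ ∑ p ∈ W, E2 i / p := by
      rw [← nsmul_eq_mul, ← Finset.sum_const]
      apply Finset.sum_le_sum
      intro p hp
      rw [hW, mem_filter, hS, mem_filter, mem_Ioc] at hp
      have h6 : (0 : ℝ) < p := by exact_mod_cast hp.1.2.pos
      apply div_le_div_of_nonneg_left (E2_nonneg i) h6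
      exact_mod_cast hp.1.1.2
    refine le_trans ?_ h5
    have h6 : η * 2 ^ i / (4 * (i : ℝ) ^ 23) ≤ (W.card : ℝ) := by
      refine le_trans ?_ hrc
      have hBpos : (0 : ℝ) < B := by exact_mod_cast hB0
      calc η * 2 ^ i / (4 * (i : ℝ) ^ 23) = (η * 2 ^ i / (2 * i)) / (2 * (i : ℝ) ^ 22) := by
            field_simp
            norm_num
        _ ≤ (S.card : ℝ) / (2 * (i : ℝ) ^ 22) := div_le_div_of_nonneg_right hScard (by positivity)
        _ ≤ (S.card : ℝ) / B := div_le_div_of_nonneg_left (Nat.cast_nonneg _) hBpos hB2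
    have h7 : η * (Real.log 2) ^ 24 / 8 * Real.sqrt i =
        (η * 2 ^ i / (4 * (i : ℝ) ^ 23)) * (E2 i / 2 ^ (i + 1)) := by
      unfold E2
      have h8 : (0 : ℝ) < Real.sqrt i := Real.sqrt_pos.2 hi0
      have h9 : (i : ℝ) = Real.sqrt i * Real.sqrt i := (Real.mul_self_sqrt hi0.le).symm
      have e1 : (η * 2 ^ i / (4 * (i : ℝ) ^ 23)) * (((i : ℝ) * Real.log 2) ^ 24 / Real.sqrt i / 2 ^ (i + 1)) =
          η * (Real.log 2) ^ 24 / 8 * (i / Real.sqrt i) := by
        rw [pow_succ (2 : ℝ) i, mul_pow]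
        field_simp
        ring
      rw [e1]
      congr 1
      rw [eq_div_iff h8.ne']
      exact h9.symm
    rw [h7]
    exact mul_le_mul_of_nonneg_right h6 (div_nonneg (E2_nonneg i) (by positivity))

/-- distribution of a window among the classes -/
lemma distribute (x : ℕ → ℝ) (m : ℝ) (hm : 0 ≤ m) (r : ℕ → ℝ) (hr : ∀ k, 0 ≤ r k) (K : ℕ) :
    ∀ W : Finset ℕ, (∀ p ∈ W, 0 ≤ x p ∧ x p ≤ m) → ∑ k ∈ range K, (r k + m) ≤ ∑ p ∈ W, x p →
    ∃ B : ℕ → Finset ℕ, (∀ k, B k ⊆ W) ∧ (∀ k, K ≤ k → B k = ∅) ∧ (∀ k l, k ≠ l → Disjoint (B k) (B l)) ∧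
      ∀ k, k < K → r k ≤ ∑ p ∈ B k, x p ∧ ∑ p ∈ B k, x p ≤ r k + m := by
  classical
  induction K with
  | zero =>
    intro W _ _
    exact ⟨fun _ => ∅, fun _ => empty_subset _, fun _ _ => rfl, fun _ _ _ => disjoint_empty_left _,
      fun k hk => absurd hk (by omega)⟩
  | succ K ih =>
    intro W hW h
    rw [sum_range_succ] at h
    have h0 : 0 ≤ ∑ k ∈ range K, (r k + m) := sum_nonneg fun k _ => add_nonneg (hr k) hm
    obtain ⟨A, hA, l₁, u₁⟩ := exists_part x m hm W hW (r K) (hr K) (by linarith)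
    have e₁ : ∑ p ∈ W, x p = ∑ p ∈ W \ A, x p + ∑ p ∈ A, x p := (sum_sdiff hA).symm
    obtain ⟨B, b1, b2, b3, b4⟩ := ih (W \ A) (fun p hp => hW p (mem_sdiff.1 hp).1) (by linarith)
    have hBA : ∀ k, Disjoint (B k) A := fun k => disjoint_of_subset_left (b1 k) sdiff_disjoint
    refine ⟨fun k => if k = K then A else B k, fun k => ?_, fun k hk => ?_, fun k l hkl => ?_, fun k hk => ?_⟩
    · show (if k = K then A else B k) ⊆ W
      split_ifs
      · exact hA
      · exact (b1 k).trans sdiff_subset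
    · show (if k = K then A else B k) = ∅
      rw [if_neg (by omega)]
      exact b2 k (by omega)
    · show Disjoint (if k = K then A else B k) (if l = K then A else B l)
      by_cases hk : k = K
      · rw [if_pos hk, if_neg (fun hl => hkl (hk.trans hl.symm))]
        exact (hBA l).symm
      · rw [if_neg hk]
        by_cases hl : l = K
        · rw [if_pos hl]; exact hBA k
        · rw [if_neg hl]; exact b3 k l hkl
    · show r k ≤ ∑ p ∈ (if k = K then A else B k), x p ∧ ∑ p ∈ (if k = K then A else B k), x p ≤ r k + m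
      by_cases hkK : k = K
      · rw [if_pos hkK, hkK]; exact ⟨l₁, u₁⟩
      · rw [if_neg hkK]; exact b4 k (by omega)

end Pool.Agent.H483.IP
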