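import Pool.Agent.H483.IP.Reg
import Pool.Agent.H483.IP.Win

/-! # A sparse set of primes adapted to a growth function -/

set_option autoImplicit false

open Finset Filter

namespace Pool.Agent.H483.IP

open Pool.Agent.H469R10.HO (Hoheisel)

lemma lp_ge {Ψ : ℕ → ℝ} (h : Slope Ψ) (n : ℕ) : 1 ≤ lp Ψ n ∧ Ψ n ≤ lp Ψ n := by
  unfold lp
  have h1 := h.one n
  have h2 := Real.log_natCast_nonneg n
  constructor <;> nlinarith

/-- one piece -/
lemma piece (hHo : Hoheisel) {Ψ : ℕ → ℝ} (hΨ : Slope Ψ) (Γ : ℝ) : ∃ X₁ : ℕ, 1 ≤ X₁ ∧ ∀ X : ℕ, X₁ ≤ X →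
    ∃ (Y : ℕ) (P : Finset ℕ), 1 ≤ Y ∧ Y ≤ X ∧ Ψ X * ((Y : ℝ) / X) ≤ 1 ∧
    (∀ p ∈ P, p.Prime ∧ p ≤ X + Y ∧ X < p ∧ (X : ℝ) + (lp Ψ (X + Y)) ^ 22 ≤ p) ∧
    (∀ p ∈ P, ∀ q ∈ P, p < q → (lp Ψ (X + Y)) ^ 22 ≤ (q : ℝ) - p) ∧
    Γ ≤ ∑ p ∈ P, (lp Ψ p) ^ 24 / p := by
  classical
  obtain ⟨δ, η, hδ, hδ1, hη, X₀, hX₀, hH⟩ := hHo
  have hl := lp_ell hΨ
  -- the growth conditions
  obtain ⟨n₁, hn₁⟩ := hl.hi (δ / 48) (by positivity)
  have hev : ∀ᶠ x : ℝ in atTop, (8 * 4 ^ 22 / η ≤ x ^ (δ / 2) ∧ 4 ≤ x ^ (δ / 2)) ∧ Γ * (16 * 4 ^ 22) / η ≤ 1 + Real.log x ∧ 3 ≤ x := by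
    have h1 := tendsto_rpow_atTop (show (0:ℝ) < δ / 2 by positivity)
    exact ((h1.eventually_ge_atTop _).and (h1.eventually_ge_atTop _)).and
      (((tendsto_atTop_add_const_left _ 1 Real.tendsto_log_atTop).eventually_ge_atTop _).and (eventually_ge_atTop 3))
  obtain ⟨x₂, hx₂⟩ := eventually_atTop.1 hev
  refine ⟨max (max n₁ X₀) (max ⌈x₂⌉₊ 1), (le_max_right _ _).trans (le_max_right _ _), fun X hX => ?_⟩
  have hXn : n₁ ≤ X := ((le_max_left _ _).trans (le_max_left _ _)).trans hX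
  have hXX : X₀ ≤ X := ((le_max_right _ _).trans (le_max_left _ _)).trans hX
  have hXx : x₂ ≤ X := (Nat.le_ceil _).trans (by exact_mod_cast ((le_max_left _ _).trans (le_max_right _ _)).trans hX)
  obtain ⟨⟨g1, g1'⟩, g2, g3⟩ := hx₂ X hXx
  have hX0 : (0 : ℝ) < X := by linarith
  have hX1 : (1 : ℝ) ≤ X := by linarith
  have hX3 : 3 ≤ X := by exact_mod_cast g3
  set L : ℝ := lp Ψ X with hL
  have hL1 : 1 ≤ L := (lp_ge hΨ X).1
  have hL0 : 0 < L := by linarith
  have hΨL : Ψ X ≤ L := (lp_ge hΨ X).2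
  have hΨ1 : 1 ≤ Ψ X := hΨ.one X
  have hΨ0 : 0 < Ψ X := by linarith
  have hLX : L ≤ (X : ℝ) ^ (δ / 48) := hn₁ X hXn
  have hlogL : Real.log X ≤ L := hl.lo X
  have hlog1 : 1 ≤ Real.log X := by
    rw [Real.le_log_iff_exp_le hX0]
    have := Real.exp_one_lt_d9
    linarith
  have hlog0 : 0 < Real.log X := by linarith
  set E : ℝ := (X : ℝ) ^ (δ / 2) with hE
  have hE1 : L ^ 24 ≤ E := by
    calc L ^ 24 ≤ ((X : ℝ) ^ (δ / 48)) ^ 24 := pow_le_pow_left₀ hL0.le hLX 24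
      _ = E := by
        rw [← Real.rpow_natCast, ← Real.rpow_mul hX0.le, hE]
        congr 1
        push_cast
        ring
  have hEL : L ≤ E := (le_self_pow₀ hL1 (by norm_num)).trans hE1
  have hEE : E * E = (X : ℝ) ^ δ := by
    rw [hE, ← Real.rpow_add hX0]
    congr 1
    ring
  have hEX : E * E ≤ X := by
    rw [hEE]
    calc (X : ℝ) ^ δ ≤ (X : ℝ) ^ (1 : ℝ) := Real.rpow_le_rpow_of_exponent_le hX1 hδ1.le
      _ = X := Real.rpow_one _
  have hE0 : 0 < E := by linarith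
  -- the length
  set Y : ℕ := ⌊(X : ℝ) / Ψ X⌋₊ with hY
  have h4 : 4 * Ψ X ≤ X := by nlinarith
  have hYle : (Y : ℝ) ≤ X / Ψ X := Nat.floor_le (by positivity)
  have hYge : X / (2 * Ψ X) ≤ (Y : ℝ) := by
    have h1 := (Nat.lt_floor_add_one ((X : ℝ) / Ψ X)).le
    rw [← hY] at h1
    have h2 : (2 : ℝ) ≤ X / Ψ X := by rw [le_div_iff₀ hΨ0]; linarith
    have h3 : (X : ℝ) / (2 * Ψ X) = X / Ψ X / 2 := by field_simp
    rw [h3]
    linarith
  have hY1 : 1 ≤ Y := by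
    rw [hY]
    apply Nat.le_floor
    rw [le_div_iff₀ hΨ0]
    push_cast
    linarith
  have hY0 : (0 : ℝ) < Y := by exact_mod_cast hY1
  have hYX' : (Y : ℝ) ≤ X := hYle.trans (div_le_self hX0.le hΨ1)
  have hYX : Y ≤ X := by exact_mod_cast hYX'
  have hYpow : (X : ℝ) ^ (1 - δ) ≤ Y := by
    rw [Real.rpow_sub hX0, Real.rpow_one, ← hEE]
    refine le_trans ?_ hYge
    apply div_le_div_of_nonneg_left hX0.le (by positivity)
    nlinarith
  have hcnt := hH X Y hXX hYpow hYX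
  -- the blocks
  set M : ℝ := (lp Ψ (X + Y)) ^ 22 with hM
  have hlXY : lp Ψ (X + Y) ≤ 4 * L := (hl.mono (by omega)).trans (hl.dbl X (by omega))
  have hM1 : 1 ≤ M := one_le_pow₀ (lp_ge hΨ (X + Y)).1
  have hM0 : 0 < M := by linarith
  have hML : M ≤ 4 ^ 22 * L ^ 22 := by
    rw [← mul_pow]
    exact pow_le_pow_left₀ (by linarith [(lp_ge hΨ (X + Y)).1]) hlXY 22
  set B : ℕ := ⌈M⌉₊ with hB
  have hBM : M ≤ B := Nat.le_ceil _
  have hB0 : 0 < B := Nat.ceil_pos.2 hM0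
  have hBr : (0 : ℝ) < B := by exact_mod_cast hB0
  have hB2 : (B : ℝ) ≤ 2 * 4 ^ 22 * L ^ 22 := by
    have h5 := Nat.ceil_lt_add_one hM0.le
    rw [← hB] at h5
    have h6 : (1 : ℝ) ≤ 4 ^ 22 * L ^ 22 := hM1.trans hML
    linarith
  set S := (Ioc (X + B) (X + Y)).filter Nat.Prime with hS
  have hScard : η * Y / (2 * Real.log X) ≤ (S.card : ℝ) := by
    have h5 : ((Ioc X (X + Y)).filter Nat.Prime).card ≤ B + S.card := by
      have h6 : (Ioc X (X + Y)).filter Nat.Prime ⊆ Ioc X (X + B) ∪ S := by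
        intro p hp
        rw [mem_filter, mem_Ioc] at hp
        rw [mem_union, hS, mem_filter, mem_Ioc, mem_Ioc]
        by_cases h8 : p ≤ X + B
        · left; exact ⟨hp.1.1, h8⟩
        · right; exact ⟨⟨by omega, hp.1.2⟩, hp.2⟩
      refine (card_le_card h6).trans ((card_union_le _ _).trans ?_)
      rw [Nat.card_Ioc]
      omega
    have h5' : (((Ioc X (X + Y)).filter Nat.Prime).card : ℝ) ≤ B + S.card := by
      exact_mod_cast h5
    have h8 : (B : ℝ) ≤ η * Y / (2 * Real.log X) := by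
      rw [le_div_iff₀ (by positivity)]
      have e1 : η * (X / (2 * Ψ X)) ≤ η * Y := mul_le_mul_of_nonneg_left hYge hη.le
      refine le_trans ?_ e1
      have e2 : η * (X / (2 * Ψ X)) = η * X / (2 * Ψ X) := by ring
      rw [e2, le_div_iff₀ (by positivity)]
      have e3 : 8 * 4 ^ 22 ≤ η * E := by
        rw [div_le_iff₀ hη] at g1
        linarith
      calc (B : ℝ) * (2 * Real.log X) * (2 * Ψ X) ≤ (2 * 4 ^ 22 * L ^ 22) * (2 * L) * (2 * L) := by
            apply mul_le_mul (mul_le_mul hB2 (by linarith) (by positivity) (by positivity)) (by linarith)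
              (by positivity) (by positivity)
        _ = (8 * 4 ^ 22) * L ^ 24 := by ring
        _ ≤ (η * E) * E := mul_le_mul e3 hE1 (by positivity) (by positivity)
        _ = η * (E * E) := by ring
        _ ≤ η * X := mul_le_mul_of_nonneg_left hEX hη.le
    have h9 : η * Y / Real.log X = η * Y / (2 * Real.log X) + η * Y / (2 * Real.log X) := by field_simp; ring
    linarith
  -- pigeonhole on the residues modulo B
  obtain ⟨r, hr, hrc⟩ := Finset.exists_le_card_fiber_of_nsmul_le_card_of_maps_to (s := S) (t := range B)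
    (f := fun p => p % B) (b := (S.card : ℝ) / B) (fun p _ => mem_range.2 (Nat.mod_lt _ hB0))
    ⟨0, mem_range.2 hB0⟩ (by
      rw [card_range, nsmul_eq_mul]
      field_simp
      exact le_rfl)
  refine ⟨Y, S.filter (fun p => p % B = r), hY1, hYX, ?_, ?_, ?_, ?_⟩
  · calc Ψ X * ((Y : ℝ) / X) ≤ Ψ X * ((X / Ψ X) / X) := by
          apply mul_le_mul_of_nonneg_left _ hΨ0.le
          exact div_le_div_of_nonneg_right hYle hX0.le
      _ = 1 := by field_simp
      _ ≤ 1 := le_rfl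
  · intro p hp
    rw [mem_filter, hS, mem_filter, mem_Ioc] at hp
    refine ⟨hp.1.2, hp.1.1.2, by omega, ?_⟩
    have h5 : ((X + B : ℕ) : ℝ) ≤ p := by exact_mod_cast hp.1.1.1.le
    push_cast at h5
    linarith
  · intro p hp q hq hpq
    rw [mem_filter] at hp hq
    have h5 : B ∣ q - p := (Nat.modEq_iff_dvd' hpq.le).1 (by
      show p % B = q % B
      rw [hp.2, hq.2])
    have h6 : B ≤ q - p := Nat.le_of_dvd (by omega) h5
    have h7 : (B : ℝ) ≤ (q : ℝ) - p := by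
      have h8 : p + B ≤ q := by omega
      have h9 : (p : ℝ) + B ≤ q := by exact_mod_cast h8
      linarith
    linarith
  · set W := S.filter (fun p => p % B = r) with hW
    have h5 : (W.card : ℝ) * (L ^ 24 / (2 * X)) ≤ ∑ p ∈ W, (lp Ψ p) ^ 24 / p := by
      rw [← nsmul_eq_mul, ← Finset.sum_const]
      apply Finset.sum_le_sum
      intro p hp
      rw [hW, mem_filter, hS, mem_filter, mem_Ioc] at hp
      have h6 : (0 : ℝ) < p := by exact_mod_cast hp.1.2.pos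
      have h7 : (p : ℝ) ≤ 2 * X := by
        have : p ≤ 2 * X := by omega
        exact_mod_cast this
      have h8 : L ≤ lp Ψ p := hl.mono (by omega)
      exact div_le_div₀ (by positivity) (pow_le_pow_left₀ hL0.le h8 24) h6 h7
    refine le_trans ?_ h5
    have h6 : (η * Y / (2 * Real.log X)) / (2 * 4 ^ 22 * L ^ 22) ≤ (W.card : ℝ) := by
      refine le_trans ?_ hrc
      calc (η * Y / (2 * Real.log X)) / (2 * 4 ^ 22 * L ^ 22) ≤ (S.card : ℝ) / (2 * 4 ^ 22 * L ^ 22) :=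
            div_le_div_of_nonneg_right hScard (by positivity)
        _ ≤ (S.card : ℝ) / B := div_le_div_of_nonneg_left (Nat.cast_nonneg _) hBr hB2
    refine le_trans ?_ (mul_le_mul_of_nonneg_right h6 (by positivity))
    -- the capacity
    have e1 : (η * Y / (2 * Real.log X)) / (2 * 4 ^ 22 * L ^ 22) * (L ^ 24 / (2 * X)) =
        η / (8 * 4 ^ 22) * (L ^ 2 * Y / (X * Real.log X)) := by
      field_simp
      ring
    rw [e1]
    have e2 : (1 + Real.log X) / 2 ≤ L ^ 2 * Y / (X * Real.log X) := by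
      rw [le_div_iff₀ (by positivity)]
      have e3 : L = Ψ X * (1 + Real.log X) := rfl
      have e4 : L ^ 2 * (X / (2 * Ψ X)) ≤ L ^ 2 * Y := mul_le_mul_of_nonneg_left hYge (by positivity)
      refine le_trans ?_ e4
      have e5 : L ^ 2 * (X / (2 * Ψ X)) = Ψ X * (1 + Real.log X) ^ 2 / 2 * X := by
        rw [e3]
        field_simp
      rw [e5]
      have e6 : (1 + Real.log X) * Real.log X ≤ Ψ X * (1 + Real.log X) ^ 2 := by nlinarith
      nlinarith
    have e3 : Γ ≤ η / (8 * 4 ^ 22) * ((1 + Real.log X) / 2) := by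
      rw [div_le_iff₀ hη] at g2
      rw [div_mul_div_comm, le_div_iff₀ (by positivity)]
      linarith
    exact e3.trans (mul_le_mul_of_nonneg_left e2 (by positivity))

end Pool.Agent.H483.IP
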