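import Pool.Agent.H483.IP.Grow

/-! # A base with prescribed growth -/

set_option autoImplicit false

open Finset Filter

namespace Pool.Agent.H483.IP

open Pool.Agent.H469R10.HO (Hoheisel)

theorem exists_base2 (hHo : Hoheisel) {R : ℝ → ℝ} (hR : ∀ x y : ℝ, 1 ≤ x → x ≤ y → R x ≤ R y) (hs : Slow R) :
    ∃ Ψ : ℕ → ℝ, Slope Ψ ∧ ∀ N0 : ℕ, ∃ a0 : ℕ → ℝ, LB (lp Ψ) N0 a0 ∧
      (∃ U : ℝ, 0 ≤ U ∧ ∀ n : ℕ, (a0 (n + 1)) ^ 2 / ((n + 1 : ℕ) : ℝ) ≤ U) ∧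
      (∀ n : ℕ, a0 (n + 1) ≠ 0 → ∑ p ∈ Ioc 0 n, (a0 p) ^ 2 / (p : ℝ) < R ((n + 1 : ℕ) : ℝ)) ∧
      ∃ D : ℝ, ∀ x : ℝ, 1 ≤ x → |∑ p ∈ Ioc 0 ⌊x⌋₊, (a0 p) ^ 2 / (p : ℝ) - R x| ≤ D := by
  classical
  obtain ⟨C, Ψ, hC, hΨ, hreg⟩ := reg hs
  refine ⟨Ψ, hΨ, fun N0 => ?_⟩
  have hl := lp_ell hΨ
  obtain ⟨X₁, hX₁, hp⟩ := piece hHo hΨ (C + 1)
  choose! Y P h1 h2 h3 h4 h5 h6 using hp
  -- the grid
  set g : ℕ → ℕ := fun m => Nat.rec (max N0 X₁) (fun _ x => x + Y x) m with hg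
  have g0 : g 0 = max N0 X₁ := rfl
  have gs : ∀ m, g (m + 1) = g m + Y (g m) := fun m => rfl
  have gX : ∀ m, X₁ ≤ g m := by
    intro m
    induction m with
    | zero => rw [g0]; exact le_max_right _ _
    | succ m ih => rw [gs]; omega
  have glt : ∀ m, g m < g (m + 1) := by
    intro m
    rw [gs]
    have := h1 (g m) (gX m)
    omega
  have gmono : StrictMono g := strictMono_nat_of_lt_succ glt
  have gN : ∀ m, N0 ≤ g m := fun m => (le_max_left N0 X₁).trans (gmono.monotone (Nat.zero_le m))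
  have g1 : ∀ m, 1 ≤ g m := fun m => hX₁.trans (gX m)
  have hW1 : ∀ m, ∀ p ∈ P (g m), p.Prime ∧ g m < p ∧ p ≤ g (m + 1) := fun m p hp =>
    ⟨(h4 (g m) (gX m) p hp).1, (h4 (g m) (gX m) p hp).2.2.1, (h4 (g m) (gX m) p hp).2.1⟩
  set W : Set ℕ := {p | ∃ m, p ∈ P (g m)} with hW
  -- the recursion
  set s : ℕ → ℝ := fun n => Nat.rec (0 : ℝ)
    (fun n t => t + if (n + 1) ∈ W ∧ t < R ((n + 1 : ℕ) : ℝ) then (lp Ψ (n + 1)) ^ 24 / ((n + 1 : ℕ) : ℝ) else 0) n with hsd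
  have s0 : s 0 = 0 := rfl
  have ss : ∀ n, s (n + 1) = s n + if (n + 1) ∈ W ∧ s n < R ((n + 1 : ℕ) : ℝ) then
      (lp Ψ (n + 1)) ^ 24 / ((n + 1 : ℕ) : ℝ) else 0 := fun n => rfl
  have hstep : ∀ n, 0 ≤ if (n + 1) ∈ W ∧ s n < R ((n + 1 : ℕ) : ℝ) then
      (lp Ψ (n + 1)) ^ 24 / ((n + 1 : ℕ) : ℝ) else 0 := by
    intro n
    split_ifs
    · have := (lp_ge hΨ (n + 1)).1
      positivity
    · exact le_rfl
  have smono : Monotone s := monotone_nat_of_le_succ fun n => by rw [ss]; linarith [hstep n]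
  set a0 : ℕ → ℝ := fun n => if n ≠ 0 ∧ n ∈ W ∧ s (n - 1) < R (n : ℝ) then (lp Ψ n) ^ 12 else 0 with ha0
  have ha0n : ∀ n, a0 n ≠ 0 → n ∈ W := by
    intro n hn
    rw [ha0] at hn
    by_contra hc
    exact hn (if_neg fun h => hc h.2.1)
  have hsq : ∀ n, (a0 (n + 1)) ^ 2 / ((n + 1 : ℕ) : ℝ) = if (n + 1) ∈ W ∧ s n < R ((n + 1 : ℕ) : ℝ) then
      (lp Ψ (n + 1)) ^ 24 / ((n + 1 : ℕ) : ℝ) else 0 := by
    intro n
    show (if n + 1 ≠ 0 ∧ n + 1 ∈ W ∧ s (n + 1 - 1) < R ((n + 1 : ℕ) : ℝ) then (lp Ψ (n + 1)) ^ 12 else 0) ^ 2 /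
      ((n + 1 : ℕ) : ℝ) = _
    by_cases hc : (n + 1) ∈ W ∧ s n < R ((n + 1 : ℕ) : ℝ)
    · rw [if_pos hc, if_pos ⟨Nat.succ_ne_zero n, hc⟩, ← pow_mul]
    · rw [if_neg hc, if_neg (fun h => hc h.2)]
      simp
  have hsum : ∀ n, s n = ∑ p ∈ Ioc 0 n, (a0 p) ^ 2 / (p : ℝ) := by
    intro n
    induction n with
    | zero => rw [s0]; simp
    | succ n ih =>
      rw [Finset.sum_Ioc_succ_top (Nat.zero_le _), ss, hsq, ← ih]
  -- the sparse set
  have hsep : ∀ p ∈ W, ∀ q ∈ W, p < q → (lp Ψ q) ^ 22 ≤ (q : ℝ) - p := by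
    rintro p ⟨m, hpm⟩ q ⟨m', hqm⟩ hpq
    have hq := h4 (g m') (gX m') q hqm
    have hlq : (lp Ψ q) ^ 22 ≤ (lp Ψ (g m' + Y (g m'))) ^ 22 :=
      pow_le_pow_left₀ (by linarith [(lp_ge hΨ q).1]) (hl.mono hq.2.1) 22
    rcases lt_trichotomy m m' with hmm | hmm | hmm
    · have h7 : p ≤ g m' := (hW1 m p hpm).2.2.trans (gmono.monotone hmm)
      have h8 : (p : ℝ) ≤ g m' := by exact_mod_cast h7
      linarith [hq.2.2.2]
    · subst hmm
      exact hlq.trans (h5 (g m) (gX m) p hpm q hqm hpq)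
    · exfalso
      have h7 : q ≤ g m := hq.2.1.trans (gmono.monotone hmm)
      have h8 := (hW1 m p hpm).2.1
      omega
  have hLB : LB (lp Ψ) N0 a0 := by
    refine ⟨fun p hp => ?_, fun p hp => ?_, fun p q hp hq hpq => hsep p (ha0n p hp) q (ha0n q hq) hpq⟩
    · obtain ⟨m, hm⟩ := ha0n p hp
      exact ⟨(hW1 m p hm).1, lt_of_le_of_lt (gN m) (hW1 m p hm).2.1⟩
    · have hl1 := (lp_ge hΨ p).1
      show |if p ≠ 0 ∧ p ∈ W ∧ s (p - 1) < R (p : ℝ) then (lp Ψ p) ^ 12 else 0| ≤ (lp Ψ p) ^ 12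
      split_ifs
      · rw [abs_of_nonneg (by positivity)]
      · rw [abs_zero]; positivity
  -- the size of the jumps
  obtain ⟨U, hU0, hU⟩ : ∃ U : ℝ, 0 ≤ U ∧ ∀ n : ℕ, (lp Ψ (n + 1)) ^ 24 / ((n + 1 : ℕ) : ℝ) ≤ U := by
    obtain ⟨N, hN⟩ := hl.hi (1 / 24) (by norm_num)
    refine ⟨max 1 ((lp Ψ N) ^ 24), le_trans zero_le_one (le_max_left _ _), fun n => ?_⟩
    have hn0 : (0 : ℝ) < ((n + 1 : ℕ) : ℝ) := by positivity
    have hl0 : 0 ≤ lp Ψ (n + 1) := by linarith [(lp_ge hΨ (n + 1)).1]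
    by_cases hn : N ≤ n + 1
    · refine le_trans ?_ (le_max_left _ _)
      rw [div_le_one hn0]
      calc (lp Ψ (n + 1)) ^ 24 ≤ (((n + 1 : ℕ) : ℝ) ^ ((1 : ℝ) / 24)) ^ 24 := pow_le_pow_left₀ hl0 (hN _ hn) 24
        _ = ((n + 1 : ℕ) : ℝ) := by
          rw [← Real.rpow_natCast, ← Real.rpow_mul hn0.le]
          norm_num
    · refine le_trans ?_ (le_max_right _ _)
      refine (div_le_self (by positivity) (by push_cast; linarith [(Nat.cast_nonneg n : (0:ℝ) ≤ n)])).trans ?_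
      exact pow_le_pow_left₀ hl0 (hl.mono (by omega)) 24
  refine ⟨a0, hLB, ⟨U, hU0, fun n => ?_⟩, fun n hn => ?_, ?_⟩
  · rw [hsq]
    split_ifs
    · exact hU n
    · exact hU0
  · rw [← hsum]
    by_contra hcon
    exact hn (if_neg fun h => hcon h.2.2)
  have hRn : ∀ a b : ℕ, 1 ≤ a → a ≤ b → R (a : ℝ) ≤ R (b : ℝ) := fun a b ha hab =>
    hR a b (by exact_mod_cast ha) (by exact_mod_cast hab)
  have hup : ∀ n : ℕ, 1 ≤ n → s n ≤ |R 1| + R (n : ℝ) + U := by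
    intro n hn
    induction n, hn using Nat.le_induction with
    | base =>
      have e1 : s 1 = s 0 + _ := ss 0
      rw [e1, s0]
      have e2 := neg_abs_le (R 1)
      push_cast
      have e3 : (if (0 + 1) ∈ W ∧ (0 : ℝ) < R (((0 + 1 : ℕ)) : ℝ) then (lp Ψ (0 + 1)) ^ 24 / (((0 + 1 : ℕ)) : ℝ) else 0) ≤ U := by
        split_ifs
        · exact hU 0
        · exact hU0
      push_cast at e3
      linarith
    | succ n hn ih =>
      rw [ss]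
      have e1 := hRn n (n + 1) hn (Nat.le_succ n)
      have e2 := abs_nonneg (R 1)
      split_ifs with hc
      · have := hU n
        linarith [hc.2]
      · linarith
  set D1 : ℝ := |R ((g 0 : ℕ) : ℝ)| + C + 1 with hD1
  have hgr : ∀ m, R ((g (m + 1) : ℕ) : ℝ) ≤ R ((g m : ℕ) : ℝ) + C + 1 := by
    intro m
    have e1 := hreg (g m) (Y (g m)) (g1 m) (h2 (g m) (gX m))
    have e2 := h3 (g m) (gX m)
    rw [gs]
    push_cast
    linarith
  have hlow : ∀ m, R ((g m : ℕ) : ℝ) - s (g m) ≤ D1 := by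
    intro m
    induction m with
    | zero =>
      have e1 : 0 ≤ s (g 0) := by rw [← s0]; exact smono (Nat.zero_le _)
      have e2 := le_abs_self (R ((g 0 : ℕ) : ℝ))
      linarith
    | succ m ih =>
      by_cases hall : ∀ p ∈ P (g m), s (p - 1) < R (p : ℝ)
      · have e1 : s (g (m + 1)) - s (g m) = ∑ p ∈ Ioc (g m) (g (m + 1)), (a0 p) ^ 2 / (p : ℝ) := by
          rw [hsum, hsum, ← Finset.sum_Ioc_consecutive _ (Nat.zero_le _) (glt m).le]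
          ring
        have e2 : ∑ p ∈ P (g m), (lp Ψ p) ^ 24 / (p : ℝ) ≤ ∑ p ∈ Ioc (g m) (g (m + 1)), (a0 p) ^ 2 / (p : ℝ) := by
          have e3 : ∀ p ∈ P (g m), (lp Ψ p) ^ 24 / (p : ℝ) = (a0 p) ^ 2 / (p : ℝ) := by
            intro p hp
            have e4 : a0 p = (lp Ψ p) ^ 12 := if_pos ⟨(hW1 m p hp).1.ne_zero, ⟨m, hp⟩, hall p hp⟩
            rw [e4, ← pow_mul]
          rw [Finset.sum_congr rfl e3]
          apply Finset.sum_le_sum_of_subset_of_nonneg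
          · intro p hp
            rw [mem_Ioc]
            exact (hW1 m p hp).2
          · intro p _ _
            positivity
        have e3 := h6 (g m) (gX m)
        have e4 := hgr m
        linarith
      · push Not at hall
        obtain ⟨p, hp, hps⟩ := hall
        have e1 : s (p - 1) ≤ s (g (m + 1)) := smono (by have := (hW1 m p hp).2.2; omega)
        have e2 := hRn (g m) p (g1 m) (hW1 m p hp).2.1.le
        have e3 := hgr m
        have e4 := abs_nonneg (R ((g 0 : ℕ) : ℝ))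
        linarith
  refine ⟨|R 1| + U + D1 + C + 1, fun x hx => ?_⟩
  rw [← hsum]
  set n := ⌊x⌋₊ with hn
  have hn1 : 1 ≤ n := Nat.le_floor (by exact_mod_cast hx)
  have hnx : (n : ℝ) ≤ x := Nat.floor_le (by linarith)
  have hxn : x < n + 1 := Nat.lt_floor_add_one x
  have hup' := hup n hn1
  have hRx := hR n x (by exact_mod_cast hn1) hnx
  have hs_nn : 0 ≤ s n := by rw [← s0]; exact smono (Nat.zero_le _)
  have hA := abs_nonneg (R 1)
  have hB := abs_nonneg (R ((g 0 : ℕ) : ℝ))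
  have hlow' : R x ≤ s n + (D1 + C + 1) := by
    by_cases hc : n < g 0
    · have e1 : x ≤ g 0 := by
        have : ((n + 1 : ℕ) : ℝ) ≤ g 0 := by exact_mod_cast hc
        push_cast at this
        linarith
      have e2 := hR x _ hx e1
      have e3 := le_abs_self (R ((g 0 : ℕ) : ℝ))
      linarith
    · have hex : ∃ m, n < g m := ⟨n + 1, lt_of_lt_of_le (Nat.lt_succ_self n) gmono.le_apply⟩
      set k := Nat.find hex with hk
      have hk1 : n < g k := Nat.find_spec hex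
      have hk0 : k ≠ 0 := by
        intro h0
        rw [h0] at hk1
        exact hc hk1
      obtain ⟨m, hm⟩ := Nat.exists_eq_succ_of_ne_zero hk0
      have hm1 : g m ≤ n := by
        by_contra hcc
        have := Nat.find_min' hex (not_le.1 hcc)
        omega
      rw [hm] at hk1
      have e1 : x ≤ g (m + 1) := by
        have : ((n + 1 : ℕ) : ℝ) ≤ g (m + 1) := by exact_mod_cast hk1
        push_cast at this
        linarith
      have e2 := hR x _ hx e1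
      have e3 := hgr m
      have e4 := hlow m
      have e5 := smono hm1
      linarith
  rw [abs_le]
  constructor <;> linarith

theorem exists_base (hHo : Hoheisel) {R : ℝ → ℝ} (hR : ∀ x y : ℝ, 1 ≤ x → x ≤ y → R x ≤ R y) (hs : Slow R) :
    ∃ Ψ : ℕ → ℝ, Slope Ψ ∧ ∀ N0 : ℕ, ∃ a0 : ℕ → ℝ, LB (lp Ψ) N0 a0 ∧ ∃ D : ℝ, ∀ x : ℝ, 1 ≤ x →
      |∑ p ∈ Ioc 0 ⌊x⌋₊, (a0 p) ^ 2 / (p : ℝ) - R x| ≤ D := by
  obtain ⟨Ψ, hΨ, h⟩ := exists_base2 hHo hR hs
  refine ⟨Ψ, hΨ, fun N0 => ?_⟩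
  obtain ⟨a0, h1, _, _, h4⟩ := h N0
  exact ⟨a0, h1, h4⟩

end Pool.Agent.H483.IP
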