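import Pool.Agent.H483.IP.Grow2

/-! # Bases with prescribed correlation matrices -/

set_option autoImplicit false

open Finset Filter Matrix

namespace Pool.Agent.H483.IP

variable {n : ℕ}

/-- quadratic form -/
noncomputable def qf (M : Matrix (Fin n) (Fin n) ℝ) (x : Fin n → ℝ) : ℝ := x ⬝ᵥ (M *ᵥ x)

lemma qf_sub (A B : Matrix (Fin n) (Fin n) ℝ) (x : Fin n → ℝ) : qf (A - B) x = qf A x - qf B x := by
  unfold qf; rw [Matrix.sub_mulVec, dotProduct_sub]

lemma qf_add (A B : Matrix (Fin n) (Fin n) ℝ) (x : Fin n → ℝ) : qf (A + B) x = qf A x + qf B x := by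
  unfold qf; rw [Matrix.add_mulVec, dotProduct_add]

lemma qf_rank (w : ℝ) (u x : Fin n → ℝ) : qf (w • vecMulVec u u) x = w * (u ⬝ᵥ x) ^ 2 := by
  unfold qf
  rw [Matrix.smul_mulVec, dotProduct_smul, vecMulVec_mulVec, dotProduct_smul, dotProduct_comm x u]
  simp only [smul_eq_mul, MulOpposite.smul_eq_mul_unop, MulOpposite.unop_op]
  ring

lemma qf_zero (x : Fin n → ℝ) : qf (0 : Matrix (Fin n) (Fin n) ℝ) x = 0 := by
  unfold qf; rw [Matrix.zero_mulVec, dotProduct_zero]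

lemma bil (E : Matrix (Fin n) (Fin n) ℝ) (hE : E.IsHermitian) (x y : Fin n → ℝ) :
    x ⬝ᵥ (E *ᵥ y) = y ⬝ᵥ (E *ᵥ x) := by
  have hT : Eᵀ = E := by
    have := hE
    unfold Matrix.IsHermitian at this
    rwa [conjTranspose_eq_transpose_of_trivial] at this
  rw [dotProduct_comm, ← Matrix.vecMul_transpose, hT, ← Matrix.dotProduct_mulVec]

/-- the direction of largest deficit -/
lemma dir (E : Matrix (Fin n) (Fin n) ℝ) (hE : E.IsHermitian) (ht : 0 < E.trace) {U w : ℝ}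
    (hU : ∀ x, 0 ≤ qf E x + U * (x ⬝ᵥ x)) (hw : w ≤ U) :
    ∃ u : Fin n → ℝ, u ⬝ᵥ u = 1 ∧ ∀ x, 0 ≤ qf E x - w * (u ⬝ᵥ x) ^ 2 + U * (x ⬝ᵥ x) := by
  obtain ⟨i, hi⟩ : ∃ i, 0 < hE.eigenvalues i := by
    by_contra hc
    push Not at hc
    have h1 := hE.trace_eq_sum_eigenvalues
    have h2 : ∑ i, hE.eigenvalues i ≤ 0 := Finset.sum_nonpos fun i _ => hc i
    have h3 : E.trace = ∑ i, hE.eigenvalues i := by rw [h1]; rfl
    linarith
  set v : EuclideanSpace ℝ (Fin n) := hE.eigenvectorBasis i with hv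
  set u : Fin n → ℝ := ⇑v with hu
  have hEu : E *ᵥ u = hE.eigenvalues i • u := hE.mulVec_eigenvectorBasis i
  have huu : u ⬝ᵥ u = 1 := by
    have h1 : ‖v‖ = 1 := hE.eigenvectorBasis.orthonormal.1 i
    have h2 : ‖v‖ ^ 2 = u ⬝ᵥ u := by
      rw [EuclideanSpace.norm_sq_eq]
      unfold dotProduct
      apply Finset.sum_congr rfl
      intro j _
      rw [Real.norm_eq_abs, sq_abs, hu]
      ring
    rw [← h2, h1]; norm_num
  set lam := hE.eigenvalues i with hlam
  refine ⟨u, huu, fun x => ?_⟩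
  set α := u ⬝ᵥ x with hα
  set z : Fin n → ℝ := x - α • u with hz
  have huz : u ⬝ᵥ z = 0 := by
    rw [hz, dotProduct_sub, dotProduct_smul, huu, smul_eq_mul, mul_one, ← hα, sub_self]
  have hzu : z ⬝ᵥ u = 0 := by rw [dotProduct_comm]; exact huz
  have hx : x = α • u + z := by rw [hz]; abel
  have e1 : x ⬝ᵥ x = α ^ 2 + z ⬝ᵥ z := by
    conv_lhs => rw [hx]
    rw [dotProduct_add, add_dotProduct, add_dotProduct, smul_dotProduct, smul_dotProduct, dotProduct_smul,
      dotProduct_smul, huu, huz, hzu]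
    simp only [smul_eq_mul]
    ring
  have e2 : qf E x = α ^ 2 * lam + qf E z := by
    unfold qf
    conv_lhs => rw [hx]
    rw [Matrix.mulVec_add, Matrix.mulVec_smul, hEu, dotProduct_add, add_dotProduct, add_dotProduct, smul_dotProduct,
      smul_dotProduct, dotProduct_smul, dotProduct_smul, dotProduct_smul, dotProduct_smul, huu, hzu,
      bil E hE u z, hEu, dotProduct_smul, hzu]
    simp only [smul_eq_mul]
    ring
  have h3 := hU z
  rw [e1, e2]
  have h4 : 0 ≤ α ^ 2 * (lam - w + U) := mul_nonneg (sq_nonneg _) (by linarith)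
  nlinarith

/-- entries of a matrix bounded below, with bounded trace -/
lemma entries (M : Matrix (Fin n) (Fin n) ℝ) (hM : M.IsHermitian) {U D : ℝ} (hU0 : 0 ≤ U)
    (hU : ∀ x, 0 ≤ qf M x + U * (x ⬝ᵥ x)) (hD : M.trace ≤ D) (i j : Fin n) : |M i j| ≤ D + n * U + U := by
  classical
  have hd : ∀ k, 0 ≤ M k k + U := by
    intro k
    have := hU (Pi.single k 1)
    unfold qf at this
    simpa using this
  have htr : ∑ k, (M k k + U) ≤ D + n * U := by
    rw [Finset.sum_add_distrib, Finset.sum_const, Finset.card_univ, Fintype.card_fin, nsmul_eq_mul]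
    have : ∑ k, M k k = M.trace := rfl
    linarith
  have hle : ∀ k, M k k + U ≤ D + n * U := fun k =>
    (Finset.single_le_sum (f := fun k => M k k + U) (fun i _ => hd i) (Finset.mem_univ k)).trans htr
  have hsym : M j i = M i j := by
    have := hM.apply i j
    simpa using this
  by_cases hij : i = j
  · subst hij
    have h1 := hd i
    have h2 := hle i
    rw [abs_le]
    constructor <;> linarith
  · have h1 := hU (Pi.single i 1 + Pi.single j 1)
    have h2 := hU (Pi.single i 1 - Pi.single j 1)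
    unfold qf at h1 h2
    simp only [Matrix.mulVec_add, Matrix.mulVec_sub, add_dotProduct, dotProduct_add, sub_dotProduct, dotProduct_sub,
      Matrix.mulVec_single_one, single_one_dotProduct, Matrix.col_apply, Pi.single_eq_same,
      Pi.single_eq_of_ne hij, Pi.single_eq_of_ne (Ne.symm hij), hsym] at h1 h2
    have h3 := hle i
    have h4 := hle j
    rw [abs_le]
    constructor <;> linarith

open Pool.Agent.H469R10.HO (Hoheisel)

lemma qf_psd {M : Matrix (Fin n) (Fin n) ℝ} (h : M.PosSemidef) (x : Fin n → ℝ) : 0 ≤ qf M x := by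
  have := h.dotProduct_mulVec_nonneg x
  simpa [qf] using this

theorem exists_mat (hHo : Hoheisel) {C : ℝ → Matrix (Fin n) (Fin n) ℝ} (h1 : (C 1).IsHermitian)
    (hC : ∀ x y : ℝ, 1 ≤ x → x ≤ y → (C y - C x).PosSemidef) (hs : Slow (fun x => (C x).trace)) :
    ∃ Ψ : ℕ → ℝ, Slope Ψ ∧ ∀ N0 : ℕ, ∃ (a0 : ℕ → ℝ) (u : ℕ → Fin n → ℝ), LB (lp Ψ) N0 a0 ∧ (∀ p i, |u p i| ≤ 1) ∧
      ∀ i j, ∃ D : ℝ, ∀ x : ℝ, 1 ≤ x →
        |∑ p ∈ Ioc 0 ⌊x⌋₊, (a0 p * u p i) * (a0 p * u p j) / (p : ℝ) - C x i j| ≤ D := by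
  classical
  have hR : ∀ x y : ℝ, 1 ≤ x → x ≤ y → (C x).trace ≤ (C y).trace := by
    intro x y hx hxy
    have := (hC x y hx hxy).trace_nonneg
    rw [Matrix.trace_sub] at this
    linarith
  have hCH : ∀ x : ℝ, 1 ≤ x → (C x).IsHermitian := by
    intro x hx
    have h2 := (hC 1 x le_rfl hx).1.add h1
    rwa [sub_add_cancel] at h2
  obtain ⟨Ψ, hΨ, hb⟩ := exists_base2 hHo hR hs
  refine ⟨Ψ, hΨ, fun N0 => ?_⟩
  obtain ⟨a0, hLB, ⟨U₁, hU₁0, hU₁⟩, hdef, D, hD⟩ := hb N0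
  -- the lower bound of the deficits
  obtain ⟨U₂, hU₂⟩ : ∃ U₂ : ℝ, ∀ x : Fin n → ℝ, 0 ≤ qf (C 1) x + U₂ * (x ⬝ᵥ x) := by
    refine ⟨∑ i, ∑ j, |C 1 i j|, fun x => ?_⟩
    have hb1 : ∀ i j : Fin n, |x i * x j| ≤ x ⬝ᵥ x := by
      intro i j
      have e1 : ∀ k, x k ^ 2 ≤ x ⬝ᵥ x := fun k => by
        unfold dotProduct
        have := Finset.single_le_sum (f := fun k => x k * x k) (fun i _ => mul_self_nonneg (x i)) (Finset.mem_univ k)
        simpa [sq] using this
      have e2 := e1 i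
      have e3 := e1 j
      rw [abs_mul]
      have e4 := sq_nonneg (|x i| - |x j|)
      nlinarith [sq_abs (x i), sq_abs (x j)]
    have hq : |qf (C 1) x| ≤ (∑ i, ∑ j, |C 1 i j|) * (x ⬝ᵥ x) := by
      have e1 : qf (C 1) x = ∑ i, ∑ j, C 1 i j * (x i * x j) := by
        unfold qf dotProduct Matrix.mulVec dotProduct
        apply Finset.sum_congr rfl
        intro i _
        rw [Finset.mul_sum]
        apply Finset.sum_congr rfl
        intro j _
        ring
      rw [e1, Finset.sum_mul]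
      refine (Finset.abs_sum_le_sum_abs _ _).trans (Finset.sum_le_sum fun i _ => ?_)
      rw [Finset.sum_mul]
      refine (Finset.abs_sum_le_sum_abs _ _).trans (Finset.sum_le_sum fun j _ => ?_)
      rw [abs_mul]
      exact mul_le_mul_of_nonneg_left (hb1 i j) (abs_nonneg _)
    linarith [(abs_le.1 hq).1]
  have hxx : ∀ x : Fin n → ℝ, 0 ≤ x ⬝ᵥ x := fun x => Finset.sum_nonneg fun i _ => mul_self_nonneg _
  set U : ℝ := max U₁ (max U₂ 0) with hUdef
  have hU0 : 0 ≤ U := (le_max_right _ _).trans (le_max_right _ _)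
  have hU1 : U₁ ≤ U := le_max_left _ _
  have hU2 : U₂ ≤ U := (le_max_left _ _).trans (le_max_right _ _)
  have hC1 : ∀ x : Fin n → ℝ, 0 ≤ qf (C 1) x + U * (x ⬝ᵥ x) := fun x => by
    have := mul_le_mul_of_nonneg_right hU2 (hxx x)
    linarith [hU₂ x]
  -- the directions
  set pick : Matrix (Fin n) (Fin n) ℝ → ℝ → (Fin n → ℝ) := fun E w =>
    if h : ∃ u : Fin n → ℝ, u ⬝ᵥ u = 1 ∧ ∀ x, 0 ≤ qf E x - w * (u ⬝ᵥ x) ^ 2 + U * (x ⬝ᵥ x) then h.choose else 0 with hpick
  have hpick1 : ∀ E w, (∃ u : Fin n → ℝ, u ⬝ᵥ u = 1 ∧ ∀ x, 0 ≤ qf E x - w * (u ⬝ᵥ x) ^ 2 + U * (x ⬝ᵥ x)) →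
      pick E w ⬝ᵥ pick E w = 1 ∧ ∀ x, 0 ≤ qf E x - w * (pick E w ⬝ᵥ x) ^ 2 + U * (x ⬝ᵥ x) := by
    intro E w h
    have e : pick E w = h.choose := dif_pos h
    rw [e]
    exact h.choose_spec
  have hpick2 : ∀ E w, ∀ i, |pick E w i| ≤ 1 := by
    intro E w i
    by_cases h : ∃ u : Fin n → ℝ, u ⬝ᵥ u = 1 ∧ ∀ x, 0 ≤ qf E x - w * (u ⬝ᵥ x) ^ 2 + U * (x ⬝ᵥ x)
    · have h2 := (hpick1 E w h).1
      rw [abs_le_one_iff_mul_self_le_one, ← h2]
      exact Finset.single_le_sum (f := fun k => pick E w k * pick E w k) (fun i _ => mul_self_nonneg _)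
        (Finset.mem_univ i)
    · have e : pick E w = 0 := dif_neg h
      rw [e]
      simp
  set w : ℕ → ℝ := fun m => (a0 (m + 1)) ^ 2 / ((m + 1 : ℕ) : ℝ) with hw
  have hw0 : ∀ m, 0 ≤ w m := fun m => by
    show 0 ≤ (a0 (m + 1)) ^ 2 / ((m + 1 : ℕ) : ℝ)
    positivity
  set T : ℕ → Matrix (Fin n) (Fin n) ℝ := fun m => Nat.rec (0 : Matrix (Fin n) (Fin n) ℝ)
    (fun m T => T + w m • vecMulVec (pick (C ((m + 1 : ℕ) : ℝ) - T) (w m)) (pick (C ((m + 1 : ℕ) : ℝ) - T) (w m))) m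
    with hT
  have T0 : T 0 = 0 := rfl
  have Ts : ∀ m, T (m + 1) = T m + w m • vecMulVec (pick (C ((m + 1 : ℕ) : ℝ) - T m) (w m))
      (pick (C ((m + 1 : ℕ) : ℝ) - T m) (w m)) := fun m => rfl
  set u : ℕ → Fin n → ℝ := fun p => pick (C ((p : ℕ) : ℝ) - T (p - 1)) (w (p - 1)) with hu
  have hus : ∀ m, u (m + 1) = pick (C ((m + 1 : ℕ) : ℝ) - T m) (w m) := fun m => rfl
  have Tsum : ∀ m i j, T m i j = ∑ p ∈ Ioc 0 m, (a0 p * u p i) * (a0 p * u p j) / (p : ℝ) := by
    intro m i j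
    induction m with
    | zero => rw [T0]; simp
    | succ m ih =>
      rw [Finset.sum_Ioc_succ_top (Nat.zero_le _), Ts, Matrix.add_apply, ih, Matrix.smul_apply, vecMulVec_apply,
        ← hus, smul_eq_mul]
      congr 1
      show (a0 (m + 1)) ^ 2 / ((m + 1 : ℕ) : ℝ) * (u (m + 1) i * u (m + 1) j) = _
      ring
  have TH : ∀ m, (T m).IsHermitian := by
    intro m
    ext i j
    rw [Matrix.conjTranspose_apply, star_trivial, Tsum, Tsum]
    exact Finset.sum_congr rfl fun p _ => by ring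
  -- the invariants
  have inv : ∀ m, (T m).trace = ∑ p ∈ Ioc 0 m, (a0 p) ^ 2 / (p : ℝ) ∧
      ∀ x, 0 ≤ qf (C ((max m 1 : ℕ) : ℝ) - T m) x + U * (x ⬝ᵥ x) := by
    intro m
    induction m with
    | zero =>
      refine ⟨by rw [T0]; simp, fun x => ?_⟩
      rw [T0, sub_zero]
      simpa using hC1 x
    | succ m ih =>
      obtain ⟨i1, i2⟩ := ih
      have hmax : max (m + 1) 1 = m + 1 := max_eq_left (by omega)
      rw [hmax, Finset.sum_Ioc_succ_top (Nat.zero_le _), ← i1]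
      -- the deficit before the step
      set E := C ((m + 1 : ℕ) : ℝ) - T m with hE
      have hEU : ∀ x, 0 ≤ qf E x + U * (x ⬝ᵥ x) := by
        intro x
        have e1 : ((1 : ℕ) : ℝ) ≤ ((max m 1 : ℕ) : ℝ) := by exact_mod_cast le_max_right m 1
        have e2 := qf_psd (hC ((max m 1 : ℕ) : ℝ) ((m + 1 : ℕ) : ℝ) (by simp)
          (by exact_mod_cast (max_le (by omega) (by omega) : max m 1 ≤ m + 1))) x
        have e3 := i2 x
        rw [hE, qf_sub]
        rw [qf_sub] at e2 e3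
        linarith
      have hTs : T (m + 1) = T m + w m • vecMulVec (pick E (w m)) (pick E (w m)) := Ts m
      by_cases ha : a0 (m + 1) = 0
      · have hwm : w m = 0 := by
          show (a0 (m + 1)) ^ 2 / ((m + 1 : ℕ) : ℝ) = 0
          rw [ha]; simp
        have e1 : T (m + 1) = T m := by rw [hTs, hwm, zero_smul, add_zero]
        rw [e1, ha]
        refine ⟨by simp, hEU⟩
      · have ht : 0 < E.trace := by
          have e1 := hdef m ha
          rw [hE, Matrix.trace_sub, i1]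
          linarith
        have hEH : E.IsHermitian := (hCH _ (by
          have : (1 : ℝ) ≤ ((m + 1 : ℕ) : ℝ) := by exact_mod_cast Nat.succ_le_succ (Nat.zero_le m)
          exact this)).sub (TH m)
        have hwU : w m ≤ U := (hU₁ m).trans hU1
        obtain ⟨p1, p2⟩ := hpick1 E (w m) (dir E hEH ht hEU hwU)
        refine ⟨?_, fun x => ?_⟩
        · rw [hTs, Matrix.trace_add, Matrix.trace_smul, Matrix.trace_vecMulVec, p1, smul_eq_mul, mul_one]
        · have e1 : C ((m + 1 : ℕ) : ℝ) - T (m + 1) = E - w m • vecMulVec (pick E (w m)) (pick E (w m)) := by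
            rw [hTs, hE]; abel
          rw [e1, qf_sub, qf_rank]
          exact p2 x
  refine ⟨a0, u, hLB, fun p i => hpick2 _ _ i, fun i j => ⟨D + n * U + U, fun x hx => ?_⟩⟩
  set m := ⌊x⌋₊ with hm
  have hm1 : 1 ≤ m := Nat.le_floor (by exact_mod_cast hx)
  have hmx : (m : ℝ) ≤ x := Nat.floor_le (by linarith)
  obtain ⟨i1, i2⟩ := inv m
  rw [max_eq_left hm1] at i2
  rw [← Tsum, abs_sub_comm]
  have e1 : C x i j - T m i j = (C x - T m) i j := rfl
  rw [e1]
  apply entries _ ((hCH x hx).sub (TH m)) hU0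
  · intro v
    have e2 := qf_psd (hC (m : ℝ) x (by exact_mod_cast hm1) hmx) v
    have e3 := i2 v
    rw [qf_sub]
    rw [qf_sub] at e2 e3
    linarith
  · rw [Matrix.trace_sub, i1]
    have := (abs_le.1 (hD x hx)).1
    linarith

end Pool.Agent.H483.IP
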