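import Pool.Agent.H483.IP.SM

/-! # Growth functions: regularisation and pieces -/

set_option autoImplicit false

open Finset Filter

namespace Pool.Agent.H483.IP

open Pool.Agent.H469R10.HO (Hoheisel)

/-- The growth condition: bounded jumps and slopes `x^(o(1)) / x`. -/
def Slow (R : ℝ → ℝ) : Prop := ∃ C : ℝ, ∀ ε : ℝ, 0 < ε → ∃ K : ℝ, ∀ x y : ℝ, 1 ≤ x → 0 ≤ y → y ≤ x →
  R (x + y) ≤ R x + C + K * x ^ ε * (y / x)

/-- slope functions -/
structure Slope (Ψ : ℕ → ℝ) : Prop where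
  one : ∀ n, 1 ≤ Ψ n
  mono : Monotone Ψ
  dbl : ∀ n, Ψ (2 * n) ≤ 2 * Ψ n
  hi : ∀ ε : ℝ, 0 < ε → ∃ K : ℝ, ∀ n : ℕ, 1 ≤ n → Ψ n ≤ K * (n : ℝ) ^ ε

lemma reg {R : ℝ → ℝ} (h : Slow R) : ∃ (C : ℝ) (Ψ : ℕ → ℝ), 0 ≤ C ∧ Slope Ψ ∧
    ∀ n m : ℕ, 1 ≤ n → m ≤ n → R (n + m) ≤ R n + C + Ψ n * (m / n) := by
  obtain ⟨C, h⟩ := h
  have h' : ∀ m : ℕ, ∃ K : ℝ, 1 ≤ K ∧ ∀ x y : ℝ, 1 ≤ x → 0 ≤ y → y ≤ x →
      R (x + y) ≤ R x + max C 0 + K * x ^ (1 / ((m : ℝ) + 1)) * (y / x) := by
    intro m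
    obtain ⟨K, hK⟩ := h (1 / ((m : ℝ) + 1)) (by positivity)
    refine ⟨max K 1, le_max_right _ _, fun x y hx hy hyx => ?_⟩
    have h1 := hK x y hx hy hyx
    have h2 : K * x ^ (1 / ((m : ℝ) + 1)) * (y / x) ≤ max K 1 * x ^ (1 / ((m : ℝ) + 1)) * (y / x) := by
      have h3 : 0 ≤ x ^ (1 / ((m : ℝ) + 1)) := by positivity
      have h4 : 0 ≤ y / x := div_nonneg hy (by linarith)
      exact mul_le_mul_of_nonneg_right (mul_le_mul_of_nonneg_right (le_max_left _ _) h3) h4
    have h5 := le_max_left C 0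
    linarith
  choose K hK1 hK using h'
  set T : ℕ → ℕ → ℝ := fun n m => K m * ((max n 1 : ℕ) : ℝ) ^ (1 / ((m : ℝ) + 1)) with hT
  have hT1 : ∀ n m, 1 ≤ T n m := by
    intro n m
    have h1 : (1 : ℝ) ≤ ((max n 1 : ℕ) : ℝ) := by exact_mod_cast le_max_right n 1
    have h2 : (1 : ℝ) ≤ ((max n 1 : ℕ) : ℝ) ^ (1 / ((m : ℝ) + 1)) := Real.one_le_rpow h1 (by positivity)
    calc (1 : ℝ) = 1 * 1 := (one_mul 1).symm
      _ ≤ K m * ((max n 1 : ℕ) : ℝ) ^ (1 / ((m : ℝ) + 1)) := mul_le_mul (hK1 m) h2 zero_le_one (by linarith [hK1 m])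
  have hbdd : ∀ n, BddBelow (Set.range (T n)) := fun n => ⟨1, by rintro _ ⟨m, rfl⟩; exact hT1 n m⟩
  refine ⟨max C 0, fun n => ⨅ m, T n m, le_max_right _ _, ⟨?_, ?_, ?_, ?_⟩, ?_⟩
  · intro n
    exact le_ciInf fun m => hT1 n m
  · intro a b hab
    refine ciInf_mono (hbdd a) fun m => ?_
    apply mul_le_mul_of_nonneg_left _ (by linarith [hK1 m])
    apply Real.rpow_le_rpow (Nat.cast_nonneg _) _ (by positivity)
    exact_mod_cast max_le_max_right 1 hab
  · intro n
    have h1 : (⨅ m, T (2 * n) m) / 2 ≤ ⨅ m, T n m := by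
      refine le_ciInf fun m => ?_
      have h2 : (⨅ m, T (2 * n) m) ≤ T (2 * n) m := ciInf_le (hbdd _) m
      have h3 : T (2 * n) m ≤ 2 * T n m := by
        have h4 : ((max (2 * n) 1 : ℕ) : ℝ) ≤ 2 * ((max n 1 : ℕ) : ℝ) := by
          have : max (2 * n) 1 ≤ 2 * max n 1 := by omega
          exact_mod_cast this
        have h5 : ((max (2 * n) 1 : ℕ) : ℝ) ^ (1 / ((m : ℝ) + 1)) ≤ 2 * ((max n 1 : ℕ) : ℝ) ^ (1 / ((m : ℝ) + 1)) := by
          calc ((max (2 * n) 1 : ℕ) : ℝ) ^ (1 / ((m : ℝ) + 1)) ≤ (2 * ((max n 1 : ℕ) : ℝ)) ^ (1 / ((m : ℝ) + 1)) :=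
                Real.rpow_le_rpow (Nat.cast_nonneg _) h4 (by positivity)
            _ = 2 ^ (1 / ((m : ℝ) + 1)) * ((max n 1 : ℕ) : ℝ) ^ (1 / ((m : ℝ) + 1)) :=
                Real.mul_rpow (by norm_num) (Nat.cast_nonneg _)
            _ ≤ 2 * ((max n 1 : ℕ) : ℝ) ^ (1 / ((m : ℝ) + 1)) := by
                apply mul_le_mul_of_nonneg_right _ (by positivity)
                calc (2 : ℝ) ^ (1 / ((m : ℝ) + 1)) ≤ 2 ^ (1 : ℝ) := by
                      apply Real.rpow_le_rpow_of_exponent_le (by norm_num)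
                      rw [div_le_one (by positivity)]
                      have : (0 : ℝ) ≤ m := Nat.cast_nonneg m
                      linarith
                  _ = 2 := Real.rpow_one 2
        calc T (2 * n) m ≤ K m * (2 * ((max n 1 : ℕ) : ℝ) ^ (1 / ((m : ℝ) + 1))) :=
              mul_le_mul_of_nonneg_left h5 (by linarith [hK1 m])
          _ = 2 * T n m := by rw [hT]; ring
      linarith
    show (⨅ m, T (2 * n) m) ≤ 2 * ⨅ m, T n m
    linarith
  · intro ε hε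
    obtain ⟨m, hm⟩ := exists_nat_gt (1 / ε)
    refine ⟨K m, fun n hn => (ciInf_le (hbdd n) m).trans ?_⟩
    have h1 : max n 1 = n := max_eq_left hn
    show K m * ((max n 1 : ℕ) : ℝ) ^ (1 / ((m : ℝ) + 1)) ≤ K m * (n : ℝ) ^ ε
    rw [h1]
    apply mul_le_mul_of_nonneg_left _ (by linarith [hK1 m])
    apply Real.rpow_le_rpow_of_exponent_le (by exact_mod_cast hn)
    rw [div_le_iff₀ (by positivity)]
    rw [div_lt_iff₀ hε] at hm
    nlinarith
  · intro n m hn hmn
    have hn1 : (1 : ℝ) ≤ n := by exact_mod_cast hn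
    have hm1 : (m : ℝ) ≤ n := by exact_mod_cast hmn
    rcases Nat.eq_zero_or_pos m with h0 | h0
    · have := hK 0 n 0 hn1 le_rfl (by linarith)
      rw [h0]
      simp only [Nat.cast_zero, add_zero, zero_div, mul_zero] at this ⊢
      exact this
    · have hm0 : (0 : ℝ) < m := by exact_mod_cast h0
      have hmn0 : (0 : ℝ) < m / n := by positivity
      have h1 : (R (n + m) - R n - max C 0) / (m / n) ≤ ⨅ k, T n k := by
        refine le_ciInf fun k => ?_
        rw [div_le_iff₀ hmn0]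
        have h2 := hK k n m hn1 hm0.le hm1
        have h3 : T n k = K k * (n : ℝ) ^ (1 / ((k : ℝ) + 1)) := by
          show K k * ((max n 1 : ℕ) : ℝ) ^ (1 / ((k : ℝ) + 1)) = _
          rw [max_eq_left hn]
        rw [h3]
        linarith
      rw [div_le_iff₀ hmn0] at h1
      show R (n + m) ≤ R n + max C 0 + (⨅ k, T n k) * (m / n)
      linarith

/-- the size function of a slope function -/
noncomputable def lp (Ψ : ℕ → ℝ) (n : ℕ) : ℝ := Ψ n * (1 + Real.log n)

lemma lp_ell {Ψ : ℕ → ℝ} (h : Slope Ψ) : Ell (lp Ψ) := by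
  have hlog : ∀ n : ℕ, 0 ≤ Real.log (n : ℝ) := Real.log_natCast_nonneg
  refine ⟨fun n => ?_, fun a b hab => ?_, fun n hn => ?_, fun ε hε => ?_⟩
  · unfold lp
    have := h.one n
    have := hlog n
    nlinarith
  · unfold lp
    have h1 : Real.log (a : ℝ) ≤ Real.log b := by
      rcases Nat.eq_zero_or_pos a with h0 | h0
      · rw [h0]; simpa using hlog b
      · exact Real.log_le_log (by exact_mod_cast h0) (by exact_mod_cast hab)
    exact mul_le_mul (h.mono hab) (by linarith) (by linarith [hlog a]) (by linarith [h.one b])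
  · unfold lp
    have hn0 : (0 : ℝ) < n := by
      have : 0 < n := by omega
      exact_mod_cast this
    have h1 : Real.log ((2 * n : ℕ) : ℝ) = Real.log 2 + Real.log n := by
      push_cast
      rw [Real.log_mul (by norm_num) hn0.ne']
    rw [h1]
    have h2 := Real.log_two_lt_d9
    have h3 := Real.log_pos (show (1:ℝ) < 2 by norm_num)
    calc Ψ (2 * n) * (1 + (Real.log 2 + Real.log n)) ≤ (2 * Ψ n) * (2 * (1 + Real.log n)) := by
          apply mul_le_mul (h.dbl n) _ (by linarith [hlog n]) (by linarith [h.one n])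
          linarith [hlog n]
      _ = 4 * (Ψ n * (1 + Real.log n)) := by ring
  · obtain ⟨K, hK⟩ := h.hi (ε / 2) (by positivity)
    have h1 : ∀ᶠ x : ℝ in atTop, |K| * (1 + Real.log x) ≤ x ^ (ε / 2) := by
      have := (isLittleO_log_rpow_atTop (show (0:ℝ) < ε / 2 by positivity)).bound
        (c := 1 / (2 * (|K| + 1))) (by positivity)
      have h2 := (tendsto_rpow_atTop (show (0:ℝ) < ε / 2 by positivity)).eventually_ge_atTop (2 * |K|)
      filter_upwards [this, eventually_ge_atTop (1 : ℝ), h2] with x hx hx1 hx2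
      rw [Real.norm_of_nonneg (Real.log_nonneg hx1), Real.norm_of_nonneg (by positivity)] at hx
      have hK0 := abs_nonneg K
      have h3 : |K| * Real.log x ≤ x ^ (ε / 2) / 2 := by
        calc |K| * Real.log x ≤ (|K| + 1) * (1 / (2 * (|K| + 1)) * x ^ (ε / 2)) :=
              mul_le_mul (by linarith) hx (Real.log_nonneg hx1) (by linarith)
          _ = x ^ (ε / 2) / 2 := by field_simp
      linarith
    obtain ⟨x₀, hx₀⟩ := eventually_atTop.1 h1
    refine ⟨max ⌈x₀⌉₊ 1, fun n hn => ?_⟩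
    have hn1 : 1 ≤ n := (le_max_right _ _).trans hn
    have hn0 : (0 : ℝ) < n := by exact_mod_cast hn1
    have h2 := hx₀ n ((Nat.le_ceil _).trans (by exact_mod_cast (le_max_left _ _).trans hn))
    unfold lp
    calc Ψ n * (1 + Real.log n) ≤ (K * (n : ℝ) ^ (ε / 2)) * (1 + Real.log n) :=
          mul_le_mul_of_nonneg_right (hK n hn1) (by linarith [hlog n])
      _ = (n : ℝ) ^ (ε / 2) * (K * (1 + Real.log n)) := by ring
      _ ≤ (n : ℝ) ^ (ε / 2) * (|K| * (1 + Real.log n)) := by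
          apply mul_le_mul_of_nonneg_left _ (by positivity)
          exact mul_le_mul_of_nonneg_right (le_abs_self K) (by linarith [hlog n])
      _ ≤ (n : ℝ) ^ (ε / 2) * (n : ℝ) ^ (ε / 2) := mul_le_mul_of_nonneg_left h2 (by positivity)
      _ = (n : ℝ) ^ ε := by
          rw [← Real.rpow_add hn0]
          congr 1
          ring

end Pool.Agent.H483.IP
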