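import Pool.Agent.H483.IP.Fix
import Pool.Graph.R_seed8.Y627.BC.SM
import Pool.Graph.R_seed8.H828R3.BCSmo

/-! # The smooth integers -/

set_option autoImplicit false

open Finset

namespace Pool.Agent.H483.IP

open Pool.Agent.H96R3.BC hiding Base AA DD TaskLag TaskBase TaskG1 MassBd TaskNS TaskSm TaskFix TaskGrow TaskSec mass_comb mass_all AA_pos fixA cf_diff mass_cf
open Pool.Agent.Y627.BC.SM (count_dvd log128 two_pow card_low log_ge_two gg_rest)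

/-- a part with prescribed mass -/
lemma exists_part {ι : Type*} [DecidableEq ι] (x : ι → ℝ) (m : ℝ) (hm : 0 ≤ m) (S : Finset ι)
    (hx : ∀ p ∈ S, 0 ≤ x p ∧ x p ≤ m) (τ : ℝ) (h0 : 0 ≤ τ) (h1 : τ ≤ ∑ p ∈ S, x p) :
    ∃ A ⊆ S, τ ≤ ∑ p ∈ A, x p ∧ ∑ p ∈ A, x p ≤ τ + m := by
  induction S using Finset.induction_on with
  | empty => exact ⟨∅, Finset.Subset.refl _, h1, by simp; linarith⟩
  | insert p S hp ih =>
    by_cases hc : τ ≤ ∑ q ∈ S, x q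
    · obtain ⟨A, hA, h2⟩ := ih (fun q hq => hx q (Finset.mem_insert_of_mem hq)) hc
      exact ⟨A, hA.trans (Finset.subset_insert _ _), h2⟩
    · push Not at hc
      refine ⟨insert p S, Finset.Subset.refl _, h1, ?_⟩
      rw [Finset.sum_insert hp]
      have := (hx p (Finset.mem_insert_self _ _)).2
      linarith

lemma exists_drop {ι : Type*} [DecidableEq ι] (x t : ι → ℝ) (m : ℝ) (hm : 0 ≤ m) (S : Finset ι)
    (hx : ∀ p ∈ S, 0 ≤ x p ∧ x p ≤ m) (hX : 4 * m ≤ ∑ p ∈ S, x p) :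
    ∃ A ⊆ S, (∑ p ∈ S, x p) / 4 - m ≤ ∑ p ∈ A, x p ∧ ∑ p ∈ A, x p ≤ (∑ p ∈ S, x p) / 4 + 3 * m ∧
      4 * ∑ p ∈ A, t p ≤ ∑ p ∈ S, t p := by
  have hsd : ∀ U V : Finset ι, V ⊆ U → ∀ f : ι → ℝ, ∑ p ∈ U, f p = ∑ p ∈ U \ V, f p + ∑ p ∈ V, f p :=
    fun U V hV f => (Finset.sum_sdiff hV).symm
  set X := ∑ p ∈ S, x p with hXd
  obtain ⟨A₁, hA₁, l₁, u₁⟩ := exists_part x m hm S hx (X / 4 - m) (by linarith) (by linarith)
  have e₁ := hsd S A₁ hA₁ x
  have f₁ := hsd S A₁ hA₁ t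
  have hx₁ : ∀ p ∈ S \ A₁, 0 ≤ x p ∧ x p ≤ m := fun p hp => hx p (Finset.mem_sdiff.1 hp).1
  obtain ⟨A₂, hA₂, l₂, u₂⟩ := exists_part x m hm (S \ A₁) hx₁ (X / 4 - m) (by linarith) (by linarith)
  have e₂ := hsd (S \ A₁) A₂ hA₂ x
  have f₂ := hsd (S \ A₁) A₂ hA₂ t
  have hx₂ : ∀ p ∈ (S \ A₁) \ A₂, 0 ≤ x p ∧ x p ≤ m := fun p hp => hx₁ p (Finset.mem_sdiff.1 hp).1
  obtain ⟨A₃, hA₃, l₃, u₃⟩ := exists_part x m hm ((S \ A₁) \ A₂) hx₂ (X / 4 - m) (by linarith) (by linarith)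
  have e₃ := hsd ((S \ A₁) \ A₂) A₃ hA₃ x
  have f₃ := hsd ((S \ A₁) \ A₂) A₃ hA₃ t
  have s₂ : A₂ ⊆ S := hA₂.trans Finset.sdiff_subset
  have s₃ : A₃ ⊆ S := (hA₃.trans Finset.sdiff_subset).trans Finset.sdiff_subset
  have s₄ : ((S \ A₁) \ A₂) \ A₃ ⊆ S :=
    (Finset.sdiff_subset.trans Finset.sdiff_subset).trans Finset.sdiff_subset
  by_cases c₁ : 4 * ∑ p ∈ A₁, t p ≤ ∑ p ∈ S, t p
  · exact ⟨A₁, hA₁, l₁, by linarith, c₁⟩
  by_cases c₂ : 4 * ∑ p ∈ A₂, t p ≤ ∑ p ∈ S, t p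
  · exact ⟨A₂, s₂, l₂, by linarith, c₂⟩
  by_cases c₃ : 4 * ∑ p ∈ A₃, t p ≤ ∑ p ∈ S, t p
  · exact ⟨A₃, s₃, l₃, by linarith, c₃⟩
  push Not at c₁ c₂ c₃
  refine ⟨((S \ A₁) \ A₂) \ A₃, s₄, by linarith, by linarith, by linarith⟩

/-- the basic sum over subsets of a set of primes -/
theorem sieveh (a b : ℕ) (T P : Finset ℕ) (hT : T ⊆ Ioc a b) (hP : ∀ p ∈ P, p.Prime)
    (σ : ℕ → Finset ℕ) (hσ : ∀ n ∈ T, σ n ⊆ P) (hdvd : ∀ n ∈ T, ∀ p ∈ σ n, p ∣ n)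
    (hsz : ∀ n ∈ T, ∏ p ∈ σ n, p ≤ b - a) (G : ℕ → ℝ) (M : ℝ) (h : ℕ → ℝ) (hM : 0 ≤ M) (hh : ∀ p, 0 ≤ h p)
    (hG : ∀ n ∈ T, G n ≤ M * ∏ p ∈ σ n, h p) :
    ∑ n ∈ T, G n ≤ 2 * M * ((b - a : ℕ) : ℝ) * ∏ p ∈ P, (1 + h p / p) := by
  classical
  have h1 : ∑ n ∈ T, G n ≤ ∑ n ∈ T, M * ∏ p ∈ σ n, h p := Finset.sum_le_sum hG
  refine h1.trans ?_
  rw [← Finset.sum_fiberwise_of_maps_to (s := T) (t := P.powerset) (g := σ)
    (fun n hn => Finset.mem_powerset.2 (hσ n hn)) (fun n => M * ∏ p ∈ σ n, h p)]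
  rw [Finset.prod_one_add, Finset.mul_sum]
  refine Finset.sum_le_sum fun S hS => ?_
  rw [Finset.mem_powerset] at hS
  have hpr : ∏ p ∈ S, (h p / (p : ℝ)) = (∏ p ∈ S, h p) / ((∏ p ∈ S, p : ℕ) : ℝ) := by
    rw [Finset.prod_div_distrib]
    push_cast
    rfl
  have hS0 : (0 : ℝ) < ((∏ p ∈ S, p : ℕ) : ℝ) := by
    have : 0 < ∏ p ∈ S, p := Finset.prod_pos fun p hp => (hP p (hS hp)).pos
    exact_mod_cast this
  have hph : 0 ≤ ∏ p ∈ S, h p := Finset.prod_nonneg fun p _ => hh p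
  have hr : 0 ≤ 2 * M * ((b - a : ℕ) : ℝ) * ∏ p ∈ S, (h p / (p : ℝ)) := by
    rw [hpr]; positivity
  have e1 : ∑ n ∈ T.filter (fun n => σ n = S), M * ∏ p ∈ σ n, h p =
      ((T.filter (fun n => σ n = S)).card : ℝ) * (M * ∏ p ∈ S, h p) := by
    rw [Finset.sum_congr rfl (fun n hn => by rw [(Finset.mem_filter.1 hn).2] :
      ∀ n ∈ T.filter (fun n => σ n = S), M * ∏ p ∈ σ n, h p = M * ∏ p ∈ S, h p),
      Finset.sum_const, nsmul_eq_mul]
  rw [e1]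
  rcases Finset.eq_empty_or_nonempty (T.filter (fun n => σ n = S)) with h0 | ⟨n, hn⟩
  · rw [h0, Finset.card_empty, Nat.cast_zero, zero_mul]
    exact hr
  · have hn' := Finset.mem_filter.1 hn
    have hz : ∏ p ∈ S, p ≤ b - a := by rw [← hn'.2]; exact hsz n hn'.1
    have hsub : T.filter (fun n => σ n = S) ⊆ (Ioc a b).filter (fun n => (∏ p ∈ S, p) ∣ n) := by
      intro k hk
      rw [Finset.mem_filter] at hk ⊢
      refine ⟨hT hk.1, ?_⟩
      apply Finset.prod_primes_dvd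
      · intro p hp
        exact (hP p (hS hp)).prime
      · intro p hp
        exact hdvd k hk.1 p (by rw [hk.2]; exact hp)
    have hc : ((T.filter (fun n => σ n = S)).card : ℝ) ≤
        2 * ((b - a : ℕ) : ℝ) / ((∏ p ∈ S, p : ℕ) : ℝ) := by
      refine le_trans ?_ (count_dvd a b _ (by exact_mod_cast hS0) hz)
      exact_mod_cast Finset.card_le_card hsub
    calc ((T.filter (fun n => σ n = S)).card : ℝ) * (M * ∏ p ∈ S, h p)
        ≤ (2 * ((b - a : ℕ) : ℝ) / ((∏ p ∈ S, p : ℕ) : ℝ)) * (M * ∏ p ∈ S, h p) :=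
          mul_le_mul_of_nonneg_right hc (by positivity)
      _ = _ := by rw [hpr]; ring

/-- the pointwise bound -/
theorem pt {C : ℝ} (hC : 0 ≤ C) (hsmo : ∀ n : ℕ, 1 < n → Squarefree n →
      (∀ p ∈ n.primeFactors, 2 ≤ Real.log p ∧ 32 * Real.log p ≤ Real.log n) →
      ∏ p ∈ n.primeFactors, (2 / (Real.log p) ^ 2) ≤ C / (Real.log n) ^ 8)
    {N n : ℕ} {g ll : ℕ → ℝ} (hll : ∀ p : ℕ, Real.log p ≤ ll p) {B : ℕ → Prop} [DecidablePred B] (hN0 : 0 < N) (hℓ1 : 1 ≤ Real.log N)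
    (hn : Squarefree n) (hnN : N < n) (hn2 : n ≤ 2 * N) (hp : ∀ p ∈ n.primeFactors, p ^ 128 < N)
    (hb : ∀ p ∈ n.primeFactors, B p → 2 ≤ Real.log p ∧ 0 ≤ g p ∧ g p ≤ (ll p) ^ 12)
    (hr : ∀ p ∈ n.primeFactors, ¬ B p → g p = 0 ∨ (2 ≤ Real.log p ∧ g p = 2 / (Real.log p) ^ 2)) :
    ∃ σ ⊆ n.primeFactors.filter B, Real.log (∏ p ∈ σ, (p : ℝ)) ≤ 0.8 * Real.log N + 1 ∧
      ∏ p ∈ n.primeFactors, g p ≤ ((C * 3 ^ 8 + C ^ 2 * 3 ^ 16) / (Real.log N) ^ 8) * ∏ p ∈ σ, (ll p) ^ 20 := by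
  classical
  have hN0r : (0 : ℝ) < N := by exact_mod_cast hN0
  have hn0 : 0 < n := lt_of_le_of_lt (Nat.zero_le _) hnN
  have hnr : (0 : ℝ) < n := by exact_mod_cast hn0
  obtain ⟨ℓ, hℓ⟩ : ∃ ℓ : ℝ, ℓ = Real.log N := ⟨_, rfl⟩
  rw [← hℓ] at hℓ1 ⊢
  have hℓ0 : 0 < ℓ := by linarith
  have hl2 := Real.log_two_lt_d9
  have hprime : ∀ p ∈ n.primeFactors, p.Prime := fun p hp1 => Nat.prime_of_mem_primeFactors hp1
  have hppos : ∀ p ∈ n.primeFactors, (0 : ℝ) < p := fun p hp1 => by exact_mod_cast (hprime p hp1).pos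
  have hlogp : ∀ p ∈ n.primeFactors, 128 * Real.log p ≤ ℓ := fun p hp1 => by
    rw [hℓ]; exact (log128 (hprime p hp1).one_lt.le (hp p hp1)).le
  have hlogn : Real.log n ≤ ℓ + 0.7 := by
    have h1 : (n : ℝ) ≤ 2 * N := by exact_mod_cast hn2
    have h2 := Real.log_le_log hnr h1
    rw [Real.log_mul (by norm_num) hN0r.ne', ← hℓ] at h2
    linarith
  have hlogn' : ℓ ≤ Real.log n := by
    rw [hℓ]
    apply Real.log_le_log hN0r
    exact_mod_cast hnN.le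
  set S := n.primeFactors.filter B with hS
  set R := n.primeFactors.filter (fun p => ¬ B p) with hR
  have hSm : ∀ p ∈ S, p ∈ n.primeFactors ∧ B p := fun p hp1 => Finset.mem_filter.1 hp1
  have hRm : ∀ p ∈ R, p ∈ n.primeFactors ∧ ¬ B p := fun p hp1 => Finset.mem_filter.1 hp1
  have hlogS : ∀ p ∈ S, 2 ≤ Real.log p := fun p hp1 => (hb p (hSm p hp1).1 (hSm p hp1).2).1
  have hsplit : ∀ f : ℕ → ℝ, ∏ p ∈ n.primeFactors, f p = (∏ p ∈ S, f p) * ∏ p ∈ R, f p := fun f => by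
    rw [hS, hR, Finset.prod_filter_mul_prod_filter_not]
  have hnprod : (n : ℝ) = (∏ p ∈ S, (p : ℝ)) * ∏ p ∈ R, (p : ℝ) := by
    rw [← hsplit (fun p => (p : ℝ))]
    have := Nat.prod_primeFactors_of_squarefree hn
    conv_lhs => rw [← this]
    push_cast
    rfl
  have hK0 : (0 : ℝ) < ∏ p ∈ S, (p : ℝ) := Finset.prod_pos fun p hp1 => hppos p (hSm p hp1).1
  have hRp0 : (0 : ℝ) < ∏ p ∈ R, (p : ℝ) := Finset.prod_pos fun p hp1 => hppos p (hRm p hp1).1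
  have hR01 : ∀ p ∈ R, 0 ≤ g p ∧ g p ≤ 1 := by
    intro p hp1
    rcases hr p (hRm p hp1).1 (hRm p hp1).2 with h1 | ⟨h1, h2⟩
    · rw [h1]; exact ⟨le_rfl, zero_le_one⟩
    · rw [h2]
      refine ⟨by positivity, ?_⟩
      rw [div_le_one (by positivity)]
      nlinarith
  have hgR0 : 0 ≤ ∏ p ∈ R, g p := Finset.prod_nonneg fun p hp1 => (hR01 p hp1).1
  have hgR1 : ∏ p ∈ R, g p ≤ 1 := Finset.prod_le_one (fun p hp1 => (hR01 p hp1).1) fun p hp1 => (hR01 p hp1).2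
  have hllS : ∀ p ∈ S, 2 ≤ ll p := fun p hp1 => (hlogS p hp1).trans (hll p)
  have hgS : ∏ p ∈ S, g p ≤ ∏ p ∈ S, (ll p) ^ 12 :=
    Finset.prod_le_prod (fun p hp1 => (hb p (hSm p hp1).1 (hSm p hp1).2).2.1)
      fun p hp1 => (hb p (hSm p hp1).1 (hSm p hp1).2).2.2
  have hgS0 : 0 ≤ ∏ p ∈ S, g p := Finset.prod_nonneg fun p hp1 => (hb p (hSm p hp1).1 (hSm p hp1).2).2.1
  have hlogK : Real.log (∏ p ∈ S, (p : ℝ)) = ∑ p ∈ S, Real.log p :=
    Real.log_prod fun p hp1 => (hppos p (hSm p hp1).1).ne'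
  have h20 : ∀ U : Finset ℕ, U ⊆ S → 0 < ∏ p ∈ U, (ll p) ^ 20 := fun U hU =>
    Finset.prod_pos fun p hp1 => by have := hllS p (hU hp1); positivity
  -- saving from a product of primes
  have save : ∀ U : Finset ℕ, U ⊆ n.primeFactors → (∀ p ∈ U, 2 ≤ Real.log p) →
      ℓ / 3 ≤ Real.log (∏ p ∈ U, (p : ℝ)) → ∏ p ∈ U, (2 / (Real.log p) ^ 2) ≤ C * 3 ^ 8 / ℓ ^ 8 := by
    intro U hU hU2 hU3
    obtain ⟨m, hm⟩ : ∃ m : ℕ, m = ∏ p ∈ U, p := ⟨_, rfl⟩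
    have hmp : m.primeFactors = U := by
      rw [hm]
      exact Nat.primeFactors_prod fun p hp1 => hprime p (hU hp1)
    have hmd : m ∣ n := by
      rw [hm]
      apply Finset.prod_primes_dvd
      · intro p hp1; exact (hprime p (hU hp1)).prime
      · intro p hp1; exact Nat.dvd_of_mem_primeFactors (hU hp1)
    have hms : Squarefree m := hn.squarefree_of_dvd hmd
    have hmc : (m : ℝ) = ∏ p ∈ U, (p : ℝ) := by rw [hm]; push_cast; rfl
    rw [← hmc] at hU3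
    have hm0 : 0 < m := Nat.pos_of_ne_zero fun h0 => by
      rw [h0, zero_dvd_iff] at hmd; omega
    have hm0r : (0 : ℝ) < m := by exact_mod_cast hm0
    have hm1 : 1 < m := by
      have h1 : 0 < Real.log m := by linarith
      have h2 := (Real.log_pos_iff hm0r.le).1 h1
      exact_mod_cast h2
    have h3 := hsmo m hm1 hms (by
      intro p hp1
      rw [hmp] at hp1
      have h4 := hlogp p (hU hp1)
      exact ⟨hU2 p hp1, by linarith⟩)
    rw [hmp] at h3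
    refine h3.trans ?_
    have h4 : (ℓ / 3) ^ 8 ≤ (Real.log m) ^ 8 := pow_le_pow_left₀ (by linarith) hU3 8
    calc C / (Real.log m) ^ 8 ≤ C / (ℓ / 3) ^ 8 := div_le_div_of_nonneg_left hC (by positivity) h4
      _ = C * 3 ^ 8 / ℓ ^ 8 := by rw [div_pow]; field_simp
  rw [hsplit g]
  by_cases hcase : (∏ p ∈ S, (p : ℝ)) ^ 2 ≤ n
  · -- case b
    refine ⟨S, Finset.Subset.refl _, ?_, ?_⟩
    · have := Real.log_le_log (by positivity) hcase
      rw [Real.log_pow] at this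
      push_cast at this
      linarith
    · have hrhs : 0 ≤ ((C * 3 ^ 8 + C ^ 2 * 3 ^ 16) / ℓ ^ 8) * ∏ p ∈ S, (ll p) ^ 20 :=
        mul_nonneg (by positivity) (h20 S (Finset.Subset.refl _)).le
      by_cases hz : ∃ p ∈ R, g p = 0
      · obtain ⟨p, hp1, hp2⟩ := hz
        rw [Finset.prod_eq_zero hp1 hp2, mul_zero]
        exact hrhs
      push Not at hz
      have hR' : ∀ p ∈ R, 2 ≤ Real.log p ∧ g p = 2 / (Real.log p) ^ 2 := by
        intro p hp1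
        rcases hr p (hRm p hp1).1 (hRm p hp1).2 with h1 | h1
        · exact absurd h1 (hz p hp1)
        · exact h1
      have hlog : Real.log n = Real.log (∏ p ∈ S, (p : ℝ)) + Real.log (∏ p ∈ R, (p : ℝ)) := by
        conv_lhs => rw [hnprod]
        rw [Real.log_mul hK0.ne' hRp0.ne']
      have hlK : 2 * Real.log (∏ p ∈ S, (p : ℝ)) ≤ Real.log n := by
        have := Real.log_le_log (by positivity) hcase
        rw [Real.log_pow] at this
        exact_mod_cast this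
      have h1 := save R (Finset.filter_subset _ _) (fun p hp1 => (hR' p hp1).1) (by linarith)
      have h2 : ∏ p ∈ R, g p ≤ C * 3 ^ 8 / ℓ ^ 8 := by
        rw [Finset.prod_congr rfl (fun p hp1 => (hR' p hp1).2)]
        exact h1
      have h3 : ∏ p ∈ S, g p ≤ ∏ p ∈ S, (ll p) ^ 20 := by
        refine hgS.trans (Finset.prod_le_prod (fun p hp1 => ?_) fun p hp1 => ?_)
        · have := hllS p hp1; positivity
        · exact pow_le_pow_right₀ (by linarith [hllS p hp1]) (by norm_num)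
      calc (∏ p ∈ S, g p) * ∏ p ∈ R, g p ≤ (∏ p ∈ S, (ll p) ^ 20) * (C * 3 ^ 8 / ℓ ^ 8) :=
            mul_le_mul h3 h2 hgR0 (h20 S (Finset.Subset.refl _)).le
        _ ≤ (∏ p ∈ S, (ll p) ^ 20) * ((C * 3 ^ 8 + C ^ 2 * 3 ^ 16) / ℓ ^ 8) := by
            apply mul_le_mul_of_nonneg_left _ (h20 S (Finset.Subset.refl _)).le
            apply div_le_div_of_nonneg_right _ (by positivity)
            have : 0 ≤ C ^ 2 * 3 ^ 16 := by positivity
            linarith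
        _ = _ := mul_comm _ _
  · -- case c
    push Not at hcase
    have hX1 : ℓ / 2 ≤ ∑ p ∈ S, Real.log p := by
      have h1 := Real.log_le_log hnr hcase.le
      rw [Real.log_pow, hlogK] at h1
      push_cast at h1
      linarith
    have hRp1 : (1 : ℝ) ≤ ∏ p ∈ R, (p : ℝ) := by
      calc (1 : ℝ) = ∏ _p ∈ R, (1 : ℝ) := by simp
        _ ≤ _ := Finset.prod_le_prod (fun _ _ => zero_le_one) fun p hp1 => by
            exact_mod_cast (hprime p (hRm p hp1).1).one_lt.le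
    have hX2 : ∑ p ∈ S, Real.log p ≤ ℓ + 0.7 := by
      rw [← hlogK]
      refine (Real.log_le_log hK0 ?_).trans hlogn
      rw [hnprod]
      exact le_mul_of_one_le_right hK0.le hRp1
    obtain ⟨A, hA, hA1, hA2, hA3⟩ := exists_drop (fun p : ℕ => Real.log p) (fun p : ℕ => Real.log (ll p))
      (ℓ / 128) (by positivity) S (fun p hp1 => ⟨by linarith [hlogS p hp1], by
        have := hlogp p (hSm p hp1).1
        linarith⟩) (by linarith)
    set X := ∑ p ∈ S, Real.log p with hX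
    have hsd : ∀ f : ℕ → ℝ, ∑ p ∈ S, f p = ∑ p ∈ S \ A, f p + ∑ p ∈ A, f p :=
      fun f => (Finset.sum_sdiff hA).symm
    have hσS : S \ A ⊆ S := Finset.sdiff_subset
    have hlogσ : Real.log (∏ p ∈ S \ A, (p : ℝ)) = X - ∑ p ∈ A, Real.log p := by
      rw [Real.log_prod fun p hp1 => (hppos p (hSm p (hσS hp1)).1).ne', hX, hsd]
      ring
    refine ⟨S \ A, hσS, ?_, ?_⟩
    · rw [hlogσ]
      linarith
    · have h1 := save (S \ A) (hσS.trans (Finset.filter_subset _ _)) (fun p hp1 => hlogS p (hσS hp1)) (by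
        rw [hlogσ]
        linarith)
      -- (log p)^12 over S against (log p)^16 over S \ A
      have h2 : ∏ p ∈ S, (ll p) ^ 12 ≤ ∏ p ∈ S \ A, (ll p) ^ 16 := by
        have e : ∀ (k : ℕ) (U : Finset ℕ), U ⊆ S → ∏ p ∈ U, (ll p) ^ k =
            Real.exp (k * ∑ p ∈ U, Real.log (ll p)) := by
          intro k U hU
          rw [Finset.mul_sum, Real.exp_sum]
          apply Finset.prod_congr rfl
          intro p hp1
          have := hllS p (hU hp1)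
          rw [Real.exp_nat_mul, Real.exp_log (by linarith)]
        rw [e 12 S (Finset.Subset.refl _), e 16 (S \ A) hσS, Real.exp_le_exp]
        have h3 := hsd (fun p => Real.log (ll p))
        push_cast
        linarith
      have h4 : ∏ p ∈ S \ A, (ll p) ^ 16 ≤ (∏ p ∈ S \ A, (ll p) ^ 20) *
          (∏ p ∈ S \ A, (2 / (Real.log p) ^ 2)) ^ 2 := by
        rw [← Finset.prod_pow, ← Finset.prod_mul_distrib]
        refine Finset.prod_le_prod (fun p hp1 => by have := hllS p (hσS hp1); positivity) fun p hp1 => ?_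
        have h5 := hlogS p (hσS hp1)
        have h5' := hllS p (hσS hp1)
        have h6 : (ll p) ^ 20 * (2 / (Real.log p) ^ 2) ^ 2 = (ll p) ^ 16 * (4 * ((ll p) ^ 4 / (Real.log p) ^ 4)) := by
          field_simp
          ring
        rw [h6]
        apply le_mul_of_one_le_right (by positivity)
        have h7 : 1 ≤ (ll p) ^ 4 / (Real.log p) ^ 4 := by
          rw [one_le_div (by positivity)]
          exact pow_le_pow_left₀ (by linarith) (hll p) 4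
        linarith
      have h5 : (∏ p ∈ S \ A, (2 / (Real.log p) ^ 2)) ^ 2 ≤ (C * 3 ^ 8 / ℓ ^ 8) ^ 2 :=
        pow_le_pow_left₀ (Finset.prod_nonneg fun p _ => by positivity) h1 2
      have h6 : (C * 3 ^ 8 / ℓ ^ 8) ^ 2 ≤ (C * 3 ^ 8 + C ^ 2 * 3 ^ 16) / ℓ ^ 8 := by
        have e1 : (C * 3 ^ 8 / ℓ ^ 8) ^ 2 = C ^ 2 * 3 ^ 16 / (ℓ ^ 8 * ℓ ^ 8) := by
          rw [div_pow]; ring
        rw [e1]
        have h7 : 1 ≤ ℓ ^ 8 := one_le_pow₀ hℓ1
        calc C ^ 2 * 3 ^ 16 / (ℓ ^ 8 * ℓ ^ 8) ≤ C ^ 2 * 3 ^ 16 / ℓ ^ 8 := by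
              apply div_le_div_of_nonneg_left (by positivity) (by positivity)
              nlinarith
          _ ≤ _ := by
              apply div_le_div_of_nonneg_right _ (by positivity)
              have : 0 ≤ C * 3 ^ 8 := by positivity
              linarith
      calc (∏ p ∈ S, g p) * ∏ p ∈ R, g p ≤ (∏ p ∈ S, g p) * 1 := mul_le_mul_of_nonneg_left hgR1 hgS0
        _ ≤ ∏ p ∈ S \ A, (ll p) ^ 16 := by rw [mul_one]; exact hgS.trans h2
        _ ≤ (∏ p ∈ S \ A, (ll p) ^ 20) * ((C * 3 ^ 8 + C ^ 2 * 3 ^ 16) / ℓ ^ 8) :=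
            h4.trans (mul_le_mul_of_nonneg_left (h5.trans h6) (h20 _ hσS).le)
        _ = _ := mul_comm _ _

theorem taskSm : TaskSm := by
  classical
  obtain ⟨C, hC, hsmo⟩ := Pool.Agent.H828R3.BC.taskSmo
  refine ⟨10, fun Q hQ ll hll s hs => ?_⟩
  obtain ⟨J₁, hJ₁⟩ := base_small hll 1 one_pos
  set M₀ : ℝ := C * 3 ^ 8 + C ^ 2 * 3 ^ 16 with hM₀
  have hM₀0 : 0 ≤ M₀ := by positivity
  refine ⟨max (max J₁ 8) (max (4 * Q + 2) ⌈Real.exp (max 9 (6 * M₀ / s))⌉₊), fun j₀ hj₀ a0 hB j hj T hT hTn => ?_⟩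
  have hj1 : J₁ ≤ j₀ := ((le_max_left _ _).trans (le_max_left _ _)).trans hj₀
  have hj8 : 8 ≤ j₀ := ((le_max_right _ _).trans (le_max_left _ _)).trans hj₀
  have hj4 : 4 * Q + 2 ≤ j₀ := ((le_max_left _ _).trans (le_max_right _ _)).trans hj₀
  have hj5 : ⌈Real.exp (max 9 (6 * M₀ / s))⌉₊ ≤ j₀ := ((le_max_right _ _).trans (le_max_right _ _)).trans hj₀
  have hj0 : (0 : ℝ) < j := by
    have : 0 < j := by omega
    exact_mod_cast this
  have hlj : max 9 (6 * M₀ / s) ≤ Real.log j := by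
    rw [Real.le_log_iff_exp_le hj0]
    exact (Nat.le_ceil _).trans (by exact_mod_cast hj5.trans hj)
  have hlj9 : 9 ≤ Real.log j := (le_max_left _ _).trans hlj
  have hljs : 6 * M₀ / s ≤ Real.log j := (le_max_right _ _).trans hlj
  have hQr : (10 : ℝ) ≤ Q := by exact_mod_cast hQ
  obtain ⟨N, hN⟩ : ∃ N : ℕ, N = j ^ (2 * Q) := ⟨_, rfl⟩
  have hlN : Real.log (N : ℝ) = 2 * Q * Real.log j := by
    rw [hN]; push_cast; rw [Real.log_pow]; push_cast; ring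
  have hlN1 : Real.log j ≤ Real.log (N : ℝ) := by rw [hlN]; nlinarith
  have hN0 : 0 < N := by rw [hN]; exact Nat.pow_pos (by omega)
  have hcard : ((CC Q j).card : ℝ) = (((j + 1) ^ (2 * Q) - j ^ (2 * Q) : ℕ) : ℝ) := by
    unfold CC; rw [Nat.card_Ioc]
  have hlow := card_low Q j (by omega)
  have hmem : ∀ n ∈ T, N < n ∧ n ≤ 2 * N := by
    intro n hn
    have h1 := hT hn
    unfold CC at h1
    rw [Finset.mem_Ioc] at h1
    rw [hN]
    exact ⟨h1.1, h1.2.trans (two_pow Q j (hj4.trans hj))⟩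
  have hjN0 : j₀ ≤ j₀ ^ (2 * Q) := Nat.le_self_pow (by omega) j₀
  obtain ⟨P, hP⟩ : ∃ P : Finset ℕ, P = (Ioc 0 N).filter (fun p => a0 p ≠ 0) := ⟨_, rfl⟩
  have hPp : ∀ p ∈ P, p.Prime := fun p hp => by
    rw [hP, Finset.mem_filter] at hp
    exact (hB.mem p hp.2).1
  have hbs : ∑ q ∈ P, (ll q) ^ 20 / q ≤ 1 := by
    rw [hP]
    exact hJ₁ (j₀ ^ (2 * Q)) (hj1.trans hjN0) a0 hB (Ioc 0 N)
  have hprod : ∏ p ∈ P, (1 + (ll p) ^ 20 / (p : ℝ)) ≤ 3 := by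
    have h1 : ∏ p ∈ P, (1 + (ll p) ^ 20 / (p : ℝ)) ≤ ∏ p ∈ P, Real.exp ((ll p) ^ 20 / (p : ℝ)) := by
      refine Finset.prod_le_prod (fun p _ => ?_) fun p _ => ?_
      · have : 0 ≤ (ll p) ^ 20 / (p : ℝ) := div_nonneg (Even.pow_nonneg (by decide) _) (Nat.cast_nonneg _)
        linarith
      · have := Real.add_one_le_exp ((ll p) ^ 20 / (p : ℝ))
        linarith
    rw [← Real.exp_sum] at h1
    refine h1.trans ((Real.exp_le_exp.2 hbs).trans ?_)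
    have := Real.exp_one_lt_d9
    linarith
  -- the choice of the sets
  have hex : ∀ n : ℕ, ∃ σ : Finset ℕ, n ∈ T → (σ ⊆ n.primeFactors.filter (fun p => a0 p ≠ 0) ∧
      Real.log (∏ p ∈ σ, (p : ℝ)) ≤ 0.8 * Real.log N + 1 ∧
      ∏ p ∈ n.primeFactors, gg Q j₀ (ab a0) p ≤ (M₀ / (Real.log N) ^ 8) * ∏ p ∈ σ, (ll p) ^ 20) := by
    intro n
    by_cases hn : n ∈ T
    · have hn1 := hmem n hn
      have hn2 := hTn n hn
      obtain ⟨σ, h1, h2, h3⟩ := pt hC hsmo (ll := ll) (hll := hll.lo) (N := N) (n := n) (g := gg Q j₀ (ab a0)) (B := fun p => a0 p ≠ 0)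
        hN0 (by linarith) hn2.1 hn1.1 hn1.2 (by rw [hN]; exact hn2.2.2) (by
          intro p _ hp2
          have h5 := hB.mem p hp2
          have h6 : gg Q j₀ (ab a0) p = |a0 p| := by rw [gg_ab, if_pos hp2]
          refine ⟨log_ge_two (by omega), ?_, ?_⟩
          · rw [h6]; exact abs_nonneg _
          · rw [h6]; exact hB.size p hp2) (by
          intro p _ hp2
          exact gg_rest hj8 (by omega) (by
            unfold ab
            rw [not_not.1 hp2, abs_zero]))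
      exact ⟨σ, fun _ => ⟨h1, h2, h3⟩⟩
    · exact ⟨∅, fun h0 => absurd h0 hn⟩
  choose σ hσ using hex
  have hσP : ∀ n ∈ T, σ n ⊆ P := by
    intro n hn p hp
    have h1 := Finset.mem_filter.1 ((hσ n hn).1 hp)
    rw [hP, Finset.mem_filter, Finset.mem_Ioc]
    have hpp := Nat.prime_of_mem_primeFactors h1.1
    refine ⟨⟨hpp.pos, ?_⟩, h1.2⟩
    have h2 := (hTn n hn).2.2 p h1.1
    rw [← hN] at h2
    have h3 : p ≤ p ^ 128 := Nat.le_self_pow (by norm_num) p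
    omega
  have hmain := sieveh (j ^ (2 * Q)) ((j + 1) ^ (2 * Q)) T P hT hPp σ hσP
    (fun n hn p hp => Nat.dvd_of_mem_primeFactors (Finset.mem_filter.1 ((hσ n hn).1 hp)).1) (by
      intro n hn
      refine le_trans ?_ hlow
      have h2 := (hσ n hn).2.1
      have hpos : (0 : ℝ) < ∏ p ∈ σ n, (p : ℝ) := Finset.prod_pos fun p hp => by
        exact_mod_cast (hPp p (hσP n hn hp)).pos
      have h3 : Real.log (∏ p ∈ σ n, (p : ℝ)) ≤ Real.log ((j : ℝ) ^ (2 * Q - 1)) := by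
        refine h2.trans ?_
        rw [Real.log_pow, hlN]
        have h4 : ((2 * Q - 1 : ℕ) : ℝ) = 2 * Q - 1 := by
          rw [Nat.cast_sub (by omega)]; push_cast; ring
        rw [h4]
        nlinarith
      have h4 := (Real.log_le_log_iff hpos (by positivity)).1 h3
      have e : ((∏ p ∈ σ n, p : ℕ) : ℝ) = ∏ p ∈ σ n, (p : ℝ) := Nat.cast_prod _ _
      rw [← e, ← Nat.cast_pow] at h4
      exact Nat.cast_le.1 h4)
    (fun n => ∏ p ∈ n.primeFactors, gg Q j₀ (ab a0) p) (M₀ / (Real.log N) ^ 8) (fun p => (ll p) ^ 20)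
    (by have : 0 < Real.log (N : ℝ) := by linarith
        positivity) (fun p => Even.pow_nonneg (by decide) _) (fun n hn => (hσ n hn).2.2)
  obtain ⟨D, hDef⟩ : ∃ D : ℕ, D = (j + 1) ^ (2 * Q) - j ^ (2 * Q) := ⟨_, rfl⟩
  rw [← hDef] at hmain
  rw [hcard, ← hDef]
  obtain ⟨ℓ, hℓ⟩ : ∃ ℓ : ℝ, ℓ = Real.log (N : ℝ) := ⟨_, rfl⟩
  rw [← hℓ] at hmain hlN1
  have hlj0 : 0 < Real.log (j : ℝ) := by linarith
  have hℓpos : 0 < ℓ := by linarith
  have hℓ1 : 1 ≤ ℓ := by linarith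
  have hD' : (0 : ℝ) ≤ D := Nat.cast_nonneg _
  rw [le_div_iff₀ (by positivity)]
  have hpow : (Real.log (j : ℝ)) ^ 3 ≤ ℓ ^ 3 := pow_le_pow_left₀ hlj0.le hlN1 3
  have hnn : 0 ≤ 2 * (M₀ / ℓ ^ 8) * (D : ℝ) * 3 := by positivity
  have hmain2 : ∑ n ∈ T, ∏ p ∈ n.primeFactors, gg Q j₀ (ab a0) p ≤ 2 * (M₀ / ℓ ^ 8) * (D : ℝ) * 3 :=
    hmain.trans (mul_le_mul_of_nonneg_left hprod (by positivity))
  have hfin : 6 * M₀ / ℓ ^ 5 ≤ s := by
    rw [div_le_iff₀ (by positivity)]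
    have h1 : 6 * M₀ ≤ s * ℓ := by
      rw [div_le_iff₀ hs] at hljs
      nlinarith
    have h2 : ℓ ≤ ℓ ^ 5 := by
      calc ℓ = ℓ ^ 1 := (pow_one _).symm
        _ ≤ ℓ ^ 5 := pow_le_pow_right₀ hℓ1 (by norm_num)
    nlinarith
  calc (∑ n ∈ T, ∏ p ∈ n.primeFactors, gg Q j₀ (ab a0) p) * (Real.log (j : ℝ)) ^ 3
      ≤ (2 * (M₀ / ℓ ^ 8) * (D : ℝ) * 3) * (Real.log (j : ℝ)) ^ 3 :=
        mul_le_mul_of_nonneg_right hmain2 (by positivity)
    _ ≤ (2 * (M₀ / ℓ ^ 8) * (D : ℝ) * 3) * ℓ ^ 3 := mul_le_mul_of_nonneg_left hpow hnn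
    _ = (6 * M₀ / ℓ ^ 5) * D := by
        field_simp
        ring
    _ ≤ s * D := mul_le_mul_of_nonneg_right hfin hD'

end Pool.Agent.H483.IP
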